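import Pool.Agent.Lib.MP_b039ef_an.AS.Basic

/-!
# MP_b039ef_an, project AS: averages over words
-/

set_option autoImplicit false

namespace Pool.Agent.MP_b039ef_an.AS

open scoped ENNReal NNReal
open MeasureTheory Set

variable {m : ℕ} (p : Fin m → ℝ≥0∞)

private theorem avg_zero' (φ : List (Fin m) → ℝ≥0∞) : avg p 0 φ = φ [] := rfl

private theorem avg_succ' (n : ℕ) (φ : List (Fin m) → ℝ≥0∞) :
    avg p (n + 1) φ = ∑ i, p i * avg p n fun w => φ (i :: w) := rfl

theorem avg_mono (n : ℕ) {φ ψ : List (Fin m) → ℝ≥0∞} (h : ∀ w, w.length = n → φ w ≤ ψ w) :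
    avg p n φ ≤ avg p n ψ := by
  induction n generalizing φ ψ with
  | zero => exact h [] rfl
  | succ n ih =>
    rw [avg_succ', avg_succ']
    refine Finset.sum_le_sum fun i _ => ?_
    have h1 : avg p n (fun w => φ (i :: w)) ≤ avg p n (fun w => ψ (i :: w)) :=
      ih fun w hw => h (i :: w) (by simp [hw])
    gcongr

theorem avg_const (hp : ∑ i, p i = 1) (n : ℕ) (c : ℝ≥0∞) : avg p n (fun _ => c) = c := by
  induction n with
  | zero => rfl
  | succ n ih =>
    rw [avg_succ']
    simp only [ih]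
    rw [← Finset.sum_mul, hp, one_mul]

theorem lintegral_avg {Ω : Type} [MeasurableSpace Ω] (μ : Measure Ω) (n : ℕ)
    (φ : Ω → List (Fin m) → ℝ≥0∞) (hφ : ∀ w, Measurable fun ω => φ ω w) (hp : ∀ i, p i ≠ ⊤) :
    Measurable (fun ω => avg p n (φ ω)) ∧
      ∫⁻ ω, avg p n (φ ω) ∂μ = avg p n fun w => ∫⁻ ω, φ ω w ∂μ := by
  induction n generalizing φ with
  | zero => exact ⟨hφ [], rfl⟩
  | succ n ih =>
    have h1 : ∀ i : Fin m, Measurable (fun ω => avg p n fun w => φ ω (i :: w)) ∧
        ∫⁻ ω, avg p n (fun w => φ ω (i :: w)) ∂μ = avg p n fun w => ∫⁻ ω, φ ω (i :: w) ∂μ :=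
      fun i => ih (fun ω w => φ ω (i :: w)) fun w => hφ (i :: w)
    have hm : ∀ i : Fin m, Measurable fun ω => p i * avg p n fun w => φ ω (i :: w) :=
      fun i => (h1 i).1.const_mul (p i)
    constructor
    · have h2 : (fun ω => avg p (n + 1) (φ ω)) =
          fun ω => ∑ i, p i * avg p n fun w => φ ω (i :: w) := rfl
      rw [h2]
      exact Finset.measurable_sum _ fun i _ => hm i
    · have h2 : (fun ω => avg p (n + 1) (φ ω)) =
          fun ω => ∑ i, p i * avg p n fun w => φ ω (i :: w) := rfl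
      rw [h2, lintegral_finsetSum _ fun i _ => hm i, avg_succ']
      refine Finset.sum_congr rfl fun i _ => ?_
      rw [lintegral_const_mul _ (h1 i).1, (h1 i).2]

private theorem avg_add (n : ℕ) (φ ψ : List (Fin m) → ℝ≥0∞) :
    avg p n (fun w => φ w + ψ w) = avg p n φ + avg p n ψ := by
  induction n generalizing φ ψ with
  | zero => rfl
  | succ n ih =>
    simp only [avg_succ', ih, mul_add, Finset.sum_add_distrib]

private theorem avg_zero_fun (n : ℕ) : avg p n (fun _ => 0) = 0 := by
  induction n with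
  | zero => rfl
  | succ n ih => simp [avg_succ', ih]

private theorem avg_sum {ι : Type} (s : Finset ι) (n : ℕ) (φ : ι → List (Fin m) → ℝ≥0∞) :
    avg p n (fun w => ∑ k ∈ s, φ k w) = ∑ k ∈ s, avg p n (φ k) := by
  classical
  induction s using Finset.induction_on with
  | empty => simpa using avg_zero_fun p n
  | insert a s ha ih =>
    simp only [Finset.sum_insert ha]
    rw [avg_add p n (φ a) (fun w => ∑ k ∈ s, φ k w), ih]

private theorem avg_const_mul (n : ℕ) (c : ℝ≥0∞) (φ : List (Fin m) → ℝ≥0∞) :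
    avg p n (fun w => c * φ w) = c * avg p n φ := by
  induction n generalizing φ with
  | zero => rfl
  | succ n ih =>
    simp only [avg_succ', ih, Finset.mul_sum]
    exact Finset.sum_congr rfl fun i _ => by ring

private theorem avg_mul_const (n : ℕ) (c : ℝ≥0∞) (φ : List (Fin m) → ℝ≥0∞) :
    avg p n (fun w => φ w * c) = avg p n φ * c := by
  have h : (fun w => φ w * c) = fun w => c * φ w := funext fun w => mul_comm _ _
  rw [h, avg_const_mul, mul_comm]

/-- Cauchy-Schwarz -/
theorem one_le_card_mul (hp : ∑ i, p i = 1) (n N : ℕ) (κ : List (Fin m) → Fin N) :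
    1 ≤ (N : ℝ≥0∞) * avg p n fun w => avg p n fun w' => if κ w = κ w' then 1 else 0 := by
  have key : ∃ P : Fin N → ℝ≥0∞, (∀ k, P k = avg p n fun w => if κ w = k then 1 else 0) :=
    ⟨_, fun k => rfl⟩
  obtain ⟨P, hP⟩ := key
  have hsum : ∑ k, P k = 1 := by
    simp only [hP]
    rw [← avg_sum]
    have h : (fun w : List (Fin m) => ∑ k : Fin N, if κ w = k then (1 : ℝ≥0∞) else 0) =
        fun _ => 1 := by
      funext w
      simp
    rw [h, avg_const p hp]
  have hin : ∀ w : List (Fin m), (avg p n fun w' => if κ w = κ w' then 1 else 0) = P (κ w) := by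
    intro w
    rw [hP]
    congr 1
    funext w'
    by_cases h : κ w = κ w'
    · simp [h]
    · have h' : ¬ κ w' = κ w := fun e => h e.symm
      simp [h, h']
  have hsq : (avg p n fun w => avg p n fun w' => if κ w = κ w' then (1 : ℝ≥0∞) else 0) =
      ∑ k, P k * P k := by
    simp only [hin]
    have h : (fun w : List (Fin m) => P (κ w)) =
        fun w => ∑ k : Fin N, (if κ w = k then (1 : ℝ≥0∞) else 0) * P k := by
      funext w
      simp
    rw [h, avg_sum]
    refine Finset.sum_congr rfl fun k _ => ?_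
    rw [avg_mul_const, ← hP]
  rw [hsq]
  have hfin : ∀ k, P k ≠ ⊤ := by
    intro k hk
    have h1 : P k ≤ 1 := by
      rw [← hsum]
      exact Finset.single_le_sum (fun _ _ => zero_le) (Finset.mem_univ k)
    rw [hk] at h1
    exact absurd h1 (by simp)
  have hex : ∀ k, ∃ r : ℝ≥0, P k = (r : ℝ≥0∞) := fun k =>
    ⟨(P k).toNNReal, (ENNReal.coe_toNNReal (hfin k)).symm⟩
  choose Q hQ using hex
  simp only [hQ] at hsum ⊢
  have h2 : ∑ k, Q k = 1 := by exact_mod_cast hsum
  have h3 : (∑ k, Q k) ^ 2 ≤ (N : ℝ≥0) * ∑ k, Q k ^ 2 := by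
    have := sq_sum_le_card_mul_sum_sq (s := (Finset.univ : Finset (Fin N))) (f := Q)
    simpa using this
  rw [h2, one_pow] at h3
  have h4 : (1 : ℝ≥0) ≤ (N : ℝ≥0) * ∑ k, Q k * Q k := by
    simpa [sq] using h3
  exact_mod_cast h4

/-- summation over the common beginnings -/
theorem avg_bound (hp : ∑ i, p i = 1) (ψ : List (Fin m) → List (Fin m) → List (Fin m) → ℝ≥0∞)
    (Y : List (Fin m) → ℝ≥0∞) (q M : ℝ≥0∞) (h0 : ∀ v, ψ v [] [] ≤ M)
    (h1 : ∀ v w w' i j, i ≠ j → ψ v (i :: w) (j :: w') ≤ Y v)
    (h2 : ∀ v w w' i, ψ v (i :: w) (i :: w') ≤ ψ (v ++ [i]) w w')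
    (h3 : ∀ v, ∑ i, p i ^ 2 * Y (v ++ [i]) ≤ q * Y v) (n : ℕ) (v : List (Fin m)) :
    avg p n (fun w => avg p n (ψ v w)) ≤
      Y v * ∑ k ∈ Finset.range n, q ^ k + M * (∑ i, p i ^ 2) ^ n := by
  induction n generalizing v with
  | zero =>
    simpa [avg_zero'] using h0 v
  | succ n ih =>
    -- the left side as a double sum
    have hL : avg p (n + 1) (fun w => avg p (n + 1) (ψ v w)) =
        ∑ i, ∑ j, p i * p j * avg p n fun w => avg p n fun w' => ψ v (i :: w) (j :: w') := by
      rw [avg_succ']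
      refine Finset.sum_congr rfl fun i _ => ?_
      have h : (fun w => avg p (n + 1) (ψ v (i :: w))) =
          fun w => ∑ j, p j * avg p n fun w' => ψ v (i :: w) (j :: w') := rfl
      rw [h, avg_sum, Finset.mul_sum]
      refine Finset.sum_congr rfl fun j _ => ?_
      rw [avg_const_mul, mul_assoc]
    have hterm : ∀ i j, p i * p j * (avg p n fun w => avg p n fun w' => ψ v (i :: w) (j :: w')) ≤
        (if i = j then p i ^ 2 * (Y (v ++ [i]) * ∑ k ∈ Finset.range n, q ^ k +
          M * (∑ i, p i ^ 2) ^ n) else 0) + p i * p j * Y v := by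
      intro i j
      by_cases hij : i = j
      · subst hij
        rw [if_pos rfl]
        have h4 : (avg p n fun w => avg p n fun w' => ψ v (i :: w) (i :: w')) ≤
            Y (v ++ [i]) * ∑ k ∈ Finset.range n, q ^ k + M * (∑ i, p i ^ 2) ^ n := by
          refine le_trans ?_ (ih (v ++ [i]))
          refine avg_mono p n fun w _ => ?_
          exact avg_mono p n fun w' _ => h2 v w w' i
        calc p i * p i * (avg p n fun w => avg p n fun w' => ψ v (i :: w) (i :: w'))
            ≤ p i * p i * (Y (v ++ [i]) * ∑ k ∈ Finset.range n, q ^ k +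
              M * (∑ i, p i ^ 2) ^ n) := by gcongr
          _ = p i ^ 2 * (Y (v ++ [i]) * ∑ k ∈ Finset.range n, q ^ k +
              M * (∑ i, p i ^ 2) ^ n) := by rw [sq]
          _ ≤ _ := le_self_add
      · rw [if_neg hij, zero_add]
        have h4 : (avg p n fun w => avg p n fun w' => ψ v (i :: w) (j :: w')) ≤ Y v := by
          calc (avg p n fun w => avg p n fun w' => ψ v (i :: w) (j :: w'))
              ≤ avg p n fun _ => Y v := by
                refine avg_mono p n fun w _ => ?_
                calc (avg p n fun w' => ψ v (i :: w) (j :: w')) ≤ avg p n fun _ => Y v :=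
                      avg_mono p n fun w' _ => h1 v w w' i j hij
                  _ = Y v := avg_const p hp n (Y v)
            _ = Y v := avg_const p hp n (Y v)
        gcongr
    have hS : ∑ i, ∑ j, p i * p j * Y v = Y v := by
      have e1 : ∀ i, ∑ j, p i * p j * Y v = p i * Y v := by
        intro i
        rw [← Finset.sum_mul, ← Finset.mul_sum, hp, mul_one]
      simp only [e1]
      rw [← Finset.sum_mul, hp, one_mul]
    calc avg p (n + 1) (fun w => avg p (n + 1) (ψ v w))
        = ∑ i, ∑ j, p i * p j * avg p n fun w => avg p n fun w' => ψ v (i :: w) (j :: w') := hL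
      _ ≤ ∑ i, ∑ j, ((if i = j then p i ^ 2 * (Y (v ++ [i]) * ∑ k ∈ Finset.range n, q ^ k +
          M * (∑ i, p i ^ 2) ^ n) else 0) + p i * p j * Y v) :=
          Finset.sum_le_sum fun i _ => Finset.sum_le_sum fun j _ => hterm i j
      _ = ∑ i, p i ^ 2 * (Y (v ++ [i]) * ∑ k ∈ Finset.range n, q ^ k +
          M * (∑ i, p i ^ 2) ^ n) + Y v := by
          simp only [Finset.sum_add_distrib]
          rw [hS]
          congr 1
          refine Finset.sum_congr rfl fun i _ => ?_
          simp
      _ = (∑ i, p i ^ 2 * Y (v ++ [i])) * ∑ k ∈ Finset.range n, q ^ k +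
          (∑ i, p i ^ 2) * (M * (∑ i, p i ^ 2) ^ n) + Y v := by
          rw [Finset.sum_mul, Finset.sum_mul, ← Finset.sum_add_distrib]
          congr 1
          refine Finset.sum_congr rfl fun i _ => ?_
          ring
      _ ≤ q * Y v * ∑ k ∈ Finset.range n, q ^ k +
          (∑ i, p i ^ 2) * (M * (∑ i, p i ^ 2) ^ n) + Y v := by
          have h5 := h3 v
          gcongr
      _ = Y v * ∑ k ∈ Finset.range (n + 1), q ^ k + M * (∑ i, p i ^ 2) ^ (n + 1) := by
          rw [Finset.sum_range_succ', pow_zero, mul_add, mul_one]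
          have e2 : ∑ k ∈ Finset.range n, q ^ (k + 1) = q * ∑ k ∈ Finset.range n, q ^ k := by
            rw [Finset.mul_sum]
            exact Finset.sum_congr rfl fun k _ => by ring
          rw [e2]
          ring

end Pool.Agent.MP_b039ef_an.AS
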