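import Pool.Agent.Lib.MP_b039ef_an.Cover

/-!
# MP_b039ef_an, project AS (the almost sure gap): definitions
-/

set_option autoImplicit false

namespace Pool.Agent.MP_b039ef_an.AS

open scoped ENNReal NNReal RealInnerProductSpace
open MeasureTheory Set

/-- the space `ℝ^d` -/
abbrev E (d : ℕ) : Type := EuclideanSpace ℝ (Fin d)

variable {d m : ℕ}

/-- The hypotheses on the linear parts: `U` is a compact set of nonzero vectors of length
(one-dimensional Hausdorff measure) zero, the transposes of the `A i` map each `u ∈ U` to a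
multiple `c u'` of a vector of `U` with `|c| ≥ a i > 0`, and `A i` contracts the vectors which it
maps into the hyperplane orthogonal to `u` by more than the factor `θ |c|`, `θ < 1`. -/
structure Sys (A : Fin m → E d →L[ℝ] E d) (U : Set (E d)) (a : Fin m → ℝ) (θ : ℝ) : Prop where
  inj : ∀ i, Function.Injective (A i)
  norm : ∀ i, ‖A i‖ < 1 / 2
  comp : IsCompact U
  ne : U.Nonempty
  ne0 : (0 : E d) ∉ U
  pos : ∀ i, 0 < a i
  θ0 : 0 < θ
  θ1 : θ < 1
  inv : ∀ u ∈ U, ∀ i, ∃ c : ℝ, ∃ u' ∈ U, a i ≤ |c| ∧ (∀ x, inner ℝ u (A i x) = c * inner ℝ u' x) ∧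
    ∀ x, inner ℝ u (A i x) = 0 → ‖A i x‖ ≤ θ * |c| * ‖x‖

/-- the maximum of `⟨u, ·⟩` over the piece `A i K + t i` -/
noncomputable def hI (A : Fin m → E d →L[ℝ] E d) (t : Fin m → E d) (K : Set (E d)) (i : Fin m)
    (u : E d) : ℝ := sSup ((fun x => inner ℝ u (A i x + t i)) '' K)

/-- products of the maps; the head of the word is applied last -/
def Aw (A : Fin m → E d →L[ℝ] E d) : List (Fin m) → E d →L[ℝ] E d
  | [] => ContinuousLinearMap.id ℝ (E d)
  | i :: w => (A i).comp (Aw A w)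

/-- `zw A w t` is the image of `0` under the composition of the maps `x ↦ A i x + t i` along `w`,
as a function of `t` -/
def zw (A : Fin m → E d →L[ℝ] E d) : List (Fin m) → (Fin m → E d) →L[ℝ] E d
  | [] => 0
  | i :: w => ContinuousLinearMap.proj i + (A i).comp (zw A w)

/-- the product of the `a i` along a word -/
def aw (a : Fin m → ℝ) (w : List (Fin m)) : ℝ := (w.map a).prod

/-- the weighted average of `φ` over the words of length `n` -/
noncomputable def avg (p : Fin m → ℝ≥0∞) : ℕ → (List (Fin m) → ℝ≥0∞) → ℝ≥0∞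
  | 0, φ => φ []
  | n + 1, φ => ∑ i, p i * avg p n fun w => φ (i :: w)

/-- the weight of the pairs of words whose points are close -/
noncomputable def SS (A : Fin m → E d →L[ℝ] E d) (p : Fin m → ℝ≥0∞) (n : ℕ) (ρ : ℝ)
    (t : Fin m → E d) : ℝ≥0∞ :=
  avg p n fun w => avg p n fun w' => {t : Fin m → E d | ‖zw A w t - zw A w' t‖ ≤ ρ}.indicator 1 t

/-- An orbit of maximizers: `x n` is the point of `K` which maximizes `⟨u n, ·⟩`, it lies in the
piece with number `w n` only, and `x (n + 1)` is its preimage. -/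
structure Orb (A : Fin m → E d →L[ℝ] E d) (t : Fin m → E d) (K : Set (E d)) (θ : ℝ) (α B γ : ℝ)
    (x u : ℕ → E d) (w : ℕ → Fin m) (c : ℕ → ℝ) : Prop where
  mem : ∀ n, x n ∈ K
  αpos : 0 < α
  αc : ∀ n, α ≤ c n
  αu : ∀ n, α ≤ ‖u n‖
  uB : ∀ n, ‖u n‖ ≤ B
  γpos : 0 < γ
  step : ∀ n, x n = A (w n) (x (n + 1)) + t (w n)
  adj : ∀ n y, inner ℝ (u n) (A (w n) y) = c n * inner ℝ (u (n + 1)) y
  contr : ∀ n y, inner ℝ (u n) (A (w n) y) = 0 → ‖A (w n) y‖ ≤ θ * c n * ‖y‖
  max : ∀ n, ∀ y ∈ K, inner ℝ (u n) y ≤ inner ℝ (u n) (x n)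
  gap : ∀ n j, j ≠ w n → ∀ y ∈ K, inner ℝ (u n) (A j y + t j) ≤ inner ℝ (u n) (x n) - γ

end Pool.Agent.MP_b039ef_an.AS
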