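import Pool.Agent.Lib.MP_b039ef_an.AS.Basic

/-!
# MP_b039ef_an, project AS, part E (dominating common left eigenvector): definitions
-/

set_option autoImplicit false

namespace Pool.Agent.MP_b039ef_an.AS

open scoped ENNReal NNReal
open MeasureTheory Set

variable {d m : ℕ}

/-- `u` is a common eigenvector of the transposes of the `A i` with eigenvalues `a i`, and
`‖A i x‖ ≤ θ |a i| ‖x‖` on the hyperplane orthogonal to `u` -/
structure Eig (A : Fin m → E d →L[ℝ] E d) (u : E d) (a : Fin m → ℝ) (θ : ℝ) : Prop where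
  inj : ∀ i, Function.Injective (A i)
  norm : ∀ i, ‖A i‖ < 1 / 2
  une : u ≠ 0
  ane : ∀ i, a i ≠ 0
  θ0 : 0 < θ
  θ1 : θ < 1
  inv : ∀ i x, inner ℝ u (A i x) = a i * inner ℝ u x
  contr : ∀ i x, inner ℝ u x = 0 → ‖A i x‖ ≤ θ * |a i| * ‖x‖

/-- the weight of the pairs of words whose points have close projections in direction `u` -/
noncomputable def SU (A : Fin m → E d →L[ℝ] E d) (u : E d) (p : Fin m → ℝ≥0∞) (n : ℕ) (ρ : ℝ)
    (t : Fin m → E d) : ℝ≥0∞ :=
  avg p n fun w => avg p n fun w' =>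
    {t : Fin m → E d | |inner ℝ u (zw A w t - zw A w' t)| ≤ ρ}.indicator 1 t

/-- every cover of `K` by sets of width at most `δ` in direction `u` has at least `c δ^(-σ)`
members -/
def Wide (K : Set (E d)) (u : E d) (σ c : ℝ) : Prop :=
  ∀ δ : ℝ, 0 < δ → ∀ (N : ℕ) (V : Fin N → Set (E d)), K ⊆ ⋃ k, V k →
    (∀ k, ∀ x ∈ V k, ∀ y ∈ V k, |inner ℝ u (x - y)| ≤ δ) → c * δ ^ (-σ) ≤ N

end Pool.Agent.MP_b039ef_an.AS
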