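import Pool.Agent.Lib.MP_b039ef_an.AS.Supp

/-!
# MP_b039ef_an, project AS: words and transversality
-/

set_option autoImplicit false

namespace Pool.Agent.MP_b039ef_an.AS

open scoped ENNReal NNReal
open MeasureTheory Set

variable {d m : ℕ} {A : Fin m → E d →L[ℝ] E d}

theorem Aw_append (v w : List (Fin m)) (x : E d) : Aw A (v ++ w) x = Aw A v (Aw A w x) := by
  induction v with
  | nil => rfl
  | cons i v ih =>
    change A i (Aw A (v ++ w) x) = A i (Aw A v (Aw A w x))
    rw [ih]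

theorem Aw_norm_le (hA : ∀ i, ‖A i‖ ≤ 1 / 2) (w : List (Fin m)) (x : E d) :
    ‖Aw A w x‖ ≤ (1 / 2) ^ w.length * ‖x‖ := by
  induction w with
  | nil =>
    change ‖x‖ ≤ (1 / 2) ^ 0 * ‖x‖
    rw [pow_zero, one_mul]
  | cons i w ih =>
    change ‖A i (Aw A w x)‖ ≤ (1 / 2) ^ (w.length + 1) * ‖x‖
    have h1 : ‖A i (Aw A w x)‖ ≤ 1 / 2 * ‖Aw A w x‖ :=
      ((A i).le_opNorm _).trans (mul_le_mul_of_nonneg_right (hA i) (norm_nonneg _))
    rw [pow_succ']
    calc ‖A i (Aw A w x)‖ ≤ 1 / 2 * ‖Aw A w x‖ := h1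
      _ ≤ 1 / 2 * ((1 / 2) ^ w.length * ‖x‖) := mul_le_mul_of_nonneg_left ih (by norm_num)
      _ = 1 / 2 * (1 / 2) ^ w.length * ‖x‖ := by ring

theorem exists_lower (hinj : ∀ i, Function.Injective (A i)) :
    ∃ b : ℝ, 0 < b ∧ b ≤ 1 / 2 ∧ ∀ i x, b * ‖x‖ ≤ ‖A i x‖ := by
  have h1 : ∀ i, ∃ K : ℝ≥0, ∀ x, ‖x‖ ≤ K * ‖A i x‖ := by
    intro i
    obtain ⟨K, -, hK⟩ := (A i).toLinearMap.exists_antilipschitzWith
      (LinearMap.ker_eq_bot.2 (hinj i))
    refine ⟨K, fun x => ?_⟩
    have h2 := hK.le_mul_dist x 0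
    rw [dist_zero_right, map_zero, dist_zero_right] at h2
    exact h2
  choose K hK using h1
  have hS : (0 : ℝ) ≤ ∑ i, (K i : ℝ) := Finset.sum_nonneg fun i _ => (K i).2
  refine ⟨1 / (∑ i, (K i : ℝ) + 2), by positivity, ?_, fun i x => ?_⟩
  · apply one_div_le_one_div_of_le
    · norm_num
    · linarith
  · rw [one_div, inv_mul_le_iff₀ (by positivity)]
    refine (hK i x).trans (mul_le_mul_of_nonneg_right ?_ (norm_nonneg _))
    have h3 : (K i : ℝ) ≤ ∑ j, (K j : ℝ) :=
      Finset.single_le_sum (f := fun j => (K j : ℝ)) (fun j _ => (K j).2) (Finset.mem_univ i)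
    linarith

theorem le_Aw {b : ℝ} (hb : 0 ≤ b) (h : ∀ i x, b * ‖x‖ ≤ ‖A i x‖) (w : List (Fin m)) (x : E d) :
    b ^ w.length * ‖x‖ ≤ ‖Aw A w x‖ := by
  induction w with
  | nil =>
    change b ^ 0 * ‖x‖ ≤ ‖x‖
    rw [pow_zero, one_mul]
  | cons i w ih =>
    change b ^ (w.length + 1) * ‖x‖ ≤ ‖A i (Aw A w x)‖
    rw [pow_succ']
    calc b * b ^ w.length * ‖x‖ = b * (b ^ w.length * ‖x‖) := by ring
      _ ≤ b * ‖Aw A w x‖ := mul_le_mul_of_nonneg_left ih hb
      _ ≤ ‖A i (Aw A w x)‖ := h i _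

theorem mem_word {t : Fin m → E d} {K : Set (E d)} (hK : IsSelfAffineSet A t K)
    (w : List (Fin m)) {x : E d} (hx : x ∈ K) : zw A w t + Aw A w x ∈ K := by
  induction w with
  | nil =>
    change (0 : E d) + x ∈ K
    rwa [zero_add]
  | cons i w ih =>
    change (t i + A i (zw A w t)) + A i (Aw A w x) ∈ K
    have h1 := image_mem hK i ih
    rw [map_add] at h1
    have h2 : (t i + A i (zw A w t)) + A i (Aw A w x) =
        A i (zw A w t) + A i (Aw A w x) + t i := by abel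
    rw [h2]
    exact h1

theorem inv_word {U : Set (E d)} {a : Fin m → ℝ} {θ : ℝ} (hS : Sys A U a θ) (w : List (Fin m))
    (u : E d) (hu : u ∈ U) :
    ∃ c : ℝ, ∃ u' ∈ U, aw a w ≤ |c| ∧ ∀ x, inner ℝ u (Aw A w x) = c * inner ℝ u' x := by
  induction w generalizing u with
  | nil =>
    refine ⟨1, u, hu, ?_, fun x => ?_⟩
    · simp [aw]
    · change inner ℝ u x = 1 * inner ℝ u x
      rw [one_mul]
  | cons i w ih =>
    obtain ⟨c, u', hu', hc, hinv, -⟩ := hS.inv u hu i
    obtain ⟨c', u'', hu'', hc', hinv'⟩ := ih u' hu'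
    refine ⟨c * c', u'', hu'', ?_, fun x => ?_⟩
    · have h1 : aw a (i :: w) = a i * aw a w := by simp [aw]
      rw [h1, abs_mul]
      exact mul_le_mul hc hc' (by
        unfold aw
        exact List.prod_nonneg (fun z hz => by
          obtain ⟨j, -, rfl⟩ := List.mem_map.1 hz
          exact (hS.pos j).le)) (abs_nonneg _)
    · change inner ℝ u (A i (Aw A w x)) = c * c' * inner ℝ u'' x
      rw [hinv, hinv', mul_assoc]

theorem aw_pos {a : Fin m → ℝ} (ha : ∀ i, 0 < a i) (w : List (Fin m)) : 0 < aw a w := by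
  induction w with
  | nil => simp [aw]
  | cons i w ih =>
    have h1 : aw a (i :: w) = a i * aw a w := by simp [aw]
    rw [h1]
    exact mul_pos (ha i) ih

namespace Words

/-- the derivative of `zw` with respect to one of the translations -/
noncomputable def D (A : Fin m → E d →L[ℝ] E d) (w : List (Fin m)) (l : Fin m) :
    E d →L[ℝ] E d :=
  (zw A w).comp (ContinuousLinearMap.single ℝ (fun _ : Fin m => E d) l)

theorem D_apply (w : List (Fin m)) (l : Fin m) (e : E d) : D A w l e = zw A w (Pi.single l e) :=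
  rfl

theorem D_nil (l : Fin m) : D A [] l = 0 := by
  ext1 e
  rfl

theorem D_cons_self (w : List (Fin m)) (l : Fin m) (e : E d) :
    D A (l :: w) l e = e + A l (D A w l e) := by
  change (Pi.single l e : Fin m → E d) l + A l (zw A w (Pi.single l e)) = _
  rw [Pi.single_eq_same]
  rfl

theorem D_cons_ne {k l : Fin m} (h : k ≠ l) (w : List (Fin m)) (e : E d) :
    D A (k :: w) l e = A k (D A w l e) := by
  change (Pi.single l e : Fin m → E d) k + A k (zw A w (Pi.single l e)) = _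
  rw [Pi.single_eq_of_ne h, zero_add]
  rfl

theorem norm_comp_le {a0 : ℝ} (hA : ∀ i, ‖A i‖ ≤ a0) (k : Fin m) (B : E d →L[ℝ] E d) :
    ‖(A k).comp B‖ ≤ a0 * ‖B‖ :=
  ((A k).opNorm_comp_le B).trans (mul_le_mul_of_nonneg_right (hA k) (norm_nonneg _))

theorem D_cons_self' (w : List (Fin m)) (l : Fin m) :
    D A (l :: w) l = ContinuousLinearMap.id ℝ (E d) + (A l).comp (D A w l) := by
  ext1 e
  exact D_cons_self w l e

theorem D_cons_ne' {k l : Fin m} (h : k ≠ l) (w : List (Fin m)) :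
    D A (k :: w) l = (A k).comp (D A w l) := by
  ext1 e
  exact D_cons_ne h w e

theorem D_sum {a0 : ℝ} (h0 : 0 ≤ a0) (h1 : a0 < 1) (hA : ∀ i, ‖A i‖ ≤ a0) {i j : Fin m}
    (hij : i ≠ j) (w : List (Fin m)) : ‖D A w i‖ + ‖D A w j‖ ≤ 1 / (1 - a0) := by
  have h1' : 0 < 1 - a0 := by linarith
  induction w with
  | nil =>
    rw [D_nil, D_nil, norm_zero, add_zero]
    positivity
  | cons k w ih =>
    have h2 : a0 * (‖D A w i‖ + ‖D A w j‖) ≤ a0 * (1 / (1 - a0)) :=
      mul_le_mul_of_nonneg_left ih h0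
    have h3 : 1 + a0 * (1 / (1 - a0)) = 1 / (1 - a0) := by
      field_simp
      ring
    have h4 : ∀ l, ‖D A (k :: w) l‖ ≤ 1 + a0 * ‖D A w l‖ := by
      intro l
      by_cases hkl : k = l
      · subst hkl
        rw [D_cons_self']
        exact (norm_add_le _ _).trans (add_le_add ContinuousLinearMap.norm_id_le
          (norm_comp_le hA _ _))
      · rw [D_cons_ne' hkl]
        have := norm_comp_le hA k (D A w l)
        linarith
    have h5 : ∀ l, k ≠ l → ‖D A (k :: w) l‖ ≤ a0 * ‖D A w l‖ := by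
      intro l hkl
      rw [D_cons_ne' hkl]
      exact norm_comp_le hA k (D A w l)
    by_cases hki : k = i
    · have h6 := h4 i
      have h7 := h5 j (fun h => hij (hki.symm.trans h))
      linarith
    · have h6 := h5 i hki
      have h7 := h4 j
      linarith

theorem solve {τ : ℝ} (hτ : τ < 1) (X : E d →L[ℝ] E d) (hX : ‖X‖ ≤ τ) (y : E d) :
    ∃ e : E d, ‖e‖ ≤ 1 / (1 - τ) * ‖y‖ ∧ e + X e = y := by
  have h1' : 0 < 1 - τ := by linarith
  have hlow : ∀ e : E d, (1 - τ) * ‖e‖ ≤ ‖e + X e‖ := by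
    intro e
    have h1 : ‖X e‖ ≤ τ * ‖e‖ := (X.le_opNorm e).trans (mul_le_mul_of_nonneg_right hX (norm_nonneg _))
    have h2 : ‖e‖ ≤ ‖e + X e‖ + ‖X e‖ := by
      calc ‖e‖ = ‖(e + X e) - X e‖ := by rw [add_sub_cancel_right]
        _ ≤ _ := norm_sub_le _ _
    linarith
  let G : E d →ₗ[ℝ] E d := LinearMap.id + X.toLinearMap
  have hG : ∀ e, G e = e + X e := fun e => rfl
  have hinj : Function.Injective G := by
    rw [← LinearMap.ker_eq_bot, LinearMap.ker_eq_bot']
    intro e he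
    have h3 := hlow e
    rw [← hG, he, norm_zero] at h3
    have h4 : ‖e‖ ≤ 0 := by
      by_contra hne
      push Not at hne
      have := mul_pos h1' hne
      linarith
    exact norm_le_zero_iff.1 h4
  obtain ⟨e, he⟩ := (LinearMap.injective_iff_surjective.1 hinj) y
  refine ⟨e, ?_, by rw [← hG, he]⟩
  have h3 := hlow e
  rw [← hG, he] at h3
  rw [one_div, ← div_eq_inv_mul, le_div_iff₀ h1']
  linarith

end Words

/-- transversality: the difference of two words with different heads is, as a function of one of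
the two corresponding translations, invertible with a bounded inverse -/
theorem trans {a0 : ℝ} (h0 : 0 ≤ a0) (h1 : a0 < 1 / 2) (hA : ∀ i, ‖A i‖ ≤ a0) {i j : Fin m}
    (hij : i ≠ j) (w w' : List (Fin m)) :
    ∃ l : Fin m, ∀ y : E d, ∃ e : E d, ‖e‖ ≤ (1 - a0) / (1 - 2 * a0) * ‖y‖ ∧
      zw A (i :: w) (Pi.single l e) - zw A (j :: w') (Pi.single l e) = y := by
  have hp1 : 0 < 1 - a0 := by linarith
  have hp2 : 0 < 1 - 2 * a0 := by linarith
  have hτ : a0 / (1 - a0) < 1 := by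
    rw [div_lt_one hp1]
    linarith
  have hconst : 1 / (1 - a0 / (1 - a0)) = (1 - a0) / (1 - 2 * a0) := by
    have h3 : 1 - a0 / (1 - a0) = (1 - 2 * a0) / (1 - a0) := by
      field_simp
      ring
    rw [h3, one_div_div]
  have hw := Words.D_sum h0 (by linarith) hA hij w
  have hw' := Words.D_sum h0 (by linarith) hA hij w'
  have hX : ‖(A i).comp (Words.D A w i) - (A j).comp (Words.D A w' i)‖ ≤
      a0 * ‖Words.D A w i‖ + a0 * ‖Words.D A w' i‖ :=
    (norm_sub_le _ _).trans (add_le_add (Words.norm_comp_le hA _ _) (Words.norm_comp_le hA _ _))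
  have hY : ‖(A j).comp (Words.D A w' j) - (A i).comp (Words.D A w j)‖ ≤
      a0 * ‖Words.D A w' j‖ + a0 * ‖Words.D A w j‖ :=
    (norm_sub_le _ _).trans (add_le_add (Words.norm_comp_le hA _ _) (Words.norm_comp_le hA _ _))
  have hsum : a0 * (‖Words.D A w i‖ + ‖Words.D A w j‖) +
      a0 * (‖Words.D A w' i‖ + ‖Words.D A w' j‖) ≤ 2 * (a0 / (1 - a0)) := by
    have h4 := mul_le_mul_of_nonneg_left hw h0
    have h5 := mul_le_mul_of_nonneg_left hw' h0
    have h6 : a0 * (1 / (1 - a0)) = a0 / (1 - a0) := by ring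
    linarith
  by_cases hc : ‖(A i).comp (Words.D A w i) - (A j).comp (Words.D A w' i)‖ ≤ a0 / (1 - a0)
  · refine ⟨i, fun y => ?_⟩
    obtain ⟨e, he, hey⟩ := Words.solve hτ _ hc y
    refine ⟨e, by rw [← hconst]; exact he, ?_⟩
    rw [← Words.D_apply, ← Words.D_apply, Words.D_cons_self, Words.D_cons_ne (Ne.symm hij), ← hey]
    change e + A i (Words.D A w i e) - A j (Words.D A w' i e) =
      e + (A i (Words.D A w i e) - A j (Words.D A w' i e))
    abel
  · have hc' : ‖(A j).comp (Words.D A w' j) - (A i).comp (Words.D A w j)‖ ≤ a0 / (1 - a0) := by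
      push Not at hc
      linarith
    refine ⟨j, fun y => ?_⟩
    obtain ⟨e, he, hey⟩ := Words.solve hτ _ hc' (-y)
    refine ⟨e, by rw [← hconst, ← norm_neg y]; exact he, ?_⟩
    rw [← Words.D_apply, ← Words.D_apply, Words.D_cons_self, Words.D_cons_ne hij,
      ← neg_eq_iff_eq_neg.2 hey]
    change A i (Words.D A w j e) - (e + A j (Words.D A w' j e)) =
      -(e + (A j (Words.D A w' j e) - A i (Words.D A w j e)))
    abel

end Pool.Agent.MP_b039ef_an.AS
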