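import Pool.Agent.Lib.MP_b039ef_an.AS.EBasic
import Pool.Agent.Lib.MP_b039ef_an.AS.Words

/-!
# MP_b039ef_an, project AS, part E: the size of the pieces
-/

set_option autoImplicit false

namespace Pool.Agent.MP_b039ef_an.AS

open scoped ENNReal NNReal
open MeasureTheory Set

variable {d m : ℕ} {A : Fin m → E d →L[ℝ] E d}

theorem inner_Aw {u : E d} {a : Fin m → ℝ} {θ : ℝ} (hE : Eig A u a θ) (w : List (Fin m))
    (x : E d) : inner ℝ u (Aw A w x) = aw a w * inner ℝ u x := by
  induction w with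
  | nil =>
    change inner ℝ u x = aw a [] * inner ℝ u x
    simp [aw]
  | cons i w ih =>
    change inner ℝ u (A i (Aw A w x)) = _
    have h1 : aw a (i :: w) = a i * aw a w := by simp [aw]
    rw [hE.inv, ih, h1, mul_assoc]

namespace EChain

theorem aw_cons (a : Fin m → ℝ) (i : Fin m) (w : List (Fin m)) :
    aw a (i :: w) = a i * aw a w := by simp [aw]

theorem aw_append (a : Fin m → ℝ) (v w : List (Fin m)) :
    aw a (v ++ w) = aw a v * aw a w := by simp [aw]

theorem aw_single (a : Fin m → ℝ) (i : Fin m) : aw a [i] = a i := by simp [aw]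

theorem zw_append_single (w : List (Fin m)) (i : Fin m) (t : Fin m → E d) :
    zw A (w ++ [i]) t = zw A w t + Aw A w (t i) := by
  induction w with
  | nil =>
    change t i + A i ((0 : (Fin m → E d) →L[ℝ] E d) t) = (0 : (Fin m → E d) →L[ℝ] E d) t + t i
    simp
  | cons j w ih =>
    change t j + A j (zw A (w ++ [i]) t) = (t j + A j (zw A w t)) + A j (Aw A w (t i))
    rw [ih, map_add, add_assoc]

theorem norm_ker {u : E d} {a : Fin m → ℝ} {θ : ℝ} (hE : Eig A u a θ) (w : List (Fin m))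
    (x : E d) (hx : inner ℝ u x = 0) : ‖Aw A w x‖ ≤ θ ^ w.length * |aw a w| * ‖x‖ := by
  induction w with
  | nil => simp [aw, Aw]
  | cons i w ih =>
    have h0 : inner ℝ u (Aw A w x) = 0 := by rw [inner_Aw hE, hx, mul_zero]
    change ‖A i (Aw A w x)‖ ≤ θ ^ (w.length + 1) * |aw a (i :: w)| * ‖x‖
    calc ‖A i (Aw A w x)‖ ≤ θ * |a i| * ‖Aw A w x‖ := hE.contr i _ h0
      _ ≤ θ * |a i| * (θ ^ w.length * |aw a w| * ‖x‖) :=
          mul_le_mul_of_nonneg_left ih (mul_nonneg hE.θ0.le (abs_nonneg _))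
      _ = θ ^ (w.length + 1) * |aw a (i :: w)| * ‖x‖ := by
          rw [aw_cons, abs_mul]
          ring

theorem abs_a_le {u : E d} {a : Fin m → ℝ} {θ : ℝ} (hE : Eig A u a θ) (i : Fin m) :
    |a i| ≤ 1 / 2 := by
  have hu : 0 < ‖u‖ := norm_pos_iff.2 hE.une
  have h1 := hE.inv i u
  rw [real_inner_self_eq_norm_sq] at h1
  have h2 : |inner ℝ u (A i u)| ≤ ‖u‖ * (1 / 2 * ‖u‖) := by
    refine (abs_real_inner_le_norm _ _).trans ?_
    apply mul_le_mul_of_nonneg_left _ (norm_nonneg _)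
    exact ((A i).le_opNorm _).trans (mul_le_mul_of_nonneg_right (hE.norm i).le (norm_nonneg _))
  rw [h1, abs_mul, abs_of_nonneg (sq_nonneg ‖u‖)] at h2
  have h3 : |a i| * ‖u‖ ^ 2 ≤ 1 / 2 * ‖u‖ ^ 2 := by
    calc |a i| * ‖u‖ ^ 2 ≤ ‖u‖ * (1 / 2 * ‖u‖) := h2
      _ = 1 / 2 * ‖u‖ ^ 2 := by ring
  exact le_of_mul_le_mul_right h3 (by positivity)

theorem abs_aw_le {u : E d} {a : Fin m → ℝ} {θ : ℝ} (hE : Eig A u a θ) (w : List (Fin m)) :
    |aw a w| ≤ (1 / 2) ^ w.length := by
  induction w with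
  | nil => simp [aw]
  | cons i w ih =>
    rw [aw_cons, abs_mul, List.length_cons, pow_succ']
    exact mul_le_mul (abs_a_le hE i) ih (abs_nonneg _) (by norm_num)

theorem exists_alpha (hm : 2 ≤ m) {u : E d} {a : Fin m → ℝ} {θ : ℝ} (hE : Eig A u a θ) :
    ∃ α : ℝ, 0 < α ∧ ∀ i, α ≤ |a i| := by
  have : Nonempty (Fin m) := ⟨⟨0, by omega⟩⟩
  obtain ⟨i, hi⟩ := Finite.exists_min (fun i => |a i|)
  exact ⟨|a i|, abs_pos.2 (hE.ane i), hi⟩

end EChain

open EChain in
/-- domination of products -/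
theorem exists_Aw_le (hm : 2 ≤ m) {u : E d} {a : Fin m → ℝ} {θ : ℝ} (hE : Eig A u a θ) :
    ∃ Q : ℝ, 1 ≤ Q ∧ ∀ (w : List (Fin m)) (x : E d), ‖Aw A w x‖ ≤ Q * |aw a w| * ‖x‖ := by
  obtain ⟨α, hα, hαa⟩ := exists_alpha hm hE
  have hθ : 0 < 1 - θ := by linarith [hE.θ1]
  have key : ∀ (w : List (Fin m)) (x : E d),
      ‖Aw A w x‖ ≤ (1 + 1 / α * ((1 - θ ^ w.length) / (1 - θ))) * |aw a w| * ‖x‖ := by
    intro w x
    induction w using List.reverseRecOn with
    | nil => simp [aw, Aw]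
    | append_singleton w i ih =>
      have h0 : Aw A (w ++ [i]) x = Aw A w (A i x) := by
        rw [Aw_append]
        rfl
      have hz0 : inner ℝ u (A i x - a i • x) = 0 := by
        rw [inner_sub_right, hE.inv, inner_smul_right, sub_self]
      have h1 : A i x = a i • x + (A i x - a i • x) := by abel
      have hz : ‖A i x - a i • x‖ ≤ ‖x‖ := by
        have h2 : ‖A i x‖ ≤ 1 / 2 * ‖x‖ :=
          ((A i).le_opNorm _).trans (mul_le_mul_of_nonneg_right (hE.norm i).le (norm_nonneg _))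
        have h3 : ‖a i • x‖ ≤ 1 / 2 * ‖x‖ := by
          rw [norm_smul, Real.norm_eq_abs]
          exact mul_le_mul_of_nonneg_right (abs_a_le hE i) (norm_nonneg _)
        have h4 := norm_sub_le (A i x) (a i • x)
        linarith
      have h5 := norm_ker hE w _ hz0
      have h6 : ‖Aw A (w ++ [i]) x‖ ≤ |a i| * ‖Aw A w x‖ + ‖Aw A w (A i x - a i • x)‖ := by
        rw [h0]
        nth_rewrite 1 [h1]
        rw [map_add, map_smul]
        refine (norm_add_le _ _).trans ?_
        rw [norm_smul, Real.norm_eq_abs]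
      have hai : 0 < |a i| := abs_pos.2 (hE.ane i)
      have hθn : 0 ≤ θ ^ w.length * |aw a w| :=
        mul_nonneg (pow_nonneg hE.θ0.le _) (abs_nonneg _)
      have h7 : ‖Aw A w (A i x - a i • x)‖ ≤ 1 / α * |a i| * (θ ^ w.length * |aw a w| * ‖x‖) := by
        have h8 : 1 ≤ 1 / α * |a i| := by
          rw [one_div, ← div_eq_inv_mul, le_div_iff₀ hα, one_mul]
          exact hαa i
        calc ‖Aw A w (A i x - a i • x)‖ ≤ θ ^ w.length * |aw a w| * ‖A i x - a i • x‖ := h5
          _ ≤ θ ^ w.length * |aw a w| * ‖x‖ := mul_le_mul_of_nonneg_left hz hθn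
          _ ≤ 1 / α * |a i| * (θ ^ w.length * |aw a w| * ‖x‖) :=
              le_mul_of_one_le_left (mul_nonneg hθn (norm_nonneg _)) h8
      have h9 : |a i| * ‖Aw A w x‖ ≤
          |a i| * ((1 + 1 / α * ((1 - θ ^ w.length) / (1 - θ))) * |aw a w| * ‖x‖) :=
        mul_le_mul_of_nonneg_left ih hai.le
      have hlen : (w ++ [i]).length = w.length + 1 := by simp
      have hgeo : (1 - θ ^ w.length) / (1 - θ) + θ ^ w.length =
          (1 - θ ^ (w.length + 1)) / (1 - θ) := by
        field_simp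
        ring
      rw [hlen, aw_append, aw_single, abs_mul, ← hgeo]
      calc ‖Aw A (w ++ [i]) x‖ ≤ _ := h6
        _ ≤ _ := add_le_add h9 h7
        _ = _ := by ring
  refine ⟨1 + 1 / α * (1 / (1 - θ)), ?_, fun w x => ?_⟩
  · have : 0 < 1 / α * (1 / (1 - θ)) := by positivity
    linarith
  · refine (key w x).trans ?_
    apply mul_le_mul_of_nonneg_right _ (norm_nonneg _)
    apply mul_le_mul_of_nonneg_right _ (abs_nonneg _)
    have h1 : (1 - θ ^ w.length) / (1 - θ) ≤ 1 / (1 - θ) := by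
      apply div_le_div_of_nonneg_right _ hθ.le
      have := pow_nonneg hE.θ0.le w.length
      linarith
    have h2 : 1 / α * ((1 - θ ^ w.length) / (1 - θ)) ≤ 1 / α * (1 / (1 - θ)) :=
      mul_le_mul_of_nonneg_left h1 (by positivity)
    linarith

open EChain in
/-- every point of `K` lies in a piece of size comparable to `R` -/
theorem exists_piece (hm : 2 ≤ m) {u : E d} {a : Fin m → ℝ} {θ : ℝ} (hE : Eig A u a θ)
    {t : Fin m → E d} {K : Set (E d)} (hK : IsSelfAffineSet A t K) (Q D : ℝ) (hQ : 0 < Q)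
    (hD : 0 < D) :
    ∃ κ : ℝ, 0 < κ ∧ ∀ x ∈ K, ∀ R : ℝ, 0 < R → R ≤ D →
      ∃ (w : List (Fin m)) (y : E d), y ∈ K ∧ x = zw A w t + Aw A w y ∧
        Q * |aw a w| * D ≤ R ∧ κ * R ≤ |aw a w| := by
  obtain ⟨α, hα, hαa⟩ := exists_alpha hm hE
  refine ⟨min (1 / D) (α / (Q * D)), lt_min (by positivity) (by positivity), ?_⟩
  intro x hx R hR hRD
  by_contra hno
  have hall : ∀ n : ℕ, ∃ (w : List (Fin m)) (y : E d), w.length = n ∧ y ∈ K ∧
      x = zw A w t + Aw A w y ∧ R < Q * |aw a w| * D := by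
    intro n
    induction n with
    | zero =>
      have hxx : x = zw A [] t + Aw A [] x := by
        change x = (0 : E d) + x
        rw [zero_add]
      refine ⟨[], x, rfl, hx, hxx, ?_⟩
      by_contra hlt
      push Not at hlt
      apply hno
      refine ⟨[], x, hx, hxx, hlt, ?_⟩
      have h1 : |aw a []| = 1 := by simp [aw]
      rw [h1]
      calc min (1 / D) (α / (Q * D)) * R ≤ 1 / D * D :=
            mul_le_mul (min_le_left _ _) hRD hR.le (by positivity)
        _ = 1 := by field_simp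
    | succ n ih =>
      obtain ⟨w, y, hwn, hy, hxy, hlt⟩ := ih
      have hy' := hy
      rw [hK.2.2] at hy'
      obtain ⟨i, y', hy'K, hyy'⟩ := Set.mem_iUnion.1 hy'
      have hyy : A i y' + t i = y := hyy'
      have hxx : x = zw A (w ++ [i]) t + Aw A (w ++ [i]) y' := by
        rw [zw_append_single, Aw_append, hxy, ← hyy, map_add]
        change zw A w t + (Aw A w (A i y') + Aw A w (t i)) =
          zw A w t + Aw A w (t i) + Aw A w (A i y')
        abel
      refine ⟨w ++ [i], y', by simp [hwn], hy'K, hxx, ?_⟩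
      by_contra hlt'
      push Not at hlt'
      apply hno
      refine ⟨w ++ [i], y', hy'K, hxx, hlt', ?_⟩
      rw [aw_append, aw_single, abs_mul]
      have hQD : 0 < Q * D := mul_pos hQ hD
      have h1 : R / (Q * D) ≤ |aw a w| := by
        rw [div_le_iff₀ hQD]
        calc R ≤ Q * |aw a w| * D := hlt.le
          _ = |aw a w| * (Q * D) := by ring
      calc min (1 / D) (α / (Q * D)) * R ≤ α / (Q * D) * R :=
            mul_le_mul_of_nonneg_right (min_le_right _ _) hR.le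
        _ = R / (Q * D) * α := by ring
        _ ≤ |aw a w| * |a i| := mul_le_mul h1 (hαa i) hα.le (abs_nonneg _)
  have hQD : 0 < Q * D := mul_pos hQ hD
  obtain ⟨n, hn⟩ := exists_pow_lt_of_lt_one (div_pos hR hQD) (by norm_num : (1 / 2 : ℝ) < 1)
  obtain ⟨w, y, hwn, -, -, hlt⟩ := hall n
  have h1 := abs_aw_le hE w
  rw [hwn] at h1
  have h2 : |aw a w| < R / (Q * D) := lt_of_le_of_lt h1 hn
  rw [lt_div_iff₀ hQD] at h2
  have h3 : Q * |aw a w| * D = |aw a w| * (Q * D) := by ring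
  rw [h3] at hlt
  exact lt_asymm hlt h2

end Pool.Agent.MP_b039ef_an.AS
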