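import Mathlib

/-!
# MP_b039ef_an, project AS: measure of a set by its slices
-/

set_option autoImplicit false

namespace Pool.Agent.MP_b039ef_an.AS

open scoped ENNReal NNReal
open MeasureTheory Set

/-- Let `φ` map a probability space `P` into `W`. If every `{p | x + φ p ∈ S}` has measure at most
`c` and is empty for `x ∉ K`, then `μ S ≤ μ K * c`. -/
theorem slice_le {W P : Type} [AddCommGroup W] [MeasurableSpace W] [MeasurableAdd₂ W]
    [MeasurableSpace P] (μ : Measure W) [SFinite μ] [μ.IsAddLeftInvariant] (ν : Measure P)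
    [IsProbabilityMeasure ν] (φ : P → W) (hφ : Measurable φ) {S K : Set W}
    (hS : MeasurableSet S) (hK : MeasurableSet K) (c : ℝ≥0∞)
    (h1 : ∀ x ∉ K, ∀ p, x + φ p ∉ S) (h2 : ∀ x, ν {p | x + φ p ∈ S} ≤ c) :
    μ S ≤ μ K * c := by
  have hA : MeasurableSet {q : P × W | q.2 + φ q.1 ∈ S} :=
    (measurable_snd.add (hφ.comp measurable_fst)) hS
  have hinv : ∀ p, μ (Prod.mk p ⁻¹' {q : P × W | q.2 + φ q.1 ∈ S}) = μ S := fun p =>
    measure_preimage_add_right μ (φ p) S
  have e1 : (ν.prod μ) {q : P × W | q.2 + φ q.1 ∈ S} = μ S := by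
    rw [Measure.prod_apply hA]
    simp only [hinv]
    simp
  have e2 : (ν.prod μ) {q : P × W | q.2 + φ q.1 ∈ S}
      = ∫⁻ x, ν ((fun p => (p, x)) ⁻¹' {q : P × W | q.2 + φ q.1 ∈ S}) ∂μ :=
    Measure.prod_apply_symm hA
  calc μ S = ∫⁻ x, ν ((fun p => (p, x)) ⁻¹' {q : P × W | q.2 + φ q.1 ∈ S}) ∂μ := by
        rw [← e2, e1]
    _ ≤ ∫⁻ x, K.indicator (fun _ => c) x ∂μ := by
        refine lintegral_mono fun x => ?_
        by_cases hx : x ∈ K
        · rw [indicator_of_mem hx]
          exact h2 x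
        · rw [indicator_of_notMem hx]
          have : ((fun p => (p, x)) ⁻¹' {q : P × W | q.2 + φ q.1 ∈ S}) = ∅ := by
            ext p
            simp only [mem_preimage, mem_ofPred_eq, mem_empty_iff_false, iff_false]
            exact h1 x hx p
          rw [this]
          simp
    _ = μ K * c := by
        rw [lintegral_indicator hK, setLIntegral_const, mul_comm]

/-- the uniform measure on the unit interval -/
private noncomputable def uni : Measure ℝ := volume.restrict (Icc (0 : ℝ) 1)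

private instance : IsProbabilityMeasure uni := ⟨by simp [uni]⟩

/-- the retraction to the unit interval -/
private noncomputable def cl (s : ℝ) : ℝ := max 0 (min 1 s)

private theorem cl_meas : Measurable cl :=
  (continuous_const.max (continuous_const.min continuous_id)).measurable

private theorem cl_of_mem {s : ℝ} (hs : s ∈ Icc (0 : ℝ) 1) : cl s = s := by
  unfold cl
  rw [min_eq_right hs.2, max_eq_right hs.1]

private theorem cl_nonneg (s : ℝ) : 0 ≤ cl s := le_max_left _ _

private theorem cl_le (s : ℝ) : cl s ≤ 1 := max_le zero_le_one (min_le_left _ _)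

private theorem cl_norm {W : Type} [NormedAddCommGroup W] [NormedSpace ℝ W] (s : ℝ) (e : W) (C : ℝ)
    (he : ‖e‖ ≤ C) : ‖cl s • e‖ ≤ C := by
  rw [norm_smul, Real.norm_eq_abs, abs_of_nonneg (cl_nonneg s)]
  calc cl s * ‖e‖ ≤ 1 * ‖e‖ := mul_le_mul_of_nonneg_right (cl_le s) (norm_nonneg _)
    _ ≤ C := by rw [one_mul]; exact he

private theorem uni_le {A : Set ℝ} {y ℓ : ℝ} (h : A ∩ Icc (0 : ℝ) 1 ⊆ Icc y (y + ℓ)) :
    uni A ≤ ENNReal.ofReal ℓ := by
  have h1 : uni A ≤ volume (A ∩ Icc (0 : ℝ) 1) := by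
    rw [uni, Measure.restrict_apply' measurableSet_Icc]
  refine h1.trans ((measure_mono h).trans ?_)
  rw [Real.volume_Icc]
  simp

/-- slices in one direction -/
theorem slice1 {W : Type} [NormedAddCommGroup W] [NormedSpace ℝ W] [FiniteDimensional ℝ W]
    [MeasurableSpace W] [BorelSpace W] (μ : Measure W) [μ.IsAddHaarMeasure] {S : Set W}
    (hS : MeasurableSet S) (e : W) (T C : ℝ) (he : ‖e‖ ≤ C) (hST : S ⊆ Metric.closedBall 0 T)
    (ℓ : ℝ) (h : ∀ x, ∃ y, {s : ℝ | x + s • e ∈ S} ⊆ Icc y (y + ℓ)) :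
    μ S ≤ μ (Metric.closedBall 0 (T + C)) * ENNReal.ofReal ℓ := by
  refine slice_le μ uni (fun s => cl s • e) (cl_meas.smul_const e) hS
    Metric.isClosed_closedBall.measurableSet _ ?_ ?_
  · intro x hx s hs
    apply hx
    have h1 := hST hs
    rw [mem_closedBall_zero_iff] at h1 ⊢
    have h2 := cl_norm s e C he
    calc ‖x‖ = ‖(x + cl s • e) - cl s • e‖ := by rw [add_sub_cancel_right]
      _ ≤ ‖x + cl s • e‖ + ‖cl s • e‖ := norm_sub_le _ _
      _ ≤ T + C := add_le_add h1 h2
  · intro x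
    obtain ⟨y, hy⟩ := h x
    refine uni_le (y := y) ?_
    rintro s ⟨hs, hs1⟩
    apply hy
    simpa [cl_of_mem hs1] using hs

/-- slices in two directions -/
theorem slice2 {W : Type} [NormedAddCommGroup W] [NormedSpace ℝ W] [FiniteDimensional ℝ W]
    [MeasurableSpace W] [BorelSpace W] (μ : Measure W) [μ.IsAddHaarMeasure] {S : Set W}
    (hS : MeasurableSet S) (e f : W) (T C : ℝ) (he : ‖e‖ ≤ C) (hf : ‖f‖ ≤ C)
    (hST : S ⊆ Metric.closedBall 0 T) (ℓ ℓ' : ℝ) (hℓ' : 0 ≤ ℓ')
    (h1 : ∀ x, ∃ y, ∀ s r : ℝ, x + s • e + r • f ∈ S → s ∈ Icc y (y + ℓ))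
    (h2 : ∀ x, ∃ y, {r : ℝ | x + r • f ∈ S} ⊆ Icc y (y + ℓ')) :
    μ S ≤ μ (Metric.closedBall 0 (T + 2 * C)) * (ENNReal.ofReal ℓ * ENNReal.ofReal (min 1 ℓ')) := by
  have hφ : Measurable (fun p : ℝ × ℝ => cl p.1 • e + cl p.2 • f) :=
    ((cl_meas.comp measurable_fst).smul_const e).add ((cl_meas.comp measurable_snd).smul_const f)
  refine slice_le μ (uni.prod uni) (fun p => cl p.1 • e + cl p.2 • f) hφ hS
    Metric.isClosed_closedBall.measurableSet _ ?_ ?_
  · intro x hx s hs
    apply hx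
    have h1 := hST hs
    rw [mem_closedBall_zero_iff] at h1 ⊢
    have h2 := cl_norm s.1 e C he
    have h3 := cl_norm s.2 f C hf
    calc ‖x‖ = ‖(x + (cl s.1 • e + cl s.2 • f)) - (cl s.1 • e + cl s.2 • f)‖ := by
          rw [add_sub_cancel_right]
      _ ≤ ‖x + (cl s.1 • e + cl s.2 • f)‖ + ‖cl s.1 • e + cl s.2 • f‖ := norm_sub_le _ _
      _ ≤ T + (C + C) := add_le_add h1 ((norm_add_le _ _).trans (add_le_add h2 h3))
      _ = T + 2 * C := by ring
  · intro x
    obtain ⟨y, hy⟩ := h1 x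
    have hA : MeasurableSet {p : ℝ × ℝ | x + (cl p.1 • e + cl p.2 • f) ∈ S} :=
      (measurable_const.add hφ) hS
    rw [Measure.prod_apply hA]
    have key : ∀ s ∈ Icc (0 : ℝ) 1,
        uni (Prod.mk s ⁻¹' {p : ℝ × ℝ | x + (cl p.1 • e + cl p.2 • f) ∈ S})
          ≤ (Icc y (y + ℓ)).indicator (fun _ => ENNReal.ofReal (min 1 ℓ')) s := by
      intro s hs
      by_cases hsy : s ∈ Icc y (y + ℓ)
      · rw [indicator_of_mem hsy]
        rcases le_total 1 ℓ' with hl | hl
        · rw [min_eq_left hl, ENNReal.ofReal_one]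
          exact prob_le_one
        · rw [min_eq_right hl]
          obtain ⟨z, hz⟩ := h2 (x + s • e)
          refine uni_le (y := z) ?_
          rintro r ⟨hr, hr1⟩
          apply hz
          have hr' : x + (cl s • e + cl r • f) ∈ S := hr
          rw [cl_of_mem hs, cl_of_mem hr1, ← add_assoc] at hr'
          exact hr'
      · rw [indicator_of_notMem hsy]
        have : uni (Prod.mk s ⁻¹' {p : ℝ × ℝ | x + (cl p.1 • e + cl p.2 • f) ∈ S})
            ≤ ENNReal.ofReal (-1) := by
          refine uni_le (y := 0) ?_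
          rintro r ⟨hr, hr1⟩
          exfalso
          apply hsy
          have hr' : x + (cl s • e + cl r • f) ∈ S := hr
          rw [cl_of_mem hs, cl_of_mem hr1, ← add_assoc] at hr'
          exact hy s r hr'
        refine this.trans ?_
        rw [ENNReal.ofReal_of_nonpos (by norm_num)]
    calc ∫⁻ s, uni (Prod.mk s ⁻¹' {p : ℝ × ℝ | x + (cl p.1 • e + cl p.2 • f) ∈ S}) ∂uni
        ≤ ∫⁻ s, (Icc y (y + ℓ)).indicator (fun _ => ENNReal.ofReal (min 1 ℓ')) s ∂uni := by
          rw [uni]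
          exact setLIntegral_mono' measurableSet_Icc key
      _ ≤ ∫⁻ s, (Icc y (y + ℓ)).indicator (fun _ => ENNReal.ofReal (min 1 ℓ')) s := by
          rw [uni]
          exact setLIntegral_le_lintegral _ _
      _ = ENNReal.ofReal (min 1 ℓ') * volume (Icc y (y + ℓ)) := by
          rw [lintegral_indicator measurableSet_Icc, setLIntegral_const]
      _ = ENNReal.ofReal ℓ * ENNReal.ofReal (min 1 ℓ') := by
          rw [Real.volume_Icc, mul_comm]
          simp

end Pool.Agent.MP_b039ef_an.AS
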