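import Pool.Agent.Lib.MP_b039ef_an.AS.EBasic
import Pool.Agent.Lib.MP_b039ef_an.AS.Words
import Pool.Agent.Lib.MP_b039ef_an.AS.Slice
import Pool.Agent.Lib.MP_b039ef_an.AS.Avg

/-!
# MP_b039ef_an, project AS, part E: the mean number of pairs with close projections
-/

set_option autoImplicit false

namespace Pool.Agent.MP_b039ef_an.AS

open scoped ENNReal NNReal
open MeasureTheory Set

variable {d m : ℕ} {A : Fin m → E d →L[ℝ] E d}

namespace EEnergy

private theorem icc_aux {p q s R M : ℝ} (hq : q ≠ 0) (h : |p + s * q| ≤ R) (hM : R / |q| ≤ M) :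
    s ∈ Icc (-(p / q) - M) (-(p / q) - M + 2 * M) := by
  have h1 : |s + p / q| ≤ M := by
    refine le_trans ?_ hM
    have h2 : s + p / q = (p + s * q) / q := by field_simp; ring
    rw [h2, abs_div]
    exact div_le_div_of_nonneg_right h (abs_nonneg q)
  rw [abs_le] at h1
  constructor <;> linarith [h1.1, h1.2]

private theorem aw_snoc (a : Fin m → ℝ) (v : List (Fin m)) (i : Fin m) :
    aw a (v ++ [i]) = aw a v * a i := by
  simp [aw]

private theorem geom_le {q : ℝ≥0∞} (n : ℕ) : ∑ k ∈ Finset.range n, q ^ k ≤ (1 - q)⁻¹ := by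
  rw [← ENNReal.tsum_geometric]
  exact ENNReal.sum_le_tsum _

private theorem inner_Aw {u : E d} {a : Fin m → ℝ} {θ : ℝ} (hE : Eig A u a θ)
    (v : List (Fin m)) (x : E d) : inner ℝ u (Aw A v x) = aw a v * inner ℝ u x := by
  induction v with
  | nil =>
    change inner ℝ u x = aw a [] * inner ℝ u x
    simp [aw]
  | cons i v ih =>
    have h1 : aw a (i :: v) = a i * aw a v := by simp [aw]
    change inner ℝ u (A i (Aw A v x)) = _
    rw [hE.inv, ih, h1, mul_assoc]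

private theorem abs_aw (a : Fin m → ℝ) (v : List (Fin m)) :
    |aw a v| = aw (fun i => |a i|) v := by
  induction v with
  | nil => simp [aw]
  | cons i v ih =>
    have h1 : aw a (i :: v) = a i * aw a v := by simp [aw]
    have h2 : aw (fun i => |a i|) (i :: v) = |a i| * aw (fun i => |a i|) v := by simp [aw]
    rw [h1, h2, abs_mul, ih]

private theorem key {u : E d} {a : Fin m → ℝ} {θ : ℝ} (hE : Eig A u a θ) (T : ℝ) :
    ∃ C : ℝ≥0∞, C ≠ ⊤ ∧ ∀ (v w w' : List (Fin m)) (i j : Fin m), i ≠ j →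
      ∀ ρ : ℝ, 0 < ρ →
      volume {t : Fin m → E d | ‖t‖ ≤ T ∧
        |inner ℝ u (Aw A v (zw A (i :: w) t - zw A (j :: w') t))| ≤ ρ} ≤
        C * ENNReal.ofReal (ρ / aw (fun i => |a i|) v) := by
  classical
  obtain ⟨a0, h0, h1, hA⟩ : ∃ a0 : ℝ, 0 ≤ a0 ∧ a0 < 1 / 2 ∧ ∀ i, ‖A i‖ ≤ a0 := by
    refine ⟨((Finset.univ.sup fun i => ‖A i‖₊ : ℝ≥0) : ℝ), NNReal.coe_nonneg _, ?_, ?_⟩
    · have h2 : (Finset.univ.sup fun i => ‖A i‖₊ : ℝ≥0) < (1 / 2 : ℝ≥0) := by
        rw [Finset.sup_lt_iff (by simp)]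
        intro i _
        have := hE.norm i
        rw [← NNReal.coe_lt_coe]
        simpa using this
      have h3 := NNReal.coe_lt_coe.2 h2
      simpa using h3
    · intro i
      have h2 : ‖A i‖₊ ≤ (Finset.univ.sup fun i => ‖A i‖₊ : ℝ≥0) :=
        Finset.le_sup (f := fun i => ‖A i‖₊) (Finset.mem_univ i)
      exact_mod_cast h2
  have hu0 : 0 < ‖u‖ := norm_pos_iff.2 hE.une
  set k0 : ℝ := (1 - a0) / (1 - 2 * a0) with hk0
  refine ⟨volume (Metric.closedBall (0 : Fin m → E d) (T + k0)) * ENNReal.ofReal (2 / ‖u‖),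
    ENNReal.mul_ne_top measure_closedBall_lt_top.ne ENNReal.ofReal_ne_top, ?_⟩
  intro v w w' i j hij ρ hρ
  have haw : 0 < aw (fun i => |a i|) v := aw_pos (fun i => abs_pos.2 (hE.ane i)) v
  obtain ⟨l, hl⟩ := trans h0 h1 hA hij w w'
  obtain ⟨e, he, hee⟩ := hl (‖u‖⁻¹ • u)
  have hye : ‖(‖u‖⁻¹ • u)‖ = 1 := by
    rw [norm_smul, norm_inv, norm_norm, inv_mul_cancel₀ hu0.ne']
  rw [hye, mul_one] at he
  set X : (Fin m → E d) →L[ℝ] E d := (Aw A v).comp (zw A (i :: w) - zw A (j :: w')) with hX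
  have hXt : ∀ t, X t = Aw A v (zw A (i :: w) t - zw A (j :: w') t) := fun t => by
    simp [hX]
  have hXe : X (Pi.single l e) = Aw A v (‖u‖⁻¹ • u) := by rw [hXt, hee]
  have hSet : {t : Fin m → E d | ‖t‖ ≤ T ∧
      |inner ℝ u (Aw A v (zw A (i :: w) t - zw A (j :: w') t))| ≤ ρ} =
      {t | ‖t‖ ≤ T ∧ |inner ℝ u (X t)| ≤ ρ} := by
    ext t
    simp only [Set.mem_ofPred_eq, hXt]
  rw [hSet]
  have hcont : Continuous fun t : Fin m → E d => |(inner ℝ u (X t) : ℝ)| :=
    (continuous_const.inner X.continuous).abs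
  have hmeas : MeasurableSet {t : Fin m → E d | ‖t‖ ≤ T ∧ |inner ℝ u (X t)| ≤ ρ} := by
    apply IsClosed.measurableSet
    exact (isClosed_le continuous_norm continuous_const).inter
      (isClosed_le hcont continuous_const)
  have habs : |aw a v * ‖u‖| = aw (fun i => |a i|) v * ‖u‖ := by
    rw [abs_mul, abs_aw, abs_of_pos hu0]
  have key1 := slice1 (volume : Measure (Fin m → E d)) hmeas (Pi.single l e) T k0
    (by rw [Pi.norm_single]; exact he)
    (fun t ht => by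
      rw [Metric.mem_closedBall, dist_zero_right]
      exact ht.1)
    (2 * (ρ / (aw (fun i => |a i|) v * ‖u‖)))
    (by
      intro x
      refine ⟨-(inner ℝ u (X x) / (aw a v * ‖u‖)) - ρ / (aw (fun i => |a i|) v * ‖u‖), ?_⟩
      intro s hs
      have h2 := hs.2
      rw [map_add, map_smul, hXe, inner_add_right, inner_smul_right, inner_Aw hE,
        inner_smul_right, real_inner_self_eq_norm_sq] at h2
      have h3 : s * (aw a v * (‖u‖⁻¹ * ‖u‖ ^ 2)) = s * (aw a v * ‖u‖) := by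
        field_simp
      rw [h3] at h2
      refine icc_aux ?_ h2 ?_
      · intro h4
        rw [h4, abs_zero] at habs
        have := mul_pos haw hu0
        linarith
      · rw [habs])
  refine key1.trans (le_of_eq ?_)
  rw [mul_assoc, ← ENNReal.ofReal_mul (by positivity)]
  congr 2
  field_simp

private theorem bound_min {C1 M X : ℝ≥0∞} {z σ : ℝ} (hz : 0 < z) (hσ0 : 0 < σ) (hσ1 : σ ≤ 1)
    (h1 : X ≤ C1 * ENNReal.ofReal z) (h2 : X ≤ M) :
    X ≤ (C1 + M) * ENNReal.ofReal (z ^ σ) := by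
  rcases le_total z 1 with h | h
  · have h3 : z ≤ z ^ σ := by
      have := Real.rpow_le_rpow_of_exponent_ge hz h hσ1
      rwa [Real.rpow_one] at this
    calc X ≤ C1 * ENNReal.ofReal z := h1
      _ ≤ (C1 + M) * ENNReal.ofReal (z ^ σ) := by
        gcongr
        exact le_self_add
  · have h3 : 1 ≤ z ^ σ := Real.one_le_rpow h hσ0.le
    have h4 : (1 : ℝ≥0∞) ≤ ENNReal.ofReal (z ^ σ) := by
      rw [← ENNReal.ofReal_one]
      exact ENNReal.ofReal_le_ofReal h3
    calc X ≤ M * 1 := by rw [mul_one]; exact h2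
      _ ≤ (C1 + M) * ENNReal.ofReal (z ^ σ) := by
        gcongr
        exact le_add_self

private theorem abs_lt {u : E d} {a : Fin m → ℝ} {θ : ℝ} (hE : Eig A u a θ) (i : Fin m) :
    |a i| < 1 := by
  have hu0 : 0 < ‖u‖ := norm_pos_iff.2 hE.une
  have h1 := hE.inv i u
  have h2 := abs_real_inner_le_norm u (A i u)
  rw [h1, real_inner_self_eq_norm_sq, abs_mul, abs_of_pos (pow_pos hu0 2)] at h2
  have h3 : ‖u‖ * ‖A i u‖ ≤ ‖u‖ * (‖A i‖ * ‖u‖) :=
    mul_le_mul_of_nonneg_left ((A i).le_opNorm u) hu0.le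
  have h4 : |a i| * ‖u‖ ^ 2 ≤ ‖A i‖ * ‖u‖ ^ 2 := by
    refine (h2.trans h3).trans (le_of_eq ?_)
    ring
  have h5 := le_of_mul_le_mul_right h4 (pow_pos hu0 2)
  have h6 := hE.norm i
  linarith

end EEnergy

theorem energyU (hm : 2 ≤ m) {u : E d} {a : Fin m → ℝ} {θ : ℝ} (hE : Eig A u a θ) {s : ℝ}
    (hs : 0 < s) (hsum : ∑ i, |a i| ^ s = 1) {σ : ℝ} (hσ0 : 0 < σ) (hσ1 : σ ≤ 1) (hσs : σ < s)
    (T : ℝ) :
    ∃ C π : ℝ≥0∞, C ≠ ⊤ ∧ π < 1 ∧ ∀ (n : ℕ) (ρ : ℝ), 0 < ρ → ρ ≤ 1 →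
      ∫⁻ t in Metric.closedBall (0 : Fin m → E d) T,
        SU A u (fun i => ENNReal.ofReal (|a i| ^ s)) n ρ t ≤
          C * (ENNReal.ofReal (ρ ^ σ) + π ^ n) := by
  classical
  obtain ⟨C0, hC0, hkey⟩ := EEnergy.key hE T
  set p : Fin m → ℝ≥0∞ := fun i => ENNReal.ofReal (|a i| ^ s) with hp
  have hab : ∀ i, 0 < |a i| := fun i => abs_pos.2 (hE.ane i)
  have hai : ∀ i, 0 < |a i| ^ s := fun i => Real.rpow_pos_of_pos (hab i) s
  have hp1 : ∑ i, p i = 1 := by
    rw [hp, ← ENNReal.ofReal_sum_of_nonneg fun i _ => (hai i).le, hsum, ENNReal.ofReal_one]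
  have hpt : ∀ i, p i ≠ ⊤ := fun i => ENNReal.ofReal_ne_top
  -- the sum of the squares
  have hlt1 : ∀ i, |a i| ^ s < 1 := fun i =>
    Real.rpow_lt_one (hab i).le (EEnergy.abs_lt hE i) hs
  have hne : (Finset.univ : Finset (Fin m)).Nonempty := ⟨⟨0, by omega⟩, Finset.mem_univ _⟩
  have hsqR : ∑ i, (|a i| ^ s) ^ 2 < 1 := by
    rw [← hsum]
    refine Finset.sum_lt_sum_of_nonempty hne fun i _ => ?_
    have h1 := hai i
    have h2 := hlt1 i
    nlinarith
  have hsqE : ∑ i, p i ^ 2 = ENNReal.ofReal (∑ i, (|a i| ^ s) ^ 2) := by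
    rw [ENNReal.ofReal_sum_of_nonneg fun i _ => sq_nonneg _]
    refine Finset.sum_congr rfl fun i _ => ?_
    rw [hp, ENNReal.ofReal_pow (hai i).le]
  have hπ : ∑ i, p i ^ 2 < 1 := by
    rw [hsqE, ← ENNReal.ofReal_one]
    exact (ENNReal.ofReal_lt_ofReal_iff one_pos).2 hsqR
  set q : ℝ≥0∞ := ENNReal.ofReal (∑ i, |a i| ^ (2 * s - σ)) with hq
  have hq1 : q < 1 := by
    rw [hq, ← ENNReal.ofReal_one]
    refine (ENNReal.ofReal_lt_ofReal_iff one_pos).2 ?_
    rw [← hsum]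
    refine Finset.sum_lt_sum_of_nonempty hne fun i _ => ?_
    exact Real.rpow_lt_rpow_of_exponent_gt (hab i) (EEnergy.abs_lt hE i) (by linarith)
  set M : ℝ≥0∞ := volume (Metric.closedBall (0 : Fin m → E d) T) with hM
  have hMt : M ≠ ⊤ := measure_closedBall_lt_top.ne
  have hinv : (1 - q)⁻¹ ≠ ⊤ := by
    rw [ENNReal.inv_ne_top]
    exact (tsub_pos_of_lt hq1).ne'
  have hCM : C0 + M ≠ ⊤ := ENNReal.add_ne_top.2 ⟨hC0, hMt⟩
  refine ⟨(C0 + M) * (1 - q)⁻¹ + M, ∑ i, p i ^ 2,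
    ENNReal.add_ne_top.2 ⟨ENNReal.mul_ne_top hCM hinv, hMt⟩, hπ, ?_⟩
  intro n ρ hρ hρ1
  -- the general bound
  let ψ : List (Fin m) → List (Fin m) → List (Fin m) → ℝ≥0∞ := fun v w w' =>
    volume {t : Fin m → E d | ‖t‖ ≤ T ∧ |inner ℝ u (Aw A v (zw A w t - zw A w' t))| ≤ ρ}
  let Y : List (Fin m) → ℝ≥0∞ := fun v =>
    (C0 + M) * ENNReal.ofReal ((ρ / aw (fun i => |a i|) v) ^ σ)
  have hψM : ∀ v w w', ψ v w w' ≤ M := by
    intro v w w'
    refine measure_mono fun t ht => ?_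
    rw [mem_closedBall_zero_iff]
    exact ht.1
  have h1 : ∀ v w w' i j, i ≠ j → ψ v (i :: w) (j :: w') ≤ Y v := by
    intro v w w' i j hij
    have hav : 0 < aw (fun i => |a i|) v := aw_pos hab v
    exact EEnergy.bound_min (div_pos hρ hav) hσ0 hσ1 (hkey v w w' i j hij ρ hρ)
      (hψM v _ _)
  have h2 : ∀ v w w' i, ψ v (i :: w) (i :: w') ≤ ψ (v ++ [i]) w w' := by
    intro v w w' i
    refine measure_mono fun t ht => ⟨ht.1, ?_⟩
    have h3 : zw A (i :: w) t - zw A (i :: w') t = A i (zw A w t - zw A w' t) := by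
      have e1 : ∀ w, zw A (i :: w) t = t i + A i (zw A w t) := fun w => rfl
      rw [e1, e1, map_sub]
      abel
    have h4 := ht.2
    rw [h3] at h4
    rw [Aw_append]
    exact h4
  have h3 : ∀ v, ∑ i, p i ^ 2 * Y (v ++ [i]) ≤ q * Y v := by
    intro v
    have hav : 0 < aw (fun i => |a i|) v := aw_pos hab v
    have e1 : ∀ i, p i ^ 2 * Y (v ++ [i]) =
        (C0 + M) * ENNReal.ofReal (|a i| ^ (2 * s - σ) *
          (ρ / aw (fun i => |a i|) v) ^ σ) := by
      intro i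
      have hi := hab i
      have hi' := hai i
      have e2 : p i ^ 2 = ENNReal.ofReal ((|a i| ^ s) ^ 2) := by
        rw [hp, ENNReal.ofReal_pow (hai i).le]
      have e3 : Y (v ++ [i]) = (C0 + M) * ENNReal.ofReal ((ρ / aw (fun i => |a i|) v) ^ σ *
          |a i| ^ (-σ)) := by
        change (C0 + M) * ENNReal.ofReal ((ρ / aw (fun i => |a i|) (v ++ [i])) ^ σ) = _
        rw [EEnergy.aw_snoc, ← div_div, Real.div_rpow (div_pos hρ hav).le hi.le,
          Real.rpow_neg hi.le, div_eq_mul_inv]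
      rw [e2, e3, mul_left_comm, ← ENNReal.ofReal_mul (by positivity)]
      congr 2
      have e4 : (|a i| ^ s) ^ 2 = |a i| ^ (2 * s) := by
        rw [← Real.rpow_natCast, ← Real.rpow_mul hi.le]
        congr 1
        push_cast
        ring
      have e5 : |a i| ^ (2 * s - σ) = |a i| ^ (2 * s) * |a i| ^ (-σ) := by
        rw [← Real.rpow_add hi]
        congr 1
      rw [e4, e5]
      ring
    simp only [e1]
    have hz : 0 ≤ (ρ / aw (fun i => |a i|) v) ^ σ := Real.rpow_nonneg (div_pos hρ hav).le _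
    rw [← Finset.mul_sum, ← ENNReal.ofReal_sum_of_nonneg]
    · rw [← Finset.sum_mul, ENNReal.ofReal_mul
        (Finset.sum_nonneg fun i _ => Real.rpow_nonneg (hab i).le _)]
      change (C0 + M) * (q * ENNReal.ofReal ((ρ / aw (fun i => |a i|) v) ^ σ)) ≤
        q * ((C0 + M) * ENNReal.ofReal ((ρ / aw (fun i => |a i|) v) ^ σ))
      rw [mul_left_comm]
    · intro i _
      exact mul_nonneg (Real.rpow_nonneg (hab i).le _) hz
  have hb := avg_bound p hp1 ψ Y q M (fun v => hψM v [] []) h1 h2 h3 n []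
  have hY : Y [] = (C0 + M) * ENNReal.ofReal (ρ ^ σ) := by
    change (C0 + M) * ENNReal.ofReal ((ρ / aw (fun i => |a i|) []) ^ σ) = _
    simp [aw]
  -- the integral
  have hcl : ∀ w w' : List (Fin m),
      MeasurableSet {t : Fin m → E d | |inner ℝ u (zw A w t - zw A w' t)| ≤ ρ} := by
    intro w w'
    refine (isClosed_le ?_ continuous_const).measurableSet
    exact (continuous_const.inner ((zw A w).continuous.sub (zw A w').continuous)).abs
  have hind : ∀ w w' : List (Fin m), Measurable fun t : Fin m → E d =>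
      {t : Fin m → E d | |inner ℝ u (zw A w t - zw A w' t)| ≤ ρ}.indicator
        (1 : (Fin m → E d) → ℝ≥0∞) t :=
    fun w w' => measurable_one.indicator (hcl w w')
  have hin := fun w : List (Fin m) => lintegral_avg p
    (volume.restrict (Metric.closedBall (0 : Fin m → E d) T)) n
    (fun t w' => {t : Fin m → E d | |inner ℝ u (zw A w t - zw A w' t)| ≤ ρ}.indicator
      (1 : (Fin m → E d) → ℝ≥0∞) t) (fun w' => hind w w') hpt
  have hout := lintegral_avg p
    (volume.restrict (Metric.closedBall (0 : Fin m → E d) T)) n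
    (fun t w => avg p n fun w' =>
      {t : Fin m → E d | |inner ℝ u (zw A w t - zw A w' t)| ≤ ρ}.indicator
      (1 : (Fin m → E d) → ℝ≥0∞) t) (fun w => (hin w).1) hpt
  have hval : ∀ w w' : List (Fin m),
      ∫⁻ t in Metric.closedBall (0 : Fin m → E d) T,
        {t : Fin m → E d | |inner ℝ u (zw A w t - zw A w' t)| ≤ ρ}.indicator
          (1 : (Fin m → E d) → ℝ≥0∞) t = ψ [] w w' := by
    intro w w'
    have e1 : (fun t : Fin m → E d =>
          {t : Fin m → E d | |inner ℝ u (zw A w t - zw A w' t)| ≤ ρ}.indicator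
          (1 : (Fin m → E d) → ℝ≥0∞) t) =
        {t : Fin m → E d | |inner ℝ u (zw A w t - zw A w' t)| ≤ ρ}.indicator fun _ => 1 := rfl
    rw [e1, lintegral_indicator_const (hcl w w'), one_mul,
      Measure.restrict_apply (hcl w w')]
    change volume _ = volume {t : Fin m → E d | ‖t‖ ≤ T ∧
      |inner ℝ u (zw A w t - zw A w' t)| ≤ ρ}
    congr 1
    ext t
    rw [Set.mem_inter_iff, mem_closedBall_zero_iff, Set.mem_ofPred_eq, Set.mem_ofPred_eq]
    exact and_comm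
  have hint : ∫⁻ t in Metric.closedBall (0 : Fin m → E d) T, SU A u p n ρ t =
      avg p n fun w => avg p n (ψ [] w) := by
    have e1 : (fun t : Fin m → E d => SU A u p n ρ t) = fun t => avg p n fun w =>
        avg p n fun w' => {t : Fin m → E d | |inner ℝ u (zw A w t - zw A w' t)| ≤ ρ}.indicator
          (1 : (Fin m → E d) → ℝ≥0∞) t := rfl
    rw [e1, hout.2]
    congr 1
    funext w
    rw [(hin w).2]
    congr 1
    funext w'
    exact hval w w'
  rw [hint]
  refine hb.trans ?_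
  rw [hY]
  calc (C0 + M) * ENNReal.ofReal (ρ ^ σ) * ∑ k ∈ Finset.range n, q ^ k +
        M * (∑ i, p i ^ 2) ^ n
      ≤ (C0 + M) * ENNReal.ofReal (ρ ^ σ) * (1 - q)⁻¹ + M * (∑ i, p i ^ 2) ^ n := by
        gcongr
        exact EEnergy.geom_le n
    _ = ((C0 + M) * (1 - q)⁻¹) * ENNReal.ofReal (ρ ^ σ) + M * (∑ i, p i ^ 2) ^ n := by ring
    _ ≤ ((C0 + M) * (1 - q)⁻¹ + M) * ENNReal.ofReal (ρ ^ σ) +
        ((C0 + M) * (1 - q)⁻¹ + M) * (∑ i, p i ^ 2) ^ n := by
        gcongr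
        · exact le_self_add
        · exact le_add_self
    _ = _ := by ring

end Pool.Agent.MP_b039ef_an.AS
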