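import Pool.Agent.Lib.MP_b039ef_an.AS.EChain

/-!
# MP_b039ef_an, project AS, part E: lower and upper bounds for the lower dimension
-/

set_option autoImplicit false

namespace Pool.Agent.MP_b039ef_an.AS

open scoped ENNReal NNReal
open MeasureTheory Set

variable {d m : ℕ} {A : Fin m → E d →L[ℝ] E d}

/-- a wide set has a large lower dimension -/
theorem le_lowerDim (hm : 2 ≤ m) {u : E d} {a : Fin m → ℝ} {θ : ℝ} (hE : Eig A u a θ)
    {t : Fin m → E d} {K : Set (E d)} (hK : IsSelfAffineSet A t K) {σ c : ℝ} (hσ : 0 < σ)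
    (hc : 0 < c) (hW : Wide K u σ c) : ENNReal.ofReal σ ≤ lowerDim K := by
  have key : ∃ C : ℝ, 0 < C ∧ ∀ x ∈ K, ∀ r R : ℝ, 0 < r → r < R → R ≤ Metric.diam K →
      ENNReal.ofReal (C * (R / r) ^ ((σ.toNNReal : ℝ≥0) : ℝ)) ≤
        ((coverNum r (Metric.closedBall x R ∩ K) : ℕ∞) : ℝ≥0∞) := by
    rcases le_or_gt (Metric.diam K) 0 with hD | hD
    · refine ⟨1, one_pos, fun x _ r R hr hrR hR => ?_⟩
      exfalso
      linarith
    obtain ⟨Q, hQ1, hQ⟩ := exists_Aw_le hm hE
    have hQ0 : 0 < Q := by linarith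
    obtain ⟨κ, hκ, hpiece⟩ := exists_piece hm hE hK Q (Metric.diam K) hQ0 hD
    have hu : 0 < ‖u‖ := norm_pos_iff.2 hE.une
    refine ⟨c * (κ / ‖u‖) ^ σ, by positivity, fun x hx r R hr hrR hR => ?_⟩
    have hR0 : 0 < R := hr.trans hrR
    rw [Real.coe_toNNReal σ hσ.le]
    obtain ⟨w, y, hy, hxy, h1, h2⟩ := hpiece x hx R hR0 hR
    have haw : 0 < |aw a w| := lt_of_lt_of_le (mul_pos hκ hR0) h2
    apply le_coverNum
    intro k U hU hS
    -- the preimages of the members
    have h3 := hW (‖u‖ * r / |aw a w|) (by positivity) k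
      (fun i => {y' : E d | zw A w t + Aw A w y' ∈ U i}) (by
        intro y' hy'
        have h4 : zw A w t + Aw A w y' ∈ Metric.closedBall x R ∩ K := by
          refine ⟨?_, mem_word hK w hy'⟩
          rw [Metric.mem_closedBall, hxy, dist_eq_norm]
          have h5 : zw A w t + Aw A w y' - (zw A w t + Aw A w y) = Aw A w (y' - y) := by
            rw [map_sub]; abel
          rw [h5]
          refine (hQ w _).trans (le_trans ?_ h1)
          apply mul_le_mul_of_nonneg_left _ (by positivity)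
          rw [← dist_eq_norm]
          exact Metric.dist_le_diam_of_mem hK.2.1.isBounded hy' hy
        obtain ⟨i, hi⟩ := mem_iUnion.1 (hS h4)
        exact mem_iUnion.2 ⟨i, hi⟩) (by
        intro i y1 hy1 y2 hy2
        have hy1' : zw A w t + Aw A w y1 ∈ U i := hy1
        have hy2' : zw A w t + Aw A w y2 ∈ U i := hy2
        have h4 : dist (zw A w t + Aw A w y1) (zw A w t + Aw A w y2) ≤ r := by
          have h5 := (Metric.edist_le_ediam_of_mem hy1' hy2').trans (hU i)
          rw [edist_dist] at h5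
          exact (ENNReal.ofReal_le_ofReal_iff hr.le).1 h5
        rw [dist_eq_norm] at h4
        have h5 : zw A w t + Aw A w y1 - (zw A w t + Aw A w y2) = Aw A w (y1 - y2) := by
          rw [map_sub]; abel
        rw [h5] at h4
        have h6 := inner_Aw hE w (y1 - y2)
        have h7 : |aw a w| * |inner ℝ u (y1 - y2)| ≤ ‖u‖ * r := by
          rw [← abs_mul, ← h6]
          exact (abs_real_inner_le_norm _ _).trans (mul_le_mul_of_nonneg_left h4 hu.le)
        rw [le_div_iff₀ haw]
        linarith)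
    have h4 : c * (κ / ‖u‖) ^ σ * (R / r) ^ σ ≤ k := by
      refine le_trans ?_ h3
      rw [mul_assoc]
      apply mul_le_mul_of_nonneg_left _ hc.le
      rw [← Real.mul_rpow (by positivity) (by positivity), Real.rpow_neg (by positivity),
        ← Real.inv_rpow (by positivity)]
      apply Real.rpow_le_rpow (by positivity) _ hσ.le
      rw [inv_div, div_mul_div_comm]
      exact div_le_div_of_nonneg_right h2 (by positivity)
    calc ENNReal.ofReal (c * (κ / ‖u‖) ^ σ * (R / r) ^ σ) ≤ ENNReal.ofReal (k : ℝ) :=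
          ENNReal.ofReal_le_ofReal h4
      _ = k := ENNReal.ofReal_natCast k
  unfold lowerDim
  exact le_iSup₂ (f := fun (s : ℝ≥0) (_ : ∃ C : ℝ, 0 < C ∧ ∀ x ∈ K, ∀ r R : ℝ, 0 < r → r < R →
    R ≤ Metric.diam K → ENNReal.ofReal (C * (R / r) ^ (s : ℝ)) ≤
      ((coverNum r (Metric.closedBall x R ∩ K) : ℕ∞) : ℝ≥0∞)) => (s : ℝ≥0∞)) σ.toNNReal key

end Pool.Agent.MP_b039ef_an.AS
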