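import Pool.Agent.Lib.MP_b039ef_an.AS.Energy

/-!
# MP_b039ef_an, project AS: the Assouad dimension is almost surely larger than 1
-/

set_option autoImplicit false

namespace Pool.Agent.MP_b039ef_an.AS

open scoped ENNReal NNReal
open MeasureTheory Set

variable {d m : ℕ} {A : Fin m → E d →L[ℝ] E d}

namespace Lower

theorem card_bound (hA : ∀ i, ‖A i‖ ≤ 1 / 2) {p : Fin m → ℝ≥0∞} (hp : ∑ i, p i = 1)
    {t : Fin m → E d} {K : Set (E d)} (hK : IsSelfAffineSet A t K) {T : ℝ} (hT : ‖t‖ ≤ T)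
    {r : ℝ} (hr : 0 ≤ r) {n : ℕ} (hn : (1 / 2 : ℝ) ^ n * (4 * T) ≤ r) (N : ℕ)
    (V : Fin N → Set (E d)) (hV : ∀ i, Metric.ediam (V i) ≤ ENNReal.ofReal r)
    (hKV : K ⊆ ⋃ i, V i) : 1 ≤ (N : ℝ≥0∞) * SS A p n (2 * r) t := by
  obtain ⟨x0, hx0⟩ := hK.1
  have hy : ∀ w : List (Fin m), ∃ k, zw A w t + Aw A w x0 ∈ V k := fun w =>
    mem_iUnion.1 (hKV (mem_word hK w hx0))
  choose κ hκ using hy
  have hx0n : ‖x0‖ ≤ 2 * T := (norm_le_of_mem hA hK hx0).trans (by linarith)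
  refine (one_le_card_mul p hp n N κ).trans (mul_le_mul_right ?_ _)
  unfold SS
  refine avg_mono p n (fun w hw => avg_mono p n (fun w' hw' => ?_))
  split_ifs with h
  · have hmem : t ∈ {t : Fin m → E d | ‖zw A w t - zw A w' t‖ ≤ 2 * r} := by
      rw [Set.mem_ofPred_eq]
      have h1 : dist (zw A w t + Aw A w x0) (zw A w' t + Aw A w' x0) ≤ r := by
        have h2 := (Metric.edist_le_ediam_of_mem (hκ w) (h ▸ hκ w')).trans (hV (κ w))
        rw [edist_dist] at h2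
        exact (ENNReal.ofReal_le_ofReal_iff hr).1 h2
      rw [dist_eq_norm] at h1
      have h3 : ‖Aw A w x0‖ ≤ (1 / 2) ^ n * (2 * T) := by
        have := Aw_norm_le hA w x0
        rw [hw] at this
        exact this.trans (mul_le_mul_of_nonneg_left hx0n (by positivity))
      have h4 : ‖Aw A w' x0‖ ≤ (1 / 2) ^ n * (2 * T) := by
        have := Aw_norm_le hA w' x0
        rw [hw'] at this
        exact this.trans (mul_le_mul_of_nonneg_left hx0n (by positivity))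
      have h5 : zw A w t - zw A w' t = (zw A w t + Aw A w x0 - (zw A w' t + Aw A w' x0)) -
          (Aw A w x0 - Aw A w' x0) := by abel
      rw [h5]
      calc ‖(zw A w t + Aw A w x0 - (zw A w' t + Aw A w' x0)) - (Aw A w x0 - Aw A w' x0)‖
          ≤ ‖zw A w t + Aw A w x0 - (zw A w' t + Aw A w' x0)‖ + ‖Aw A w x0 - Aw A w' x0‖ :=
            norm_sub_le _ _
        _ ≤ r + (‖Aw A w x0‖ + ‖Aw A w' x0‖) := add_le_add h1 (norm_sub_le _ _)
        _ ≤ 2 * r := by nlinarith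
    rw [indicator_of_mem hmem]
    rfl
  · exact zero_le

theorem measurable_SS {p : Fin m → ℝ≥0∞} (hp : ∑ i, p i = 1) (n : ℕ) (ρ : ℝ) :
    Measurable (fun t : Fin m → E d => SS A p n ρ t) := by
  have hpt : ∀ i, p i ≠ ⊤ := fun i h => by
    have h1 : p i ≤ ∑ i, p i := Finset.single_le_sum (fun _ _ => zero_le) (Finset.mem_univ i)
    rw [hp, h] at h1
    exact absurd h1 (by simp)
  unfold SS
  refine (lintegral_avg p (volume : Measure (Fin m → E d)) n _ (fun w => ?_) hpt).1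
  refine (lintegral_avg p (volume : Measure (Fin m → E d)) n _ (fun w' => ?_) hpt).1
  refine Measurable.indicator measurable_const ?_
  exact measurableSet_le (((zw A w).continuous.sub (zw A w').continuous).norm.measurable)
    measurable_const

/-- `σ ≤ s` if `2^(jσ) ≤ D 2^(js)` for all `j ≥ 1`. -/
theorem exponent {σ s D : ℝ} (h : ∀ j : ℕ, 1 ≤ j → (2 : ℝ) ^ (j * σ) ≤ D * (2 : ℝ) ^ (j * s)) :
    σ ≤ s := by
  by_contra hlt
  push Not at hlt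
  have h1 : ∀ j : ℕ, 1 ≤ j → ((2 : ℝ) ^ (σ - s)) ^ j ≤ D := by
    intro j hj
    have h2 := h j hj
    have h3 : (0 : ℝ) < (2 : ℝ) ^ (j * s) := by positivity
    have h4 : ((2 : ℝ) ^ (σ - s)) ^ j = (2 : ℝ) ^ (j * σ) / (2 : ℝ) ^ (j * s) := by
      rw [← Real.rpow_natCast, ← Real.rpow_mul (by norm_num), ← Real.rpow_sub (by norm_num)]
      congr 1
      ring
    rw [h4, div_le_iff₀ h3]
    exact h2
  have h5 : 1 < (2 : ℝ) ^ (σ - s) := Real.one_lt_rpow (by norm_num) (by linarith)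
  obtain ⟨j, hj⟩ := pow_unbounded_of_one_lt D h5
  have h6 := h1 (j + 1) (by omega)
  have h7 : ((2 : ℝ) ^ (σ - s)) ^ j ≤ ((2 : ℝ) ^ (σ - s)) ^ (j + 1) :=
    pow_le_pow_right₀ h5.le (by omega)
  linarith

/-- The deterministic part. -/
theorem lower_dim (hA : ∀ i, ‖A i‖ ≤ 1 / 2) {p : Fin m → ℝ≥0∞} (hp : ∑ i, p i = 1)
    {t : Fin m → E d} {K : Set (E d)} (hK : IsSelfAffineSet A t K) {T : ℝ} (hT : ‖t‖ ≤ T)
    {σ : ℝ≥0} (nn : ℕ → ℕ) (hn : ∀ j, (1 / 2 : ℝ) ^ nn j * (4 * T) ≤ (1 / 2) ^ j)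
    {M : ℝ≥0∞} (hM : M ≠ ⊤)
    (hMj : ∀ j : ℕ, 1 ≤ j →
      ENNReal.ofReal ((2 : ℝ) ^ (j * (σ : ℝ))) * SS A p (nn j) (2 * (1 / 2) ^ j) t ≤ M) :
    (σ : ℝ≥0∞) ≤ assouadDim K := by
  have hT0 : 0 ≤ T := (norm_nonneg t).trans hT
  unfold assouadDim
  refine le_iInf₂ (fun s hs => ?_)
  obtain ⟨C, hC, hs⟩ := hs
  obtain ⟨x, hx⟩ := hK.1
  have hR : Metric.closedBall x (4 * T + 1) ∩ K = K := by
    refine inter_eq_right.2 (fun y hy => ?_)
    rw [Metric.mem_closedBall, dist_eq_norm]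
    have h1 := norm_le_of_mem hA hK hx
    have h2 := norm_le_of_mem hA hK hy
    calc ‖y - x‖ ≤ ‖y‖ + ‖x‖ := norm_sub_le _ _
      _ ≤ 4 * T + 1 := by linarith
  have key : ∀ j : ℕ, 1 ≤ j → (2 : ℝ) ^ (j * (σ : ℝ)) ≤
      ((M + 1).toReal * (C * (4 * T + 1) ^ (s : ℝ))) * (2 : ℝ) ^ (j * (s : ℝ)) := by
    intro j hj
    have hr0 : (0 : ℝ) < (1 / 2) ^ j := by positivity
    have hr1 : (1 / 2 : ℝ) ^ j < 4 * T + 1 := by
      have : (1 / 2 : ℝ) ^ j < 1 := pow_lt_one₀ (by norm_num) (by norm_num) (by omega)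
      linarith
    have h1 := hs x hx ((1 / 2) ^ j) (4 * T + 1) hr0 hr1
    rw [hR] at h1
    have h2 : ENNReal.ofReal ((2 : ℝ) ^ (j * (σ : ℝ))) / (M + 1) ≤
        ((coverNum ((1 / 2) ^ j) K : ℕ∞) : ℝ≥0∞) := by
      refine le_coverNum _ _ _ (fun k V hV hKV => ?_)
      refine ENNReal.div_le_of_le_mul ?_
      have h3 := card_bound hA hp hK hT hr0.le (hn j) k V hV hKV
      calc ENNReal.ofReal ((2 : ℝ) ^ (j * (σ : ℝ)))
          = ENNReal.ofReal ((2 : ℝ) ^ (j * (σ : ℝ))) * 1 := (mul_one _).symm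
        _ ≤ ENNReal.ofReal ((2 : ℝ) ^ (j * (σ : ℝ))) *
            ((k : ℝ≥0∞) * SS A p (nn j) (2 * (1 / 2) ^ j) t) := mul_le_mul_right h3 _
        _ = (k : ℝ≥0∞) * (ENNReal.ofReal ((2 : ℝ) ^ (j * (σ : ℝ))) *
            SS A p (nn j) (2 * (1 / 2) ^ j) t) := by ring
        _ ≤ (k : ℝ≥0∞) * (M + 1) := mul_le_mul_right ((hMj j hj).trans le_self_add) _
    have h4 := h2.trans h1
    have hM1 : M + 1 ≠ ⊤ := ENNReal.add_ne_top.2 ⟨hM, ENNReal.one_ne_top⟩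
    have hM0 : M + 1 ≠ 0 := by simp
    rw [ENNReal.div_le_iff hM0 hM1] at h4
    have h5 : (0 : ℝ) ≤ C * ((4 * T + 1) / (1 / 2) ^ j) ^ (s : ℝ) := by positivity
    rw [← ENNReal.ofReal_toReal hM1, ← ENNReal.ofReal_mul h5,
      ENNReal.ofReal_le_ofReal_iff (mul_nonneg h5 ENNReal.toReal_nonneg)] at h4
    refine h4.trans (le_of_eq ?_)
    have h6 : ((4 * T + 1) / (1 / 2) ^ j) ^ (s : ℝ) =
        (4 * T + 1) ^ (s : ℝ) * (2 : ℝ) ^ (j * (s : ℝ)) := by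
      have h7 : (4 * T + 1) / (1 / 2 : ℝ) ^ j = (4 * T + 1) * (2 : ℝ) ^ j := by
        rw [one_div, inv_pow, div_inv_eq_mul]
      rw [h7, Real.mul_rpow (by linarith) (by positivity), ← Real.rpow_natCast,
        ← Real.rpow_mul (by norm_num)]
    rw [h6]
    ring
  have h8 := exponent key
  exact_mod_cast h8

/-- choice of the word lengths -/
theorem exists_L {π : ℝ≥0∞} (hπ : π < 1) (T : ℝ) :
    ∃ L : ℕ, π ^ L ≤ 1 / 4 ∧ (1 / 2 : ℝ) ^ L * (4 * T) ≤ 1 ∧ 1 ≤ L := by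
  have h1 := ENNReal.tendsto_pow_atTop_nhds_zero_of_lt_one hπ
  have h2 : ∀ᶠ n in Filter.atTop, π ^ n ≤ 1 / 4 := h1.eventually_le_const (by simp)
  have h3 : Filter.Tendsto (fun n : ℕ => (1 / 2 : ℝ) ^ n * (4 * T)) Filter.atTop (nhds (0 * (4 * T))) :=
    (tendsto_pow_atTop_nhds_zero_of_lt_one (by norm_num) (by norm_num)).mul_const _
  rw [zero_mul] at h3
  have h4 : ∀ᶠ n in Filter.atTop, (1 / 2 : ℝ) ^ n * (4 * T) ≤ 1 :=
    h3.eventually_le_const (by norm_num)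
  obtain ⟨L, hL⟩ := (h2.and (h4.and (Filter.eventually_ge_atTop 1))).exists
  exact ⟨L, hL.1, hL.2.1, hL.2.2⟩

theorem exp_id (c' : ℝ) (j : ℕ) :
    (2 : ℝ) ^ (((j + 1 : ℕ) : ℝ) * (1 + c' / 2)) * ((1 / 2 : ℝ) ^ j) ^ (1 + c') =
      (2 : ℝ) ^ (1 + c' / 2) * ((2 : ℝ) ^ (-(c' / 2))) ^ j := by
  have h1 : ((1 / 2 : ℝ) ^ j) ^ (1 + c') = (2 : ℝ) ^ (-(j : ℝ) * (1 + c')) := by
    have : (1 / 2 : ℝ) ^ j = (2 : ℝ) ^ (-(j : ℝ)) := by
      rw [Real.rpow_neg (by norm_num), Real.rpow_natCast, one_div, inv_pow]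
    rw [this, ← Real.rpow_mul (by norm_num)]
  rw [h1, ← Real.rpow_natCast, ← Real.rpow_mul (by norm_num), ← Real.rpow_add (by norm_num),
    ← Real.rpow_add (by norm_num)]
  congr 1
  push_cast
  ring

theorem ae_ball (hA : ∀ i, ‖A i‖ ≤ 1 / 2) {p : Fin m → ℝ≥0∞} {c : ℝ} {C π : ℝ≥0∞} {T : ℕ}
    (hp : ∑ i, p i = 1) (hc : 0 < c) (hC : C ≠ ⊤) (hπ : π < 1)
    (hE : ∀ (n : ℕ) (ρ : ℝ), 0 < ρ → ρ ≤ 1 →
        ∫⁻ t in Metric.closedBall (0 : Fin m → E d) T, SS A p n ρ t ≤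
          C * (ENNReal.ofReal (ρ ^ (1 + c)) + π ^ n))
    (F : (Fin m → E d) → Set (E d)) (hF : ∀ t, IsSelfAffineSet A t (F t)) :
    ∀ᵐ t ∂(volume.restrict (Metric.closedBall (0 : Fin m → E d) T)),
      t ∈ Metric.closedBall (0 : Fin m → E d) T → 1 < assouadDim (F t) := by
  obtain ⟨L, hL1, hL2, hL3⟩ := exists_L hπ (T : ℝ)
  set c' : ℝ := min c 1 with hc'
  have hc0 : 0 < c' := lt_min hc one_pos
  have hc1 : c' ≤ 1 := min_le_right _ _
  have hcc : c' ≤ c := min_le_left _ _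
  have hσ0 : (0 : ℝ) ≤ 1 + c' / 2 := by positivity
  set σ : ℝ≥0 := ⟨1 + c' / 2, hσ0⟩ with hσ
  have hσr : (σ : ℝ) = 1 + c' / 2 := rfl
  set nn : ℕ → ℕ := fun j => L * (j + 1) with hnn
  have hn : ∀ j, (1 / 2 : ℝ) ^ nn j * (4 * (T : ℝ)) ≤ (1 / 2) ^ j := by
    intro j
    have h1 : (1 / 2 : ℝ) ^ nn j = (1 / 2) ^ (L * j) * (1 / 2) ^ L := by
      rw [← pow_add, hnn]
      congr 1
    rw [h1, mul_assoc]
    have h2 : (1 / 2 : ℝ) ^ (L * j) ≤ (1 / 2) ^ j :=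
      pow_le_pow_of_le_one (by norm_num) (by norm_num) (Nat.le_mul_of_pos_left j (by omega))
    calc (1 / 2 : ℝ) ^ (L * j) * ((1 / 2) ^ L * (4 * T)) ≤ (1 / 2 : ℝ) ^ (L * j) * 1 :=
          mul_le_mul_of_nonneg_left hL2 (by positivity)
      _ ≤ (1 / 2) ^ j := by rw [mul_one]; exact h2
  have hint : ∀ j : ℕ, ∫⁻ t in Metric.closedBall (0 : Fin m → E d) T,
      SS A p (nn (j + 1)) (2 * (1 / 2) ^ (j + 1)) t ≤
        C * (2 * ENNReal.ofReal (((1 / 2 : ℝ) ^ j) ^ (1 + c'))) := by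
    intro j
    have hρ : (2 : ℝ) * (1 / 2) ^ (j + 1) = (1 / 2) ^ j := by rw [pow_succ]; ring
    have hρ0 : (0 : ℝ) < (1 / 2) ^ j := by positivity
    have hρ1 : (1 / 2 : ℝ) ^ j ≤ 1 := pow_le_one₀ (by norm_num) (by norm_num)
    rw [hρ]
    refine (hE _ _ hρ0 hρ1).trans (mul_le_mul_right ?_ _)
    rw [two_mul]
    refine add_le_add (ENNReal.ofReal_le_ofReal ?_) ?_
    · exact Real.rpow_le_rpow_of_exponent_ge hρ0 hρ1 (by linarith)
    · have h1 : π ^ nn (j + 1) ≤ (1 / 4 : ℝ≥0∞) ^ j := by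
        have h2 : π ^ nn (j + 1) = (π ^ L) ^ (j + 2) := by rw [hnn, ← pow_mul]
        rw [h2]
        calc (π ^ L) ^ (j + 2) ≤ (1 / 4 : ℝ≥0∞) ^ (j + 2) := pow_le_pow_left₀ zero_le hL1 _
          _ ≤ (1 / 4 : ℝ≥0∞) ^ j :=
            pow_le_pow_of_le_one zero_le (by
              rw [ENNReal.div_le_iff (by norm_num) (by norm_num)]; norm_num) (by omega)
      refine h1.trans ?_
      have h3 : (1 / 4 : ℝ≥0∞) ^ j = ENNReal.ofReal ((1 / 4 : ℝ) ^ j) := by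
        rw [ENNReal.ofReal_pow (by norm_num), ENNReal.ofReal_div_of_pos (by norm_num)]
        norm_num
      rw [h3]
      refine ENNReal.ofReal_le_ofReal ?_
      have h4 : (1 / 4 : ℝ) ^ j = ((1 / 2 : ℝ) ^ j) ^ (2 : ℝ) := by
        rw [show (2 : ℝ) = ((2 : ℕ) : ℝ) by norm_num, Real.rpow_natCast, ← pow_mul, mul_comm j 2,
          pow_mul]
        norm_num
      rw [h4]
      exact Real.rpow_le_rpow_of_exponent_ge hρ0 hρ1 (by linarith)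
  have hmeas : ∀ j : ℕ, Measurable fun t : Fin m → E d =>
      ENNReal.ofReal ((2 : ℝ) ^ (((j + 1 : ℕ) : ℝ) * (σ : ℝ))) *
        SS A p (nn (j + 1)) (2 * (1 / 2) ^ (j + 1)) t := fun j =>
    (measurable_SS hp _ _).const_mul _
  have hsumI : ∫⁻ t in Metric.closedBall (0 : Fin m → E d) T,
      ∑' j : ℕ, ENNReal.ofReal ((2 : ℝ) ^ (((j + 1 : ℕ) : ℝ) * (σ : ℝ))) *
        SS A p (nn (j + 1)) (2 * (1 / 2) ^ (j + 1)) t ≠ ⊤ := by
    rw [lintegral_tsum (fun j => (hmeas j).aemeasurable)]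
    have h1 : ∀ j : ℕ, ∫⁻ t in Metric.closedBall (0 : Fin m → E d) T,
        ENNReal.ofReal ((2 : ℝ) ^ (((j + 1 : ℕ) : ℝ) * (σ : ℝ))) *
          SS A p (nn (j + 1)) (2 * (1 / 2) ^ (j + 1)) t ≤
        (2 * C * ENNReal.ofReal ((2 : ℝ) ^ (1 + c' / 2))) *
          (ENNReal.ofReal ((2 : ℝ) ^ (-(c' / 2)))) ^ j := by
      intro j
      rw [lintegral_const_mul _ (measurable_SS hp _ _)]
      refine (mul_le_mul_right (hint j) _).trans (le_of_eq ?_)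
      have h2 := exp_id c' j
      have h3 : ENNReal.ofReal ((2 : ℝ) ^ (((j + 1 : ℕ) : ℝ) * (σ : ℝ))) *
          ENNReal.ofReal (((1 / 2 : ℝ) ^ j) ^ (1 + c')) =
          ENNReal.ofReal ((2 : ℝ) ^ (1 + c' / 2)) * (ENNReal.ofReal ((2 : ℝ) ^ (-(c' / 2)))) ^ j := by
        rw [← ENNReal.ofReal_pow (by positivity), ← ENNReal.ofReal_mul (by positivity),
          ← ENNReal.ofReal_mul (by positivity), hσr, h2]
      calc ENNReal.ofReal ((2 : ℝ) ^ (((j + 1 : ℕ) : ℝ) * (σ : ℝ))) *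
            (C * (2 * ENNReal.ofReal (((1 / 2 : ℝ) ^ j) ^ (1 + c'))))
          = (2 * C) * (ENNReal.ofReal ((2 : ℝ) ^ (((j + 1 : ℕ) : ℝ) * (σ : ℝ))) *
            ENNReal.ofReal (((1 / 2 : ℝ) ^ j) ^ (1 + c'))) := by ring
        _ = (2 * C * ENNReal.ofReal ((2 : ℝ) ^ (1 + c' / 2))) *
          (ENNReal.ofReal ((2 : ℝ) ^ (-(c' / 2)))) ^ j := by rw [h3]; ring
    have h4 : ∑' j : ℕ, (2 * C * ENNReal.ofReal ((2 : ℝ) ^ (1 + c' / 2))) *
          (ENNReal.ofReal ((2 : ℝ) ^ (-(c' / 2)))) ^ j ≠ ⊤ := by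
      rw [ENNReal.tsum_mul_left, ENNReal.tsum_geometric]
      refine ENNReal.mul_ne_top (ENNReal.mul_ne_top (ENNReal.mul_ne_top (by norm_num) hC)
        ENNReal.ofReal_ne_top) ?_
      rw [ENNReal.inv_ne_top]
      have h5 : (2 : ℝ) ^ (-(c' / 2)) < 1 := Real.rpow_lt_one_of_one_lt_of_neg (by norm_num) (by linarith)
      have h6 : ENNReal.ofReal ((2 : ℝ) ^ (-(c' / 2))) < 1 := by
        rw [← ENNReal.ofReal_one]
        exact (ENNReal.ofReal_lt_ofReal_iff one_pos).2 h5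
      exact (tsub_pos_of_lt h6).ne'
    exact ne_top_of_le_ne_top h4 (ENNReal.tsum_le_tsum h1)
  filter_upwards [ae_lt_top (Measurable.tsum hmeas) hsumI] with t ht hmem
  have hT : ‖t‖ ≤ (T : ℝ) := by rwa [Metric.mem_closedBall, dist_zero_right] at hmem
  have h1 : (σ : ℝ≥0∞) ≤ assouadDim (F t) := by
    refine lower_dim hA hp (hF t) hT nn hn (M := ∑' j : ℕ,
      ENNReal.ofReal ((2 : ℝ) ^ (((j + 1 : ℕ) : ℝ) * (σ : ℝ))) *
        SS A p (nn (j + 1)) (2 * (1 / 2) ^ (j + 1)) t) ht.ne ?_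
    intro j hj
    obtain ⟨k, rfl⟩ : ∃ k, j = k + 1 := ⟨j - 1, by omega⟩
    exact ENNReal.le_tsum (f := fun j : ℕ => ENNReal.ofReal ((2 : ℝ) ^ (((j + 1 : ℕ) : ℝ) * (σ : ℝ))) *
        SS A p (nn (j + 1)) (2 * (1 / 2) ^ (j + 1)) t) k
  refine lt_of_lt_of_le ?_ h1
  have h2 : (1 : ℝ≥0) < σ := by
    rw [← NNReal.coe_lt_coe, hσr]
    push_cast
    linarith
  exact_mod_cast h2

end Lower

open Lower

theorem ae_assouad (hd : 2 ≤ d) (hm : 2 ≤ m) {U : Set (E d)} {a : Fin m → ℝ} {θ : ℝ} (hS : Sys A U a θ)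
    (hsum : 1 < ∑ i, a i) (F : (Fin m → E d) → Set (E d))
    (hF : ∀ t, IsSelfAffineSet A t (F t)) :
    ∀ᵐ t : Fin m → E d, 1 < assouadDim (F t) := by
  have hA : ∀ i, ‖A i‖ ≤ 1 / 2 := fun i => (hS.norm i).le
  have main : ∀ T : ℕ, ∀ᵐ t ∂(volume.restrict (Metric.closedBall (0 : Fin m → E d) T)),
      t ∈ Metric.closedBall (0 : Fin m → E d) T → 1 < assouadDim (F t) := by
    intro T
    obtain ⟨p, c, C, π, hp, hc, hC, hπ, hE⟩ := energy hd hm hS hsum (T : ℝ)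
    exact ae_ball hA hp hc hC hπ hE F hF
  have h2 : ∀ T : ℕ, ∀ᵐ t : Fin m → E d,
      t ∈ Metric.closedBall (0 : Fin m → E d) T → 1 < assouadDim (F t) := by
    intro T
    have h3 := (ae_restrict_iff' Metric.isClosed_closedBall.measurableSet).1 (main T)
    filter_upwards [h3] with t ht hmem
    exact ht hmem hmem
  filter_upwards [ae_all_iff.2 h2] with t ht
  refine ht ⌈‖t‖⌉₊ ?_
  rw [Metric.mem_closedBall, dist_zero_right]
  exact Nat.le_ceil _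

end Pool.Agent.MP_b039ef_an.AS
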