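import Pool.Agent.Lib.MP_b039ef_an.AS.EEnergy
import Pool.Agent.Lib.MP_b039ef_an.AS.Lower

/-!
# MP_b039ef_an, project AS, part E: almost surely the projection is wide at all scales
-/

set_option autoImplicit false

namespace Pool.Agent.MP_b039ef_an.AS

open scoped ENNReal NNReal
open MeasureTheory Set

variable {d m : ℕ} {A : Fin m → E d →L[ℝ] E d}

namespace EProj

theorem card_bound (hA : ∀ i, ‖A i‖ ≤ 1 / 2) {p : Fin m → ℝ≥0∞} (hp : ∑ i, p i = 1)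
    {t : Fin m → E d} {K : Set (E d)} (hK : IsSelfAffineSet A t K) {T : ℝ} (hT : ‖t‖ ≤ T)
    (u : E d) {r : ℝ} {n : ℕ} (hn : (1 / 2 : ℝ) ^ n * (4 * (T * ‖u‖)) ≤ r)
    (N : ℕ) (V : Fin N → Set (E d)) (hV : ∀ k, ∀ x ∈ V k, ∀ y ∈ V k, |inner ℝ u (x - y)| ≤ r)
    (hKV : K ⊆ ⋃ i, V i) : 1 ≤ (N : ℝ≥0∞) * SU A u p n (2 * r) t := by
  obtain ⟨x0, hx0⟩ := hK.1
  have hy : ∀ w : List (Fin m), ∃ k, zw A w t + Aw A w x0 ∈ V k := fun w =>
    mem_iUnion.1 (hKV (mem_word hK w hx0))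
  choose κ hκ using hy
  have hx0n : ‖x0‖ ≤ 2 * T := (norm_le_of_mem hA hK hx0).trans (by linarith)
  refine (one_le_card_mul p hp n N κ).trans (mul_le_mul_right ?_ _)
  unfold SU
  refine avg_mono p n (fun w hw => avg_mono p n (fun w' hw' => ?_))
  split_ifs with h
  · have hmem : t ∈ {t : Fin m → E d | |inner ℝ u (zw A w t - zw A w' t)| ≤ 2 * r} := by
      rw [Set.mem_ofPred_eq]
      have h1 : |inner ℝ u ((zw A w t + Aw A w x0) - (zw A w' t + Aw A w' x0))| ≤ r :=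
        hV (κ w) _ (hκ w) _ (h ▸ hκ w')
      have h3 : ‖Aw A w x0‖ ≤ (1 / 2) ^ n * (2 * T) := by
        have := Aw_norm_le hA w x0
        rw [hw] at this
        exact this.trans (mul_le_mul_of_nonneg_left hx0n (by positivity))
      have h4 : ‖Aw A w' x0‖ ≤ (1 / 2) ^ n * (2 * T) := by
        have := Aw_norm_le hA w' x0
        rw [hw'] at this
        exact this.trans (mul_le_mul_of_nonneg_left hx0n (by positivity))
      have h5 : zw A w t - zw A w' t = (zw A w t + Aw A w x0 - (zw A w' t + Aw A w' x0)) -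
          (Aw A w x0 - Aw A w' x0) := by abel
      have h6 : |inner ℝ u (Aw A w x0 - Aw A w' x0)| ≤ (1 / 2 : ℝ) ^ n * (4 * (T * ‖u‖)) := by
        calc |inner ℝ u (Aw A w x0 - Aw A w' x0)| ≤ ‖u‖ * ‖Aw A w x0 - Aw A w' x0‖ :=
              abs_real_inner_le_norm _ _
          _ ≤ ‖u‖ * (‖Aw A w x0‖ + ‖Aw A w' x0‖) :=
              mul_le_mul_of_nonneg_left (norm_sub_le _ _) (norm_nonneg _)
          _ ≤ ‖u‖ * ((1 / 2) ^ n * (2 * T) + (1 / 2) ^ n * (2 * T)) :=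
              mul_le_mul_of_nonneg_left (add_le_add h3 h4) (norm_nonneg _)
          _ = (1 / 2 : ℝ) ^ n * (4 * (T * ‖u‖)) := by ring
      rw [h5, inner_sub_right]
      calc |inner ℝ u (zw A w t + Aw A w x0 - (zw A w' t + Aw A w' x0)) -
            inner ℝ u (Aw A w x0 - Aw A w' x0)|
          ≤ |inner ℝ u (zw A w t + Aw A w x0 - (zw A w' t + Aw A w' x0))| +
            |inner ℝ u (Aw A w x0 - Aw A w' x0)| := abs_sub _ _
        _ ≤ 2 * r := by linarith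
    rw [indicator_of_mem hmem]
    rfl
  · exact zero_le

theorem measurable_SU {p : Fin m → ℝ≥0∞} (hp : ∑ i, p i = 1) (u : E d) (n : ℕ) (ρ : ℝ) :
    Measurable (fun t : Fin m → E d => SU A u p n ρ t) := by
  have hpt : ∀ i, p i ≠ ⊤ := fun i h => by
    have h1 : p i ≤ ∑ i, p i := Finset.single_le_sum (fun _ _ => zero_le) (Finset.mem_univ i)
    rw [hp, h] at h1
    exact absurd h1 (by simp)
  unfold SU
  refine (lintegral_avg p (volume : Measure (Fin m → E d)) n _ (fun w => ?_) hpt).1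
  refine (lintegral_avg p (volume : Measure (Fin m → E d)) n _ (fun w' => ?_) hpt).1
  refine Measurable.indicator measurable_const ?_
  exact measurableSet_le ((continuous_const.inner
    ((zw A w).continuous.sub (zw A w').continuous)).abs.measurable) measurable_const

theorem exp_id (σ σ₁ : ℝ) (j : ℕ) :
    (2 : ℝ) ^ (((j + 1 : ℕ) : ℝ) * σ) * ((1 / 2 : ℝ) ^ j) ^ σ₁ =
      (2 : ℝ) ^ σ * ((2 : ℝ) ^ (-(σ₁ - σ))) ^ j := by
  have h1 : ((1 / 2 : ℝ) ^ j) ^ σ₁ = (2 : ℝ) ^ (-(j : ℝ) * σ₁) := by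
    have : (1 / 2 : ℝ) ^ j = (2 : ℝ) ^ (-(j : ℝ)) := by
      rw [Real.rpow_neg (by norm_num), Real.rpow_natCast, one_div, inv_pow]
    rw [this, ← Real.rpow_mul (by norm_num)]
  rw [h1, ← Real.rpow_natCast, ← Real.rpow_mul (by norm_num), ← Real.rpow_add (by norm_num),
    ← Real.rpow_add (by norm_num)]
  congr 1
  push_cast
  ring

/-- The deterministic part. -/
theorem wide_of_sum (hA : ∀ i, ‖A i‖ ≤ 1 / 2) {p : Fin m → ℝ≥0∞} (hp : ∑ i, p i = 1)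
    {t : Fin m → E d} {K : Set (E d)} (hK : IsSelfAffineSet A t K) {T : ℝ} (hT : ‖t‖ ≤ T)
    (u : E d) {σ : ℝ} (hσ : 0 < σ) (nn : ℕ → ℕ)
    (hn : ∀ j, (1 / 2 : ℝ) ^ nn j * (4 * (T * ‖u‖)) ≤ (1 / 2) ^ j) {M : ℝ≥0∞} (hM : M ≠ ⊤)
    (hMj : ∀ j : ℕ, 1 ≤ j →
      ENNReal.ofReal ((2 : ℝ) ^ (j * σ)) * SU A u p (nn j) (2 * (1 / 2) ^ j) t ≤ M) :
    ∃ c : ℝ, 0 < c ∧ Wide K u σ c := by
  have hM0 : 0 ≤ M.toReal := ENNReal.toReal_nonneg
  refine ⟨(2 : ℝ) ^ (-σ) / (M.toReal + 1), by positivity, ?_⟩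
  intro δ hδ N V hKV hV
  have hN : 1 ≤ N := by
    rcases Nat.eq_zero_or_pos N with h0 | h0
    · exfalso
      subst h0
      obtain ⟨x, hx⟩ := hK.1
      obtain ⟨k, -⟩ := mem_iUnion.1 (hKV hx)
      exact k.elim0
    · exact h0
  have hN' : (1 : ℝ) ≤ N := by exact_mod_cast hN
  have hδσ : 0 < δ ^ (-σ) := by positivity
  rcases le_or_gt (1 / 2) δ with hδ2 | hδ2
  · have h1 : δ ^ (-σ) ≤ (1 / 2 : ℝ) ^ (-σ) :=
      Real.rpow_le_rpow_of_nonpos (by norm_num) hδ2 (by linarith)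
    have h2 : (2 : ℝ) ^ (-σ) * (1 / 2 : ℝ) ^ (-σ) = 1 := by
      rw [← Real.mul_rpow (by norm_num) (by norm_num)]
      norm_num
    have h3 : (2 : ℝ) ^ (-σ) * δ ^ (-σ) ≤ 1 := by
      rw [← h2]
      exact mul_le_mul_of_nonneg_left h1 (by positivity)
    rw [div_mul_eq_mul_div, div_le_iff₀ (by positivity)]
    nlinarith
  · obtain ⟨j, hj1, hj2⟩ := exists_nat_pow_near_of_lt_one hδ (by linarith : δ ≤ 1)
      (by norm_num : (0 : ℝ) < 1 / 2) (by norm_num : (1 / 2 : ℝ) < 1)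
    have hj : 1 ≤ j := by
      rcases Nat.eq_zero_or_pos j with h0 | h0
      · exfalso
        subst h0
        rw [zero_add, pow_one] at hj1
        linarith
      · exact h0
    have h1 := card_bound hA hp hK hT u (hn j) N V
      (fun k x hx y hy => (hV k x hx y hy).trans hj2) hKV
    have h2 : ENNReal.ofReal ((2 : ℝ) ^ (j * σ)) ≤ (N : ℝ≥0∞) * M := by
      calc ENNReal.ofReal ((2 : ℝ) ^ (j * σ)) = ENNReal.ofReal ((2 : ℝ) ^ (j * σ)) * 1 :=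
            (mul_one _).symm
        _ ≤ ENNReal.ofReal ((2 : ℝ) ^ (j * σ)) *
            ((N : ℝ≥0∞) * SU A u p (nn j) (2 * (1 / 2) ^ j) t) := mul_le_mul_right h1 _
        _ = (N : ℝ≥0∞) * (ENNReal.ofReal ((2 : ℝ) ^ (j * σ)) *
            SU A u p (nn j) (2 * (1 / 2) ^ j) t) := by ring
        _ ≤ (N : ℝ≥0∞) * M := mul_le_mul_right (hMj j hj) _
    have h3 : (2 : ℝ) ^ (j * σ) ≤ N * M.toReal := by
      have h4 : (N : ℝ≥0∞) * M = ENNReal.ofReal (N * M.toReal) := by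
        rw [ENNReal.ofReal_mul (by positivity), ENNReal.ofReal_natCast, ENNReal.ofReal_toReal hM]
      rw [h4] at h2
      exact (ENNReal.ofReal_le_ofReal_iff (by positivity)).1 h2
    have h5 : δ ^ (-σ) ≤ (2 : ℝ) ^ σ * (2 : ℝ) ^ (j * σ) := by
      have h6 : δ ^ (-σ) ≤ ((1 / 2 : ℝ) ^ (j + 1)) ^ (-σ) :=
        Real.rpow_le_rpow_of_nonpos (by positivity) hj1.le (by linarith)
      refine h6.trans (le_of_eq ?_)
      have h7 : (1 / 2 : ℝ) ^ (j + 1) = (2 : ℝ) ^ (-((j : ℝ) + 1)) := by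
        rw [Real.rpow_neg (by norm_num), one_div, inv_pow, ← Real.rpow_natCast]
        push_cast
        rfl
      rw [h7, ← Real.rpow_mul (by norm_num), ← Real.rpow_add (by norm_num)]
      congr 1
      ring
    have h8 : (2 : ℝ) ^ (-σ) * (2 : ℝ) ^ σ = 1 := by
      rw [← Real.rpow_add (by norm_num)]
      simp
    have h9 : (2 : ℝ) ^ (-σ) * δ ^ (-σ) ≤ N * M.toReal := by
      calc (2 : ℝ) ^ (-σ) * δ ^ (-σ) ≤ (2 : ℝ) ^ (-σ) * ((2 : ℝ) ^ σ * (2 : ℝ) ^ (j * σ)) :=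
            mul_le_mul_of_nonneg_left h5 (by positivity)
        _ = ((2 : ℝ) ^ (-σ) * (2 : ℝ) ^ σ) * (2 : ℝ) ^ (j * σ) := by ring
        _ = (2 : ℝ) ^ (j * σ) := by rw [h8, one_mul]
        _ ≤ N * M.toReal := h3
    rw [div_mul_eq_mul_div, div_le_iff₀ (by positivity)]
    nlinarith

theorem ae_ball (hA : ∀ i, ‖A i‖ ≤ 1 / 2) {p : Fin m → ℝ≥0∞} (u : E d) {σ σ₁ : ℝ}
    (hσ : 0 < σ) (hσσ : σ < σ₁) (hσ1 : σ₁ ≤ 1) {C π : ℝ≥0∞} {T : ℕ}
    (hp : ∑ i, p i = 1) (hC : C ≠ ⊤) (hπ : π < 1)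
    (hE : ∀ (n : ℕ) (ρ : ℝ), 0 < ρ → ρ ≤ 1 →
        ∫⁻ t in Metric.closedBall (0 : Fin m → E d) T, SU A u p n ρ t ≤
          C * (ENNReal.ofReal (ρ ^ σ₁) + π ^ n))
    (F : (Fin m → E d) → Set (E d)) (hF : ∀ t, IsSelfAffineSet A t (F t)) :
    ∀ᵐ t ∂(volume.restrict (Metric.closedBall (0 : Fin m → E d) T)),
      t ∈ Metric.closedBall (0 : Fin m → E d) T → ∃ c : ℝ, 0 < c ∧ Wide (F t) u σ c := by
  obtain ⟨L, hL1, hL2, hL3⟩ := Lower.exists_L hπ ((T : ℝ) * ‖u‖)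
  set nn : ℕ → ℕ := fun j => L * (j + 1) with hnn
  have hn : ∀ j, (1 / 2 : ℝ) ^ nn j * (4 * ((T : ℝ) * ‖u‖)) ≤ (1 / 2) ^ j := by
    intro j
    have h1 : (1 / 2 : ℝ) ^ nn j = (1 / 2) ^ (L * j) * (1 / 2) ^ L := by
      rw [← pow_add, hnn]
      congr 1
    rw [h1, mul_assoc]
    have h2 : (1 / 2 : ℝ) ^ (L * j) ≤ (1 / 2) ^ j :=
      pow_le_pow_of_le_one (by norm_num) (by norm_num) (Nat.le_mul_of_pos_left j (by omega))
    calc (1 / 2 : ℝ) ^ (L * j) * ((1 / 2) ^ L * (4 * ((T : ℝ) * ‖u‖))) ≤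
          (1 / 2 : ℝ) ^ (L * j) * 1 := mul_le_mul_of_nonneg_left hL2 (by positivity)
      _ ≤ (1 / 2) ^ j := by rw [mul_one]; exact h2
  have hint : ∀ j : ℕ, ∫⁻ t in Metric.closedBall (0 : Fin m → E d) T,
      SU A u p (nn (j + 1)) (2 * (1 / 2) ^ (j + 1)) t ≤
        C * (2 * ENNReal.ofReal (((1 / 2 : ℝ) ^ j) ^ σ₁)) := by
    intro j
    have hρ : (2 : ℝ) * (1 / 2) ^ (j + 1) = (1 / 2) ^ j := by rw [pow_succ]; ring
    have hρ0 : (0 : ℝ) < (1 / 2) ^ j := by positivity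
    have hρ1 : (1 / 2 : ℝ) ^ j ≤ 1 := pow_le_one₀ (by norm_num) (by norm_num)
    rw [hρ]
    refine (hE _ _ hρ0 hρ1).trans (mul_le_mul_right ?_ _)
    rw [two_mul]
    refine add_le_add le_rfl ?_
    have h1 : π ^ nn (j + 1) ≤ (1 / 4 : ℝ≥0∞) ^ j := by
      have h2 : π ^ nn (j + 1) = (π ^ L) ^ (j + 2) := by rw [hnn, ← pow_mul]
      rw [h2]
      calc (π ^ L) ^ (j + 2) ≤ (1 / 4 : ℝ≥0∞) ^ (j + 2) := pow_le_pow_left₀ zero_le hL1 _
        _ ≤ (1 / 4 : ℝ≥0∞) ^ j :=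
          pow_le_pow_of_le_one zero_le (by
            rw [ENNReal.div_le_iff (by norm_num) (by norm_num)]; norm_num) (by omega)
    refine h1.trans ?_
    have h3 : (1 / 4 : ℝ≥0∞) ^ j = ENNReal.ofReal ((1 / 4 : ℝ) ^ j) := by
      rw [ENNReal.ofReal_pow (by norm_num), ENNReal.ofReal_div_of_pos (by norm_num)]
      norm_num
    rw [h3]
    refine ENNReal.ofReal_le_ofReal ?_
    have h4 : (1 / 4 : ℝ) ^ j = ((1 / 2 : ℝ) ^ j) ^ (2 : ℝ) := by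
      rw [show (2 : ℝ) = ((2 : ℕ) : ℝ) by norm_num, Real.rpow_natCast, ← pow_mul, mul_comm j 2,
        pow_mul]
      norm_num
    rw [h4]
    exact Real.rpow_le_rpow_of_exponent_ge hρ0 hρ1 (by linarith)
  have hmeas : ∀ j : ℕ, Measurable fun t : Fin m → E d =>
      ENNReal.ofReal ((2 : ℝ) ^ (((j + 1 : ℕ) : ℝ) * σ)) *
        SU A u p (nn (j + 1)) (2 * (1 / 2) ^ (j + 1)) t := fun j =>
    (measurable_SU hp _ _ _).const_mul _
  have hsumI : ∫⁻ t in Metric.closedBall (0 : Fin m → E d) T,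
      ∑' j : ℕ, ENNReal.ofReal ((2 : ℝ) ^ (((j + 1 : ℕ) : ℝ) * σ)) *
        SU A u p (nn (j + 1)) (2 * (1 / 2) ^ (j + 1)) t ≠ ⊤ := by
    rw [lintegral_tsum (fun j => (hmeas j).aemeasurable)]
    have h1 : ∀ j : ℕ, ∫⁻ t in Metric.closedBall (0 : Fin m → E d) T,
        ENNReal.ofReal ((2 : ℝ) ^ (((j + 1 : ℕ) : ℝ) * σ)) *
          SU A u p (nn (j + 1)) (2 * (1 / 2) ^ (j + 1)) t ≤
        (2 * C * ENNReal.ofReal ((2 : ℝ) ^ σ)) *
          (ENNReal.ofReal ((2 : ℝ) ^ (-(σ₁ - σ)))) ^ j := by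
      intro j
      rw [lintegral_const_mul _ (measurable_SU hp _ _ _)]
      refine (mul_le_mul_right (hint j) _).trans (le_of_eq ?_)
      have h2 := exp_id σ σ₁ j
      have h3 : ENNReal.ofReal ((2 : ℝ) ^ (((j + 1 : ℕ) : ℝ) * σ)) *
          ENNReal.ofReal (((1 / 2 : ℝ) ^ j) ^ σ₁) =
          ENNReal.ofReal ((2 : ℝ) ^ σ) * (ENNReal.ofReal ((2 : ℝ) ^ (-(σ₁ - σ)))) ^ j := by
        rw [← ENNReal.ofReal_pow (by positivity), ← ENNReal.ofReal_mul (by positivity),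
          ← ENNReal.ofReal_mul (by positivity), h2]
      calc ENNReal.ofReal ((2 : ℝ) ^ (((j + 1 : ℕ) : ℝ) * σ)) *
            (C * (2 * ENNReal.ofReal (((1 / 2 : ℝ) ^ j) ^ σ₁)))
          = (2 * C) * (ENNReal.ofReal ((2 : ℝ) ^ (((j + 1 : ℕ) : ℝ) * σ)) *
            ENNReal.ofReal (((1 / 2 : ℝ) ^ j) ^ σ₁)) := by ring
        _ = (2 * C * ENNReal.ofReal ((2 : ℝ) ^ σ)) *
          (ENNReal.ofReal ((2 : ℝ) ^ (-(σ₁ - σ)))) ^ j := by rw [h3]; ring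
    have h4 : ∑' j : ℕ, (2 * C * ENNReal.ofReal ((2 : ℝ) ^ σ)) *
          (ENNReal.ofReal ((2 : ℝ) ^ (-(σ₁ - σ)))) ^ j ≠ ⊤ := by
      rw [ENNReal.tsum_mul_left, ENNReal.tsum_geometric]
      refine ENNReal.mul_ne_top (ENNReal.mul_ne_top (ENNReal.mul_ne_top (by norm_num) hC)
        ENNReal.ofReal_ne_top) ?_
      rw [ENNReal.inv_ne_top]
      have h5 : (2 : ℝ) ^ (-(σ₁ - σ)) < 1 :=
        Real.rpow_lt_one_of_one_lt_of_neg (by norm_num) (by linarith)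
      have h6 : ENNReal.ofReal ((2 : ℝ) ^ (-(σ₁ - σ))) < 1 := by
        rw [← ENNReal.ofReal_one]
        exact (ENNReal.ofReal_lt_ofReal_iff one_pos).2 h5
      exact (tsub_pos_of_lt h6).ne'
    exact ne_top_of_le_ne_top h4 (ENNReal.tsum_le_tsum h1)
  filter_upwards [ae_lt_top (Measurable.tsum hmeas) hsumI] with t ht hmem
  have hT : ‖t‖ ≤ (T : ℝ) := by rwa [Metric.mem_closedBall, dist_zero_right] at hmem
  refine wide_of_sum hA hp (hF t) hT u hσ nn hn (M := ∑' j : ℕ,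
      ENNReal.ofReal ((2 : ℝ) ^ (((j + 1 : ℕ) : ℝ) * σ)) *
        SU A u p (nn (j + 1)) (2 * (1 / 2) ^ (j + 1)) t) ht.ne ?_
  intro j hj
  obtain ⟨k, rfl⟩ : ∃ k, j = k + 1 := ⟨j - 1, by omega⟩
  exact ENNReal.le_tsum (f := fun j : ℕ => ENNReal.ofReal ((2 : ℝ) ^ (((j + 1 : ℕ) : ℝ) * σ)) *
      SU A u p (nn (j + 1)) (2 * (1 / 2) ^ (j + 1)) t) k

end EProj

open EProj

theorem ae_wide (hm : 2 ≤ m) {u : E d} {a : Fin m → ℝ} {θ : ℝ} (hE : Eig A u a θ) {s : ℝ}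
    (hs : 0 < s) (hsum : ∑ i, |a i| ^ s = 1) {σ : ℝ} (hσ0 : 0 < σ) (hσ1 : σ < 1) (hσs : σ < s)
    (F : (Fin m → E d) → Set (E d)) (hF : ∀ t, IsSelfAffineSet A t (F t)) :
    ∀ᵐ t : Fin m → E d, ∃ c : ℝ, 0 < c ∧ Wide (F t) u σ c := by
  have hA : ∀ i, ‖A i‖ ≤ 1 / 2 := fun i => (hE.norm i).le
  obtain ⟨σ₁, h1, h2⟩ := exists_between (lt_min hσ1 hσs)
  have h21 : σ₁ < 1 := lt_of_lt_of_le h2 (min_le_left _ _)
  have h2s : σ₁ < s := lt_of_lt_of_le h2 (min_le_right _ _)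
  have hp : ∑ i, ENNReal.ofReal (|a i| ^ s) = 1 := by
    rw [← ENNReal.ofReal_sum_of_nonneg (fun i _ => by positivity), hsum, ENNReal.ofReal_one]
  have main : ∀ T : ℕ, ∀ᵐ t ∂(volume.restrict (Metric.closedBall (0 : Fin m → E d) T)),
      t ∈ Metric.closedBall (0 : Fin m → E d) T → ∃ c : ℝ, 0 < c ∧ Wide (F t) u σ c := by
    intro T
    obtain ⟨C, π, hC, hπ, hEn⟩ := energyU hm hE hs hsum (hσ0.trans h1) h21.le h2s (T : ℝ)
    exact ae_ball hA u hσ0 h1 h21.le hp hC hπ hEn F hF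
  have h3 : ∀ T : ℕ, ∀ᵐ t : Fin m → E d,
      t ∈ Metric.closedBall (0 : Fin m → E d) T → ∃ c : ℝ, 0 < c ∧ Wide (F t) u σ c := by
    intro T
    have h4 := (ae_restrict_iff' Metric.isClosed_closedBall.measurableSet).1 (main T)
    filter_upwards [h4] with t ht hmem
    exact ht hmem hmem
  filter_upwards [ae_all_iff.2 h3] with t ht
  refine ht ⌈‖t‖⌉₊ ?_
  rw [Metric.mem_closedBall, dist_zero_right]
  exact Nat.le_ceil _

end Pool.Agent.MP_b039ef_an.AS
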