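import Pool.Agent.Lib.MP_b039ef_an.AS.Tie

/-!
# MP_b039ef_an, project AS: almost surely there are no ties in the directions of `U`
-/

set_option autoImplicit false

namespace Pool.Agent.MP_b039ef_an.AS

open scoped ENNReal NNReal
open MeasureTheory Set

variable {d m : ℕ} {A : Fin m → E d →L[ℝ] E d}

namespace NoTie

private lemma cover {U : Set (E d)} (hμ : Measure.hausdorffMeasure 1 U = 0) {ε : ℝ≥0∞}
    (hε : 0 < ε) : ∃ V : ℕ → Set (E d), U ⊆ ⋃ n, V n ∧ (∀ n, Metric.ediam (V n) ≤ 1) ∧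
      ∑' n, (⨆ _ : (V n).Nonempty, Metric.ediam (V n) ^ (1 : ℝ)) < ε := by
  rw [Measure.hausdorffMeasure_apply] at hμ
  simp only [ENNReal.iSup_eq_zero] at hμ
  have h := hμ 1 one_pos
  have h2 := lt_of_eq_of_lt h hε
  simp only [iInf_lt_iff] at h2
  obtain ⟨V, hV, hVd, hs⟩ := h2
  exact ⟨V, hV, hVd, hs⟩

private lemma bad_le {a0 : ℝ} (h0 : 0 ≤ a0) (h1 : a0 < 1 / 2) (hA : ∀ i, ‖A i‖ ≤ a0)
    (F : (Fin m → E d) → Set (E d)) (hF : ∀ t, IsSelfAffineSet A t (F t)) {U : Set (E d)}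
    {r0 : ℝ} (hr0 : 0 < r0) (hr : ∀ u ∈ U, r0 ≤ ‖u‖)
    (hμ : Measure.hausdorffMeasure 1 U = 0) (N : ℕ) {i j : Fin m} (hij : i ≠ j) :
    volume {t : Fin m → E d | ‖t‖ ≤ N ∧ ∃ u ∈ U, hI A t (F t) i u = hI A t (F t) j u} = 0 := by
  have hA' : ∀ i, ‖A i‖ ≤ 1 / 2 := fun i => (hA i).trans h1.le
  obtain ⟨C, hC, hCb⟩ := measure_tie_le h0 h1 hA F hF N
  set K : ℝ≥0∞ := C * ENNReal.ofReal (4 * N / r0) with hK
  have hKtop : K ≠ ⊤ := ENNReal.mul_ne_top hC ENNReal.ofReal_ne_top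
  have main : ∀ ε : ℝ≥0∞, 0 < ε →
      volume {t : Fin m → E d | ‖t‖ ≤ N ∧ ∃ u ∈ U, hI A t (F t) i u = hI A t (F t) j u}
        ≤ K * ε := by
    intro ε hε
    obtain ⟨V, hV, hVd, hs⟩ := cover hμ hε
    have hfin : ∀ n, Metric.ediam (V n) ≠ ⊤ := fun n =>
      ((hVd n).trans_lt ENNReal.one_lt_top).ne
    have hpt : ∀ n, ∃ u : E d, (V n ∩ U).Nonempty → u ∈ V n ∩ U := by
      intro n
      by_cases h : (V n ∩ U).Nonempty
      · exact ⟨h.choose, fun _ => h.choose_spec⟩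
      · exact ⟨0, fun h' => absurd h' h⟩
    choose u hu using hpt
    set S : ℕ → Set (Fin m → E d) := fun n => {t | (V n ∩ U).Nonempty ∧ ‖t‖ ≤ N ∧
      |hI A t (F t) i (u n) - hI A t (F t) j (u n)| ≤ 4 * N * (Metric.ediam (V n)).toReal} with hS
    have hsub : {t : Fin m → E d | ‖t‖ ≤ N ∧ ∃ u ∈ U, hI A t (F t) i u = hI A t (F t) j u}
        ⊆ ⋃ n, S n := by
      rintro t ⟨ht, v, hv, hvt⟩
      obtain ⟨n, hn⟩ := mem_iUnion.1 (hV hv)
      refine mem_iUnion.2 ⟨n, ⟨v, hn, hv⟩, ht, ?_⟩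
      have hun := hu n ⟨v, hn, hv⟩
      have hd : ‖v - u n‖ ≤ (Metric.ediam (V n)).toReal := by
        rw [← dist_eq_norm, dist_edist]
        exact ENNReal.toReal_mono (hfin n) (Metric.edist_le_ediam_of_mem hn hun.1)
      have e1 := hI_lip hA' (hF t) i v (u n)
      have e2 := hI_lip hA' (hF t) j v (u n)
      have e3 : 2 * ‖t‖ * ‖v - u n‖ ≤ 2 * N * (Metric.ediam (V n)).toReal := by gcongr
      rw [abs_le] at e1 e2 ⊢
      constructor <;> linarith [e1.1, e1.2, e2.1, e2.2]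
    have hmeas : ∀ n, volume (S n) ≤
        K * (⨆ _ : (V n).Nonempty, Metric.ediam (V n) ^ (1 : ℝ)) := by
      intro n
      by_cases h : (V n ∩ U).Nonempty
      · have hun := hu n h
        have hru := hr _ hun.2
        have hne0 : u n ≠ 0 := by
          rw [← norm_pos_iff]
          linarith
        have hVn : (V n).Nonempty := ⟨_, hun.1⟩
        have hle : S n ⊆ {t : Fin m → E d | ‖t‖ ≤ N ∧
            |hI A t (F t) i (u n) - hI A t (F t) j (u n)|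
              ≤ 4 * N * (Metric.ediam (V n)).toReal} := fun t ht => ht.2
        refine (measure_mono hle).trans ((hCb (u n) hne0 i j hij _ (by positivity)).trans ?_)
        rw [ciSup_pos hVn, ENNReal.rpow_one, hK, mul_assoc C]
        refine mul_le_mul_right ?_ C
        calc ENNReal.ofReal (4 * N * (Metric.ediam (V n)).toReal / ‖u n‖)
            ≤ ENNReal.ofReal (4 * N / r0 * (Metric.ediam (V n)).toReal) := by
              refine ENNReal.ofReal_le_ofReal ?_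
              rw [div_mul_eq_mul_div]
              gcongr
          _ = ENNReal.ofReal (4 * N / r0) * Metric.ediam (V n) := by
              rw [ENNReal.ofReal_mul (by positivity), ENNReal.ofReal_toReal (hfin n)]
      · have : S n = ∅ := by
          ext t
          simp only [hS, mem_ofPred_eq, mem_empty_iff_false, iff_false]
          exact fun h' => h h'.1
        rw [this, measure_empty]
        exact bot_le
    calc volume {t : Fin m → E d | ‖t‖ ≤ N ∧ ∃ u ∈ U, hI A t (F t) i u = hI A t (F t) j u}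
        ≤ volume (⋃ n, S n) := measure_mono hsub
      _ ≤ ∑' n, volume (S n) := measure_iUnion_le S
      _ ≤ ∑' n, K * (⨆ _ : (V n).Nonempty, Metric.ediam (V n) ^ (1 : ℝ)) :=
          ENNReal.tsum_le_tsum hmeas
      _ = K * ∑' n, (⨆ _ : (V n).Nonempty, Metric.ediam (V n) ^ (1 : ℝ)) := ENNReal.tsum_mul_left
      _ ≤ K * ε := mul_le_mul_right hs.le K
  have hlim : Filter.Tendsto (fun k : ℕ => K * ((k : ℝ≥0∞)⁻¹)) Filter.atTop (nhds (K * 0)) :=
    ENNReal.Tendsto.const_mul ENNReal.tendsto_inv_nat_nhds_zero (Or.inr hKtop)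
  rw [mul_zero] at hlim
  exact le_antisymm (ge_of_tendsto' hlim fun k => main _ (by simp)) bot_le

end NoTie

theorem ae_no_tie {a0 : ℝ} (h0 : 0 ≤ a0) (h1 : a0 < 1 / 2) (hA : ∀ i, ‖A i‖ ≤ a0)
    (F : (Fin m → E d) → Set (E d)) (hF : ∀ t, IsSelfAffineSet A t (F t)) {U : Set (E d)}
    (hU : IsCompact U) (hU0 : (0 : E d) ∉ U) (hμ : Measure.hausdorffMeasure 1 U = 0) :
    ∀ᵐ t : Fin m → E d, ∀ u ∈ U, ∀ i j, i ≠ j → hI A t (F t) i u ≠ hI A t (F t) j u := by
  rcases U.eq_empty_or_nonempty with rfl | hne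
  · simp
  obtain ⟨v0, hv0, hmin⟩ := hU.exists_isMinOn hne continuous_norm.continuousOn
  have hr0 : 0 < ‖v0‖ := norm_pos_iff.2 fun h => hU0 (h ▸ hv0)
  have hr : ∀ u ∈ U, ‖v0‖ ≤ ‖u‖ := fun u hu => hmin hu
  have key : volume (⋃ N : ℕ, ⋃ i : Fin m, ⋃ j : Fin m, ⋃ _ : i ≠ j,
      {t : Fin m → E d | ‖t‖ ≤ N ∧ ∃ u ∈ U, hI A t (F t) i u = hI A t (F t) j u}) = 0 := by
    simp only [measure_iUnion_null_iff]
    intro N i j hij
    exact NoTie.bad_le h0 h1 hA F hF hr0 hr hμ N hij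
  rw [ae_iff]
  refine measure_mono_null ?_ key
  intro t ht
  simp only [mem_ofPred_eq, not_forall, not_not] at ht
  obtain ⟨u, hu, i, j, hij, h⟩ := ht
  obtain ⟨N, hN⟩ := exists_nat_ge ‖t‖
  simp only [mem_iUnion]
  exact ⟨N, i, j, hij, hN, u, hu, h⟩

end Pool.Agent.MP_b039ef_an.AS
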