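import Pool.Agent.Lib.MP_b039ef_an.AS.EChain
import Pool.Agent.Lib.MP_b039ef_an.AS.NoTie

/-!
# MP_b039ef_an, project AS, part E: the upper bound in terms of the similarity dimension
-/

set_option autoImplicit false

namespace Pool.Agent.MP_b039ef_an.AS

open scoped ENNReal NNReal
open MeasureTheory Set

variable {d m : ℕ} {A : Fin m → E d →L[ℝ] E d}

namespace EUp

theorem zw_snoc (v : List (Fin m)) (i : Fin m) (t : Fin m → E d) :
    zw A (v ++ [i]) t = zw A v t + Aw A v (t i) := by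
  induction v with
  | nil =>
    change t i + A i (0 : E d) = 0 + t i
    rw [map_zero, add_zero, zero_add]
  | cons j v ih =>
    change t j + A j (zw A (v ++ [i]) t) = (t j + A j (zw A v t)) + A j (Aw A v (t i))
    rw [ih, map_add, add_assoc]

theorem aw_snoc (a : Fin m → ℝ) (v : List (Fin m)) (i : Fin m) :
    aw a (v ++ [i]) = aw a v * a i := by
  simp [aw]

theorem abs_le_half {u : E d} {a : Fin m → ℝ} {θ : ℝ} (hE : Eig A u a θ) (i : Fin m) :
    |a i| ≤ 1 / 2 := by
  have h1 := hE.inv i u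
  rw [real_inner_self_eq_norm_sq] at h1
  have h2 := abs_real_inner_le_norm u (A i u)
  rw [h1, abs_mul, abs_of_nonneg (sq_nonneg ‖u‖)] at h2
  have hu : 0 < ‖u‖ := norm_pos_iff.2 hE.une
  have h3 : ‖A i u‖ ≤ 1 / 2 * ‖u‖ :=
    ((A i).le_opNorm u).trans (mul_le_mul_of_nonneg_right (hE.norm i).le (norm_nonneg _))
  have h4 : |a i| * ‖u‖ ^ 2 ≤ 1 / 2 * ‖u‖ ^ 2 := by
    refine h2.trans ?_
    nlinarith
  exact le_of_mul_le_mul_right h4 (by positivity)

theorem exists_alpha (hm : 2 ≤ m) {u : E d} {a : Fin m → ℝ} {θ : ℝ} (hE : Eig A u a θ) :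
    ∃ α : ℝ, 0 < α ∧ α ≤ 1 / 2 ∧ ∀ i, α ≤ |a i| := by
  have : Nonempty (Fin m) := ⟨⟨0, by omega⟩⟩
  obtain ⟨i, hi⟩ := Finite.exists_min fun i => |a i|
  exact ⟨|a i|, abs_pos.2 (hE.ane i), abs_le_half hE i, hi⟩

theorem cover {a : Fin m → ℝ} {Q D α s r : ℝ} (hα : 0 < α) (hαa : ∀ i, α ≤ |a i|)
    (haa : ∀ i, |a i| ≤ 1 / 2) (hQ : 0 < Q) (hD : 0 < D) (hr : 0 < r) (hs : 0 < s)
    (hsum : ∑ i, |a i| ^ s = 1) {t : Fin m → E d} {K : Set (E d)} (hK : IsSelfAffineSet A t K)
    (hdiam : ∀ y ∈ K, ∀ y' ∈ K, ‖y - y'‖ ≤ D)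
    (hA : ∀ (w : List (Fin m)) (x : E d), ‖Aw A w x‖ ≤ Q * |aw a w| * ‖x‖) (n : ℕ)
    (v : List (Fin m)) (h1 : Q * |aw a v| * D ≤ 2 ^ n * r) (h2 : α * r ≤ Q * |aw a v| * D) :
    ∃ (N : ℕ) (V : Fin N → Set (E d)), (∀ k, Metric.ediam (V k) ≤ ENNReal.ofReal r) ∧
      (∀ y ∈ K, zw A v t + Aw A v y ∈ ⋃ k, V k) ∧
      (N : ℝ) ≤ (Q * |aw a v| * D / (α * r)) ^ s := by
  have hone : ∀ v : List (Fin m), Q * |aw a v| * D ≤ r → α * r ≤ Q * |aw a v| * D →
      ∃ (N : ℕ) (V : Fin N → Set (E d)), (∀ k, Metric.ediam (V k) ≤ ENNReal.ofReal r) ∧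
      (∀ y ∈ K, zw A v t + Aw A v y ∈ ⋃ k, V k) ∧
      (N : ℝ) ≤ (Q * |aw a v| * D / (α * r)) ^ s := by
    intro v h1 h2
    refine ⟨1, fun _ => (fun y => zw A v t + Aw A v y) '' K, ?_, ?_, ?_⟩
    · intro k
      refine Metric.ediam_le ?_
      rintro _ ⟨y, hy, rfl⟩ _ ⟨y', hy', rfl⟩
      rw [edist_dist]
      refine ENNReal.ofReal_le_ofReal ?_
      have e1 : dist (zw A v t + Aw A v y) (zw A v t + Aw A v y') = ‖Aw A v (y - y')‖ := by
        rw [dist_eq_norm, map_sub]
        congr 1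
        abel
      change dist (zw A v t + Aw A v y) (zw A v t + Aw A v y') ≤ r
      rw [e1]
      refine (hA v (y - y')).trans (le_trans ?_ h1)
      exact mul_le_mul_of_nonneg_left (hdiam y hy y' hy') (by positivity)
    · intro y hy
      exact mem_iUnion.2 ⟨0, y, hy, rfl⟩
    · rw [Nat.cast_one]
      apply Real.one_le_rpow _ hs.le
      rw [one_le_div (by positivity)]
      exact h2
  induction n generalizing v with
  | zero =>
    rw [pow_zero, one_mul] at h1
    exact hone v h1 h2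
  | succ n ih =>
    by_cases hle : Q * |aw a v| * D ≤ r
    · exact hone v hle h2
    · push_neg at hle
      have e1 : ∀ i, Q * |aw a (v ++ [i])| * D = Q * |aw a v| * D * |a i| := by
        intro i
        rw [aw_snoc, abs_mul]
        ring
      have hXpos : 0 < Q * |aw a v| * D := hr.trans hle
      have h3 : ∀ i, Q * |aw a (v ++ [i])| * D ≤ 2 ^ n * r := by
        intro i
        rw [e1]
        have h4 := mul_le_mul_of_nonneg_left (haa i) hXpos.le
        rw [pow_succ] at h1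
        linarith
      have h4 : ∀ i, α * r ≤ Q * |aw a (v ++ [i])| * D := by
        intro i
        rw [e1]
        calc α * r ≤ |a i| * (Q * |aw a v| * D) :=
              mul_le_mul (hαa i) hle.le hr.le (abs_nonneg _)
          _ = _ := mul_comm _ _
      choose N V hV1 hV2 hV3 using fun i => ih (v ++ [i]) (h3 i) (h4 i)
      refine ⟨∑ i, N i, fun k => V (finSigmaFinEquiv.symm k).1 (finSigmaFinEquiv.symm k).2, ?_,
        ?_, ?_⟩
      · intro k
        exact hV1 _ _
      · intro y hy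
        have hy0 := hy
        rw [hK.2.2] at hy0
        obtain ⟨i, z, hz, hzy⟩ := mem_iUnion.1 hy0
        have h5 := hV2 i z hz
        obtain ⟨k, hk⟩ := mem_iUnion.1 h5
        refine mem_iUnion.2 ⟨finSigmaFinEquiv ⟨i, k⟩, ?_⟩
        rw [Equiv.symm_apply_apply]
        have e2 : zw A v t + Aw A v y = zw A (v ++ [i]) t + Aw A (v ++ [i]) z := by
          rw [zw_snoc, Aw_append, ← hzy]
          change zw A v t + Aw A v (A i z + t i) = zw A v t + Aw A v (t i) + Aw A v (A i z)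
          rw [map_add]
          abel
        rw [e2]
        exact hk
      · push_cast
        calc ∑ i, (N i : ℝ) ≤ ∑ i, (Q * |aw a (v ++ [i])| * D / (α * r)) ^ s :=
              Finset.sum_le_sum fun i _ => hV3 i
          _ = ∑ i, (Q * |aw a v| * D / (α * r)) ^ s * |a i| ^ s := by
              refine Finset.sum_congr rfl fun i _ => ?_
              rw [e1, ← Real.mul_rpow (by positivity) (abs_nonneg _)]
              congr 1
              ring
          _ = (Q * |aw a v| * D / (α * r)) ^ s := by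
              rw [← Finset.mul_sum, hsum, mul_one]

theorem exists_bound (h : ∀ i, ‖A i‖ < 1 / 2) :
    ∃ a0 : ℝ, 0 ≤ a0 ∧ a0 < 1 / 2 ∧ ∀ i, ‖A i‖ ≤ a0 := by
  classical
  by_cases hm : Nonempty (Fin m)
  · obtain ⟨i, hi⟩ := Finite.exists_max fun i => ‖A i‖
    exact ⟨‖A i‖, norm_nonneg _, h i, hi⟩
  · exact ⟨0, le_rfl, by norm_num, fun i => absurd ⟨i⟩ hm⟩

end EUp

/-- the lower dimension is at most the solution `s` of `∑ |a i|^s = 1`, provided that `K` has two
points -/
theorem lowerDim_le (hm : 2 ≤ m) {u : E d} {a : Fin m → ℝ} {θ : ℝ} (hE : Eig A u a θ)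
    {t : Fin m → E d} {K : Set (E d)} (hK : IsSelfAffineSet A t K) (hK2 : K.Nontrivial) {s : ℝ}
    (hs : 0 < s) (hsum : ∑ i, |a i| ^ s = 1) : lowerDim K ≤ ENNReal.ofReal s := by
  obtain ⟨Q, hQ1, hA⟩ := exists_Aw_le hm hE
  have hQ : 0 < Q := by linarith
  obtain ⟨α, hα0, hα2, hαa⟩ := EUp.exists_alpha hm hE
  have hbd := hK.2.1.isBounded
  set D : ℝ := Metric.diam K with hDdef
  have hD : 0 < D := Metric.diam_pos hK2 hbd
  have hdiam : ∀ y ∈ K, ∀ y' ∈ K, ‖y - y'‖ ≤ D := by
    intro y hy y' hy'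
    rw [← dist_eq_norm]
    exact Metric.dist_le_diam_of_mem hbd hy hy'
  obtain ⟨x, hx⟩ := hK.1
  refine iSup₂_le ?_
  rintro s' ⟨C, hC, hlow⟩
  by_contra hcon
  push_neg at hcon
  have hss : s < (s' : ℝ) := by
    by_contra h
    push_neg at h
    refine absurd hcon (not_lt.2 ?_)
    rw [← ENNReal.ofReal_coe_nnreal]
    exact ENNReal.ofReal_le_ofReal h
  have key : ∀ y : ℝ, 1 < y → C * y ^ ((s' : ℝ) - s) ≤ (Q / α) ^ s := by
    intro y hy
    have hy0 : 0 < y := by linarith
    set r : ℝ := D / y with hrdef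
    have hr : 0 < r := by positivity
    have hrD : r < D := div_lt_self hD hy
    have hDr : D / r = y := by
      rw [hrdef]
      field_simp
    obtain ⟨n, hn⟩ := pow_unbounded_of_one_lt (Q * D / r) (by norm_num : (1 : ℝ) < 2)
    have e0 : aw a ([] : List (Fin m)) = 1 := by simp [aw]
    obtain ⟨N, V, hV1, hV2, hV3⟩ := EUp.cover (s := s) hα0 hαa (EUp.abs_le_half hE) hQ hD hr hs
      hsum hK hdiam hA n [] (by
        rw [e0, abs_one, mul_one]
        rw [div_lt_iff₀ hr] at hn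
        exact hn.le) (by
        rw [e0, abs_one, mul_one]
        calc α * r ≤ Q * D := mul_le_mul (by linarith) hrD.le hr.le hQ.le)
    rw [e0, abs_one, mul_one] at hV3
    have hcov : K ⊆ ⋃ k, V k := by
      intro y hy
      have h5 := hV2 y hy
      have e2 : zw A ([] : List (Fin m)) t + Aw A ([] : List (Fin m)) y = y := by
        change (0 : E d) + y = y
        rw [zero_add]
      rwa [e2] at h5
    have h6 := hlow x hx r D hr hrD le_rfl
    have h7 : coverNum r (Metric.closedBall x D ∩ K) ≤ (N : ℕ∞) :=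
      coverNum_le r _ N V hV1 (inter_subset_right.trans hcov)
    have h8 : ((coverNum r (Metric.closedBall x D ∩ K) : ℕ∞) : ℝ≥0∞) ≤ (N : ℝ≥0∞) := by
      have := ENat.toENNReal_le.2 h7
      simpa using this
    have h9 : ENNReal.ofReal (C * (D / r) ^ (s' : ℝ)) ≤ ENNReal.ofReal (N : ℝ) := by
      rw [ENNReal.ofReal_natCast]
      exact h6.trans h8
    have h10 : C * (D / r) ^ (s' : ℝ) ≤ (N : ℝ) :=
      (ENNReal.ofReal_le_ofReal_iff (Nat.cast_nonneg N)).1 h9
    have h11 : C * y ^ (s' : ℝ) ≤ (Q / α) ^ s * y ^ s := by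
      rw [hDr] at h10
      refine h10.trans (hV3.trans (le_of_eq ?_))
      rw [← Real.mul_rpow (by positivity) hy0.le]
      congr 1
      rw [← hDr]
      field_simp
    have h12 : y ^ (s' : ℝ) = y ^ ((s' : ℝ) - s) * y ^ s := by
      rw [← Real.rpow_add hy0]
      congr 1
      ring
    rw [h12, ← mul_assoc] at h11
    exact le_of_mul_le_mul_right h11 (Real.rpow_pos_of_pos hy0 s)
  have hlim := tendsto_rpow_atTop (sub_pos.2 hss)
  have hev := (hlim.eventually_gt_atTop ((Q / α) ^ s / C)).and (Filter.eventually_gt_atTop 1)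
  obtain ⟨y, hy1, hy2⟩ := hev.exists
  have h13 := key y hy2
  rw [div_lt_iff₀ hC] at hy1
  linarith

/-- almost surely the self-affine set has two points -/
theorem ae_nontrivial (hm : 2 ≤ m) {u : E d} {a : Fin m → ℝ} {θ : ℝ} (hE : Eig A u a θ)
    (F : (Fin m → E d) → Set (E d)) (hF : ∀ t, IsSelfAffineSet A t (F t)) :
    ∀ᵐ t : Fin m → E d, (F t).Nontrivial := by
  obtain ⟨a0, h0, h1, hA⟩ := EUp.exists_bound hE.norm
  have hμ : Measure.hausdorffMeasure 1 ({u} : Set (E d)) = 0 := by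
    have := Measure.nullSingletonClass_hausdorff (E d) one_pos
    exact measure_singleton u
  filter_upwards [ae_no_tie h0 h1 hA F hF isCompact_singleton
    (fun h => hE.une (mem_singleton_iff.1 h).symm) hμ] with t ht
  by_contra hcon
  rw [not_nontrivial_iff] at hcon
  obtain ⟨x, hx⟩ := (hF t).1
  have hFx : F t = {x} := hcon.eq_singleton_of_mem hx
  have hval : ∀ i, hI A t (F t) i u = inner ℝ u x := by
    intro i
    have e1 : A i x + t i = x := by
      have := image_mem (hF t) i hx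
      rw [hFx] at this
      exact this
    unfold hI
    rw [hFx, image_singleton, csSup_singleton, e1]
  have h01 : (⟨0, by omega⟩ : Fin m) ≠ ⟨1, by omega⟩ := by
    intro h
    exact absurd (Fin.mk.inj_iff.1 h) (by norm_num)
  exact ht u rfl _ _ h01 ((hval _).trans (hval _).symm)

end Pool.Agent.MP_b039ef_an.AS
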