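import Pool.Agent.Lib.MP_b039ef_an.AS.Basic

/-!
# MP_b039ef_an, project AS: systems with a dominating common left eigenvector
-/

set_option autoImplicit false

namespace Pool.Agent.MP_b039ef_an.AS

open scoped ENNReal NNReal
open MeasureTheory Set

variable {d m : ℕ} {A : Fin m → E d →L[ℝ] E d}

/-- a nonzero vector orthogonal to `u` -/
theorem exists_orth (hd : 2 ≤ d) (u : E d) : ∃ y : E d, ‖y‖ = 1 ∧ inner ℝ u y = 0 := by
  have h1 : Module.finrank ℝ (E d) = d := finrank_euclideanSpace_fin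
  have h2 : Module.finrank ℝ (Submodule.span ℝ {u} : Submodule ℝ (E d)) ≤ 1 :=
    finrank_span_le_card ({u} : Set (E d)) |>.trans (by simp)
  have h3 := Submodule.finrank_add_finrank_orthogonal (Submodule.span ℝ {u} : Submodule ℝ (E d))
  have h4 : 0 < Module.finrank ℝ ((Submodule.span ℝ {u} : Submodule ℝ (E d))ᗮ) := by omega
  have h5 : (Submodule.span ℝ {u} : Submodule ℝ (E d))ᗮ ≠ ⊥ := by
    intro h
    rw [h, finrank_bot] at h4
    exact lt_irrefl _ h4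
  obtain ⟨y, hy, hy0⟩ := (Submodule.ne_bot_iff _).1 h5
  have hy' : inner ℝ u y = 0 := Submodule.mem_orthogonal_singleton_iff_inner_right.1 hy
  refine ⟨(‖y‖⁻¹ : ℝ) • y, norm_smul_inv_norm hy0, ?_⟩
  rw [real_inner_smul_right, hy', mul_zero]

/-- the strict inequality on the hyperplane gives a uniform factor -/
theorem exists_theta (hd : 2 ≤ d) (B : E d →L[ℝ] E d) (u : E d) (a : ℝ)
    (hB : Function.Injective B)
    (h : ∀ x, x ≠ 0 → inner ℝ u x = 0 → ‖B x‖ < |a| * ‖x‖) :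
    ∃ θ : ℝ, 0 < θ ∧ θ < 1 ∧ ∀ x, inner ℝ u x = 0 → ‖B x‖ ≤ θ * |a| * ‖x‖ := by
  obtain ⟨y0, hy0, hy0'⟩ := exists_orth hd u
  set S : Set (E d) := Metric.sphere 0 1 ∩ {x | inner ℝ u x = 0} with hS
  have hcl : IsClosed {x : E d | inner ℝ u x = 0} :=
    isClosed_eq (continuous_const.inner continuous_id) continuous_const
  have hSc : IsCompact S := (isCompact_sphere 0 1).inter_right hcl
  have hSn : S.Nonempty := ⟨y0, by simpa using hy0, hy0'⟩
  obtain ⟨z, hz, hmax⟩ := hSc.exists_isMaxOn hSn (f := fun x => ‖B x‖)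
    (B.continuous.norm.continuousOn)
  have hz1 : ‖z‖ = 1 := by simpa using hz.1
  have hz0 : z ≠ 0 := by
    intro h0
    rw [h0, norm_zero] at hz1
    exact zero_ne_one hz1
  have hlt := h z hz0 hz.2
  rw [hz1, mul_one] at hlt
  have hBz : 0 < ‖B z‖ := norm_pos_iff.2 fun h0 => hz0 (hB (by rw [h0, map_zero]))
  have ha : 0 < |a| := hBz.trans hlt
  refine ⟨‖B z‖ / |a|, div_pos hBz ha, (div_lt_one ha).2 hlt, ?_⟩
  intro x hx
  rcases eq_or_ne x 0 with rfl | hx0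
  · simp
  · have hxn : 0 < ‖x‖ := norm_pos_iff.2 hx0
    have h1 : (‖x‖⁻¹ : ℝ) • x ∈ S := by
      refine ⟨by simpa using norm_smul_inv_norm (𝕜 := ℝ) hx0, ?_⟩
      show inner ℝ u ((‖x‖⁻¹ : ℝ) • x) = 0
      rw [real_inner_smul_right, hx, mul_zero]
    have h2 : ‖B ((‖x‖⁻¹ : ℝ) • x)‖ ≤ ‖B z‖ := hmax h1
    rw [map_smul, norm_smul, norm_inv, norm_norm] at h2
    rw [div_mul_cancel₀ _ ha.ne']
    calc ‖B x‖ = ‖x‖ * (‖x‖⁻¹ * ‖B x‖) := by field_simp
      _ ≤ ‖x‖ * ‖B z‖ := mul_le_mul_of_nonneg_left h2 hxn.le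
      _ = _ := mul_comm _ _

theorem sys_of_eigen (hd : 2 ≤ d) (hm : 0 < m) (hinj : ∀ i, Function.Injective (A i))
    (hnorm : ∀ i, ‖A i‖ < 1 / 2) (u : E d) (hu : u ≠ 0) (a : Fin m → ℝ)
    (ha : ∀ i x, inner ℝ u (A i x) = a i * inner ℝ u x)
    (hdom : ∀ i x, x ≠ 0 → inner ℝ u x = 0 → ‖A i x‖ < |a i| * ‖x‖) :
    ∃ θ, Sys A {u} (fun i => |a i|) θ := by
  have : Nonempty (Fin m) := ⟨⟨0, hm⟩⟩
  obtain ⟨y0, hy0, hy0'⟩ := exists_orth hd u
  have hy00 : y0 ≠ 0 := by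
    intro h0
    rw [h0, norm_zero] at hy0
    exact zero_ne_one hy0
  have hpos : ∀ i, 0 < |a i| := by
    intro i
    have h1 := hdom i y0 hy00 hy0'
    rw [hy0, mul_one] at h1
    exact lt_of_le_of_lt (norm_nonneg _) h1
  choose θ hθ0 hθ1 hθ using fun i => exists_theta hd (A i) u (a i) (hinj i) (hdom i)
  obtain ⟨k, hk⟩ := Finite.exists_max θ
  refine ⟨θ k, hinj, hnorm, isCompact_singleton, Set.singleton_nonempty u, ?_, hpos, hθ0 k,
    hθ1 k, ?_⟩
  · intro h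
    exact hu (Set.mem_singleton_iff.1 h).symm
  · intro v hv i
    rw [Set.mem_singleton_iff] at hv
    subst hv
    refine ⟨a i, v, Set.mem_singleton v, le_rfl, ha i, ?_⟩
    intro x hx
    have hx' : inner ℝ v x = 0 := by
      rw [ha i x] at hx
      rcases mul_eq_zero.1 hx with h | h
      · exact absurd h (abs_pos.1 (hpos i))
      · exact h
    refine (hθ i x hx').trans ?_
    apply mul_le_mul_of_nonneg_right _ (norm_nonneg _)
    exact mul_le_mul_of_nonneg_right (hk i) (abs_nonneg _)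

end Pool.Agent.MP_b039ef_an.AS
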