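import Pool.Agent.Lib.MP_b039ef_an.AS.Final
import Pool.Agent.Lib.MP_b039ef_an.AS.Eigen
import Pool.Agent.Lib.MP_b039ef_an.AS.EProj
import Pool.Agent.Lib.MP_b039ef_an.AS.ELow
import Pool.Agent.Lib.MP_b039ef_an.AS.EUp

/-!
# MP_b039ef_an, project AS, part E: the theorem
-/

set_option autoImplicit false

namespace Pool.Agent.MP_b039ef_an.AS

open scoped ENNReal NNReal
open MeasureTheory Set

variable {d m : ℕ} {A : Fin m → E d →L[ℝ] E d}

theorem eig_of_eigen (hd : 2 ≤ d) (hm : 2 ≤ m) (hinj : ∀ i, Function.Injective (A i))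
    (hnorm : ∀ i, ‖A i‖ < 1 / 2) (u : E d) (hu : u ≠ 0) (a : Fin m → ℝ)
    (ha : ∀ i x, inner ℝ u (A i x) = a i * inner ℝ u x)
    (hdom : ∀ i x, x ≠ 0 → inner ℝ u x = 0 → ‖A i x‖ < |a i| * ‖x‖) :
    ∃ θ, Sys A {u} (fun i => |a i|) θ ∧ Eig A u a θ := by
  obtain ⟨θ, hθ⟩ := sys_of_eigen hd (by omega) hinj hnorm u hu a ha hdom
  have hne : ∀ i, a i ≠ 0 := fun i => abs_pos.1 (hθ.pos i)
  refine ⟨θ, hθ, hinj, hnorm, hu, hne, hθ.θ0, hθ.θ1, ha, ?_⟩
  intro i x hx
  obtain ⟨c, u', hu', hc, hc1, hc2⟩ := hθ.inv u (Set.mem_singleton u) i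
  rw [Set.mem_singleton_iff] at hu'
  subst hu'
  have hcc : c = a i := by
    have h1 := hc1 u'
    rw [ha i u', real_inner_self_eq_norm_sq] at h1
    have h2 : ‖u'‖ ^ 2 ≠ 0 := pow_ne_zero _ (norm_ne_zero_iff.2 hu)
    exact (mul_right_cancel₀ h2 h1).symm
  rw [hcc] at hc2
  exact hc2 x (by rw [ha i x, hx, mul_zero])

theorem mainE (hd : 2 ≤ d) (hm : 2 ≤ m) (hinj : ∀ i, Function.Injective (A i))
    (hnorm : ∀ i, ‖A i‖ < 1 / 2) (u : E d) (hu : u ≠ 0) (a : Fin m → ℝ)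
    (ha : ∀ i x, inner ℝ u (A i x) = a i * inner ℝ u x)
    (hdom : ∀ i x, x ≠ 0 → inner ℝ u x = 0 → ‖A i x‖ < |a i| * ‖x‖) (s : ℝ) (hs : 0 < s)
    (hsum : ∑ i, |a i| ^ s = 1) :
    ∀ᵐ t : Fin m → E d, ∀ K, IsSelfAffineSet A t K →
      lowerDim K = ENNReal.ofReal (min 1 s) ∧ (1 < s → 1 < assouadDim K) := by
  obtain ⟨θ, hS, hE⟩ := eig_of_eigen hd hm hinj hnorm u hu a ha hdom
  have hA' : ∀ i, ‖A i‖ ≤ 1 / 2 := fun i => (hnorm i).le
  have : Nonempty (Fin m) := ⟨⟨0, by omega⟩⟩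
  have hex : ∀ t, ∃ K, IsSelfAffineSet A t K := fun t => (hutchinson A hA' t).exists
  choose F hF using hex
  have huniq : ∀ t K, IsSelfAffineSet A t K → K = F t := fun t K hK =>
    (hutchinson A hA' t).unique hK (hF t)
  -- the lower bound
  have hlow : ∀ n : ℕ, ∀ᵐ t : Fin m → E d,
      ENNReal.ofReal (min 1 s * (1 - 1 / (n + 2))) ≤ lowerDim (F t) := by
    intro n
    have hn : (0 : ℝ) < 1 / ((n : ℝ) + 2) := by positivity
    have hn1 : 1 / ((n : ℝ) + 2) < 1 := by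
      rw [div_lt_one (by positivity)]
      have : (0 : ℝ) ≤ n := Nat.cast_nonneg n
      linarith
    have hmin : 0 < min 1 s := lt_min one_pos hs
    have h1 : min 1 s * (1 - 1 / ((n : ℝ) + 2)) < min 1 s := by
      have := mul_pos hmin hn
      nlinarith
    have h0 : 0 < min 1 s * (1 - 1 / ((n : ℝ) + 2)) := mul_pos hmin (by linarith)
    filter_upwards [ae_wide hm hE hs hsum h0 (lt_of_lt_of_le h1 (min_le_left _ _))
      (lt_of_lt_of_le h1 (min_le_right _ _)) F hF] with t ht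
    obtain ⟨c, hc, hW⟩ := ht
    exact le_lowerDim hm hE (hF t) h0 hc hW
  have hlow' : ∀ᵐ t : Fin m → E d, ENNReal.ofReal (min 1 s) ≤ lowerDim (F t) := by
    filter_upwards [ae_all_iff.2 hlow] with t ht
    have h1 : Filter.Tendsto (fun n : ℕ => ENNReal.ofReal (min 1 s * (1 - 1 / ((n : ℝ) + 2))))
        Filter.atTop (nhds (ENNReal.ofReal (min 1 s))) := by
      apply ENNReal.tendsto_ofReal
      have h2 : Filter.Tendsto (fun n : ℕ => 1 / ((n : ℝ) + 2)) Filter.atTop (nhds 0) := by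
        have h3 : Filter.Tendsto (fun n : ℕ => ((n : ℝ) + 2)) Filter.atTop Filter.atTop :=
          Filter.tendsto_atTop_add_const_right _ _ tendsto_natCast_atTop_atTop
        simpa [one_div, Function.comp_def] using tendsto_inv_atTop_zero.comp h3
      have h4 := (h2.const_sub 1).const_mul (min 1 s)
      simpa using h4
    exact le_of_tendsto h1 (Filter.Eventually.of_forall ht)
  have hup : ∀ᵐ t : Fin m → E d, lowerDim (F t) ≤ ENNReal.ofReal s := by
    filter_upwards [ae_nontrivial hm hE F hF] with t ht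
    exact lowerDim_le hm hE (hF t) ht hs hsum
  by_cases h1s : 1 < s
  · have hμ : Measure.hausdorffMeasure 1 ({u} : Set (E d)) = 0 := by
      have := Measure.nullSingletonClass_hausdorff (E d) one_pos
      exact measure_singleton u
    have hlt : ∀ i, |a i| < 1 := by
      intro i
      have h2 : |a i| * ‖u‖ ^ 2 ≤ 1 / 2 * ‖u‖ ^ 2 := by
        have h3 := ha i u
        rw [real_inner_self_eq_norm_sq] at h3
        calc |a i| * ‖u‖ ^ 2 = |inner ℝ u (A i u)| := by rw [h3, abs_mul, abs_of_nonneg (sq_nonneg ‖u‖)]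
          _ ≤ ‖u‖ * ‖A i u‖ := abs_real_inner_le_norm _ _
          _ ≤ ‖u‖ * (1 / 2 * ‖u‖) := by
              apply mul_le_mul_of_nonneg_left _ (norm_nonneg _)
              exact ((A i).le_opNorm _).trans (mul_le_mul_of_nonneg_right (hA' i) (norm_nonneg _))
          _ = _ := by ring
      have h3 : 0 < ‖u‖ ^ 2 := pow_pos (norm_pos_iff.2 hu) 2
      have h4 := le_of_mul_le_mul_right h2 h3
      linarith
    have hsum1 : 1 < ∑ i, |a i| := by
      rw [← hsum]
      apply Finset.sum_lt_sum_of_nonempty Finset.univ_nonempty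
      intro i _
      have h2 : 0 < |a i| := abs_pos.2 (hE.ane i)
      calc |a i| ^ s < |a i| ^ (1 : ℝ) := Real.rpow_lt_rpow_of_exponent_gt h2 (hlt i) h1s
        _ = |a i| := Real.rpow_one _
    filter_upwards [hlow', main hd hm hS hμ hsum1] with t ht1 ht2
    intro K hK
    obtain ⟨h2, h3⟩ := ht2 K hK
    rw [huniq t K hK] at h2 h3 ⊢
    refine ⟨?_, fun _ => h3⟩
    rw [min_eq_left h1s.le, ENNReal.ofReal_one] at ht1 ⊢
    exact le_antisymm h2 ht1
  · push Not at h1s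
    filter_upwards [hlow', hup] with t ht1 ht2
    intro K hK
    rw [huniq t K hK]
    refine ⟨?_, fun h => absurd h (not_lt.2 h1s)⟩
    rw [min_eq_right h1s] at ht1 ⊢
    exact le_antisymm ht2 ht1

end Pool.Agent.MP_b039ef_an.AS
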