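import Pool.Agent.Lib.MP_b039ef_an.AS.Key
import Pool.Agent.Lib.MP_b039ef_an.AS.Avg

/-!
# MP_b039ef_an, project AS: the mean number of close pairs
-/

set_option autoImplicit false

namespace Pool.Agent.MP_b039ef_an.AS

open scoped ENNReal NNReal
open MeasureTheory Set

variable {d m : ℕ} {A : Fin m → E d →L[ℝ] E d}

namespace Energy

theorem exists_exp {b L : ℝ} (hb0 : 0 < b) (hb1 : b < 1) (hL : 1 < L) :
    ∃ c : ℝ, 0 < c ∧ c ≤ 1 ∧ 1 < L * b ^ c := by
  have hlb : 0 < -Real.log b := by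
    have := Real.log_neg hb0 hb1
    linarith
  have hlL : 0 < Real.log L := Real.log_pos hL
  refine ⟨min 1 (Real.log L / (2 * -Real.log b)), by positivity, min_le_left _ _, ?_⟩
  set c : ℝ := min 1 (Real.log L / (2 * -Real.log b)) with hc
  have h1 : c ≤ Real.log L / (2 * -Real.log b) := min_le_right _ _
  have h2 : c * -Real.log b ≤ Real.log L / 2 := by
    have h3 := mul_le_mul_of_nonneg_right h1 hlb.le
    have hlb' : Real.log b ≠ 0 := by
      intro h
      rw [h] at hlb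
      simp at hlb
    refine h3.trans (le_of_eq ?_)
    field_simp
  rw [Real.rpow_def_of_pos hb0]
  nth_rewrite 1 [← Real.exp_log (by linarith : (0 : ℝ) < L)]
  rw [← Real.exp_add]
  rw [← Real.exp_zero]
  apply Real.exp_lt_exp.2
  nlinarith

theorem min_le_rpow {z c : ℝ} (hz : 0 < z) (hc0 : 0 < c) (hc1 : c ≤ 1) : min 1 z ≤ z ^ c := by
  rcases le_total 1 z with h | h
  · exact (min_le_left _ _).trans (Real.one_le_rpow h hc0.le)
  · refine (min_le_right _ _).trans ?_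
    have := Real.rpow_le_rpow_of_exponent_ge hz h hc1
    rwa [Real.rpow_one] at this

theorem aw_snoc (a : Fin m → ℝ) (v : List (Fin m)) (i : Fin m) :
    aw a (v ++ [i]) = aw a v * a i := by
  simp [aw]

theorem bound_pair {b c ρ w : ℝ} (hb0 : 0 < b) (hc0 : 0 < c) (hc1 : c ≤ 1) (hρ : 0 < ρ)
    (hw : 0 < w) (k : ℕ) :
    ENNReal.ofReal (ρ / w) * ENNReal.ofReal (min 1 (ρ / b ^ k)) ≤
      ENNReal.ofReal (ρ ^ (1 + c) / (w * (b ^ c) ^ k)) := by
  rw [← ENNReal.ofReal_mul (by positivity)]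
  apply ENNReal.ofReal_le_ofReal
  have h1 : min 1 (ρ / b ^ k) ≤ (ρ / b ^ k) ^ c := min_le_rpow (by positivity) hc0 hc1
  have h2 : (ρ / b ^ k) ^ c = ρ ^ c / (b ^ c) ^ k := by
    rw [Real.div_rpow hρ.le (by positivity), ← Real.rpow_natCast, ← Real.rpow_mul hb0.le,
      mul_comm, Real.rpow_mul hb0.le, Real.rpow_natCast]
  rw [h2] at h1
  calc ρ / w * min 1 (ρ / b ^ k) ≤ ρ / w * (ρ ^ c / (b ^ c) ^ k) :=
        mul_le_mul_of_nonneg_left h1 (by positivity)
    _ = ρ ^ (1 + c) / (w * (b ^ c) ^ k) := by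
        rw [Real.rpow_add hρ, Real.rpow_one]
        field_simp

theorem geom_le {q : ℝ≥0∞} (n : ℕ) : ∑ k ∈ Finset.range n, q ^ k ≤ (1 - q)⁻¹ := by
  rw [← ENNReal.tsum_geometric]
  exact ENNReal.sum_le_tsum _

end Energy

theorem energy (hd : 2 ≤ d) (hm : 2 ≤ m) {U : Set (E d)} {a : Fin m → ℝ} {θ : ℝ} (hS : Sys A U a θ)
    (hsum : 1 < ∑ i, a i) (T : ℝ) :
    ∃ (p : Fin m → ℝ≥0∞) (c : ℝ) (C π : ℝ≥0∞), ∑ i, p i = 1 ∧ 0 < c ∧ C ≠ ⊤ ∧ π < 1 ∧
      ∀ (n : ℕ) (ρ : ℝ), 0 < ρ → ρ ≤ 1 →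
        ∫⁻ t in Metric.closedBall (0 : Fin m → E d) T, SS A p n ρ t ≤
          C * (ENNReal.ofReal (ρ ^ (1 + c)) + π ^ n) := by
  classical
  obtain ⟨C0, hC0, b, hb0, hb1, hkey⟩ := key hd hS T
  set L : ℝ := ∑ i, a i with hL
  have hL0 : 0 < L := by linarith
  obtain ⟨c, hc0, hc1, hcL⟩ := Energy.exists_exp hb0 hb1 hsum
  set bc : ℝ := b ^ c with hbc
  have hbc0 : 0 < bc := Real.rpow_pos_of_pos hb0 c
  set p : Fin m → ℝ≥0∞ := fun i => ENNReal.ofReal (a i / L) with hp
  have hai : ∀ i, 0 < a i / L := fun i => div_pos (hS.pos i) hL0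
  have hsumR : ∑ i, a i / L = 1 := by
    rw [← Finset.sum_div]
    exact div_self hL0.ne'
  have hp1 : ∑ i, p i = 1 := by
    rw [hp, ← ENNReal.ofReal_sum_of_nonneg fun i _ => (hai i).le, hsumR, ENNReal.ofReal_one]
  have hpt : ∀ i, p i ≠ ⊤ := fun i => ENNReal.ofReal_ne_top
  -- the sum of the squares
  have hlt1 : ∀ i, a i / L < 1 := by
    intro i
    obtain ⟨j, hj⟩ : ∃ j : Fin m, j ≠ i := by
      have : Nontrivial (Fin m) := Fin.nontrivial_iff_two_le.2 hm
      exact exists_ne i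
    have h1 : a i / L + a j / L ≤ ∑ k, a k / L := by
      have h2 := Finset.sum_le_sum_of_subset_of_nonneg (Finset.subset_univ {i, j})
        (f := fun k => a k / L) fun k _ _ => (hai k).le
      rwa [Finset.sum_pair hj.symm] at h2
    rw [hsumR] at h1
    have := hai j
    linarith
  have hsqR : ∑ i, (a i / L) ^ 2 < 1 := by
    rw [← hsumR]
    have hne : (Finset.univ : Finset (Fin m)).Nonempty := ⟨⟨0, by omega⟩, Finset.mem_univ _⟩
    refine Finset.sum_lt_sum_of_nonempty hne fun i _ => ?_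
    have h1 := hai i
    have h2 := hlt1 i
    nlinarith
  have hsqE : ∑ i, p i ^ 2 = ENNReal.ofReal (∑ i, (a i / L) ^ 2) := by
    rw [ENNReal.ofReal_sum_of_nonneg fun i _ => sq_nonneg _]
    refine Finset.sum_congr rfl fun i _ => ?_
    rw [hp, ENNReal.ofReal_pow (hai i).le]
  have hπ : ∑ i, p i ^ 2 < 1 := by
    rw [hsqE, ← ENNReal.ofReal_one]
    exact (ENNReal.ofReal_lt_ofReal_iff one_pos).2 hsqR
  set q : ℝ≥0∞ := ENNReal.ofReal (1 / (L * bc)) with hq
  have hq1 : q < 1 := by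
    rw [hq, ← ENNReal.ofReal_one]
    refine (ENNReal.ofReal_lt_ofReal_iff one_pos).2 ?_
    rw [div_lt_one (by positivity)]
    exact hcL
  set M : ℝ≥0∞ := volume (Metric.closedBall (0 : Fin m → E d) T) with hM
  have hMt : M ≠ ⊤ := measure_closedBall_lt_top.ne
  have hinv : (1 - q)⁻¹ ≠ ⊤ := by
    rw [ENNReal.inv_ne_top]
    exact (tsub_pos_of_lt hq1).ne'
  refine ⟨p, c, C0 * (1 - q)⁻¹ + M, ∑ i, p i ^ 2, hp1, hc0,
    ENNReal.add_ne_top.2 ⟨ENNReal.mul_ne_top hC0 hinv, hMt⟩, hπ, ?_⟩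
  intro n ρ hρ hρ1
  -- the general bound
  let ψ : List (Fin m) → List (Fin m) → List (Fin m) → ℝ≥0∞ := fun v w w' =>
    volume {t : Fin m → E d | ‖t‖ ≤ T ∧ ‖Aw A v (zw A w t - zw A w' t)‖ ≤ ρ}
  let Y : List (Fin m) → ℝ≥0∞ := fun v =>
    C0 * ENNReal.ofReal (ρ ^ (1 + c) / (aw a v * bc ^ v.length))
  have h0 : ∀ v, ψ v [] [] ≤ M := by
    intro v
    refine measure_mono fun t ht => ?_
    rw [mem_closedBall_zero_iff]
    exact ht.1
  have h1 : ∀ v w w' i j, i ≠ j → ψ v (i :: w) (j :: w') ≤ Y v := by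
    intro v w w' i j hij
    refine (hkey v w w' i j hij ρ hρ).trans ?_
    have := Energy.bound_pair hb0 hc0 hc1 hρ (aw_pos hS.pos v) v.length
    exact mul_le_mul_right this C0
  have h2 : ∀ v w w' i, ψ v (i :: w) (i :: w') ≤ ψ (v ++ [i]) w w' := by
    intro v w w' i
    refine measure_mono fun t ht => ⟨ht.1, ?_⟩
    have h3 : zw A (i :: w) t - zw A (i :: w') t = A i (zw A w t - zw A w' t) := by
      have e1 : ∀ w, zw A (i :: w) t = t i + A i (zw A w t) := fun w => rfl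
      rw [e1, e1, map_sub]
      abel
    have h4 := ht.2
    rw [h3] at h4
    rw [Aw_append]
    exact h4
  have h3 : ∀ v, ∑ i, p i ^ 2 * Y (v ++ [i]) ≤ q * Y v := by
    intro v
    have hav := aw_pos hS.pos v
    have e1 : ∀ i, p i ^ 2 * Y (v ++ [i]) =
        C0 * ENNReal.ofReal (a i / L * (1 / (L * bc)) *
          (ρ ^ (1 + c) / (aw a v * bc ^ v.length))) := by
      intro i
      have hi := hS.pos i
      have hi' := hai i
      have e2 : p i ^ 2 = ENNReal.ofReal ((a i / L) ^ 2) := by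
        rw [hp, ENNReal.ofReal_pow (hai i).le]
      have e3 : Y (v ++ [i]) = C0 * ENNReal.ofReal (ρ ^ (1 + c) /
          (aw a v * a i * bc ^ (v.length + 1))) := by
        change C0 * ENNReal.ofReal (ρ ^ (1 + c) / (aw a (v ++ [i]) * bc ^ (v ++ [i]).length)) = _
        rw [Energy.aw_snoc, List.length_append, List.length_singleton]
      rw [e2, e3, mul_left_comm, ← ENNReal.ofReal_mul (by positivity)]
      congr 2
      have hρc : 0 < ρ ^ (1 + c) := Real.rpow_pos_of_pos hρ _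
      field_simp
      try ring
    simp only [e1]
    rw [← Finset.mul_sum, ← ENNReal.ofReal_sum_of_nonneg]
    · rw [← Finset.sum_mul, ← Finset.sum_mul, hsumR, one_mul,
        ENNReal.ofReal_mul (by positivity)]
      change C0 * (q * ENNReal.ofReal (ρ ^ (1 + c) / (aw a v * bc ^ v.length))) ≤
        q * (C0 * ENNReal.ofReal (ρ ^ (1 + c) / (aw a v * bc ^ v.length)))
      rw [mul_left_comm]
    · intro i _
      have hi' := hai i
      have hρc : 0 < ρ ^ (1 + c) := Real.rpow_pos_of_pos hρ _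
      positivity
  have hb := avg_bound p hp1 ψ Y q M h0 h1 h2 h3 n []
  have hY : Y [] = C0 * ENNReal.ofReal (ρ ^ (1 + c)) := by
    change C0 * ENNReal.ofReal (ρ ^ (1 + c) / (aw a [] * bc ^ ([] : List (Fin m)).length)) = _
    simp [aw]
  -- the integral
  have hcl : ∀ w w' : List (Fin m),
      MeasurableSet {t : Fin m → E d | ‖zw A w t - zw A w' t‖ ≤ ρ} := by
    intro w w'
    refine (isClosed_le ?_ continuous_const).measurableSet
    exact ((zw A w).continuous.sub (zw A w').continuous).norm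
  have hind : ∀ w w' : List (Fin m), Measurable fun t : Fin m → E d =>
      {t : Fin m → E d | ‖zw A w t - zw A w' t‖ ≤ ρ}.indicator (1 : (Fin m → E d) → ℝ≥0∞) t :=
    fun w w' => measurable_one.indicator (hcl w w')
  have hin := fun w : List (Fin m) => lintegral_avg p
    (volume.restrict (Metric.closedBall (0 : Fin m → E d) T)) n
    (fun t w' => {t : Fin m → E d | ‖zw A w t - zw A w' t‖ ≤ ρ}.indicator
      (1 : (Fin m → E d) → ℝ≥0∞) t) (fun w' => hind w w') hpt
  have hout := lintegral_avg p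
    (volume.restrict (Metric.closedBall (0 : Fin m → E d) T)) n
    (fun t w => avg p n fun w' => {t : Fin m → E d | ‖zw A w t - zw A w' t‖ ≤ ρ}.indicator
      (1 : (Fin m → E d) → ℝ≥0∞) t) (fun w => (hin w).1) hpt
  have hval : ∀ w w' : List (Fin m),
      ∫⁻ t in Metric.closedBall (0 : Fin m → E d) T,
        {t : Fin m → E d | ‖zw A w t - zw A w' t‖ ≤ ρ}.indicator
          (1 : (Fin m → E d) → ℝ≥0∞) t = ψ [] w w' := by
    intro w w'
    have e1 : (fun t : Fin m → E d => {t : Fin m → E d | ‖zw A w t - zw A w' t‖ ≤ ρ}.indicator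
          (1 : (Fin m → E d) → ℝ≥0∞) t) =
        {t : Fin m → E d | ‖zw A w t - zw A w' t‖ ≤ ρ}.indicator fun _ => 1 := rfl
    rw [e1, lintegral_indicator_const (hcl w w'), one_mul,
      Measure.restrict_apply (hcl w w')]
    change volume _ = volume {t : Fin m → E d | ‖t‖ ≤ T ∧ ‖zw A w t - zw A w' t‖ ≤ ρ}
    congr 1
    ext t
    rw [Set.mem_inter_iff, mem_closedBall_zero_iff, Set.mem_ofPred_eq, Set.mem_ofPred_eq]
    exact and_comm
  have hint : ∫⁻ t in Metric.closedBall (0 : Fin m → E d) T, SS A p n ρ t =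
      avg p n fun w => avg p n (ψ [] w) := by
    have e1 : (fun t : Fin m → E d => SS A p n ρ t) = fun t => avg p n fun w =>
        avg p n fun w' => {t : Fin m → E d | ‖zw A w t - zw A w' t‖ ≤ ρ}.indicator
          (1 : (Fin m → E d) → ℝ≥0∞) t := rfl
    rw [e1, hout.2]
    congr 1
    funext w
    rw [(hin w).2]
    congr 1
    funext w'
    exact hval w w'
  rw [hint]
  refine hb.trans ?_
  rw [hY]
  calc C0 * ENNReal.ofReal (ρ ^ (1 + c)) * ∑ k ∈ Finset.range n, q ^ k +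
        M * (∑ i, p i ^ 2) ^ n
      ≤ C0 * ENNReal.ofReal (ρ ^ (1 + c)) * (1 - q)⁻¹ + M * (∑ i, p i ^ 2) ^ n := by
        gcongr
        exact Energy.geom_le n
    _ = (C0 * (1 - q)⁻¹) * ENNReal.ofReal (ρ ^ (1 + c)) + M * (∑ i, p i ^ 2) ^ n := by ring
    _ ≤ (C0 * (1 - q)⁻¹ + M) * ENNReal.ofReal (ρ ^ (1 + c)) +
        (C0 * (1 - q)⁻¹ + M) * (∑ i, p i ^ 2) ^ n := by
        gcongr
        · exact le_self_add
        · exact le_add_self
    _ = _ := by ring

end Pool.Agent.MP_b039ef_an.AS
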