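import Pool.Agent.Lib.MP_b039ef_an.AS.Basic

/-!
# MP_b039ef_an, project AS: an open set of systems
-/

set_option autoImplicit false

namespace Pool.Agent.MP_b039ef_an.AS

open scoped ENNReal NNReal RealInnerProductSpace
open MeasureTheory Set

namespace Open

section core

variable {F : Type*} [NormedAddCommGroup F] [InnerProductSpace ℝ F]

/-- The model map `(2/5) P + β (1 - P)`. -/
noncomputable def A0 (e : F) (β : ℝ) : F →L[ℝ] F :=
  (2 / 5 - β) • (innerSL ℝ e).smulRight e + β • ContinuousLinearMap.id ℝ F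

theorem A0_apply (e : F) (β : ℝ) (x : F) :
    A0 e β x = ((2 / 5 - β) * ⟪e, x⟫) • e + β • x := by
  simp [A0, smul_smul]

variable {e : F} (he : ‖e‖ = 1)
include he

theorem inner_ee : ⟪e, e⟫ = 1 := by
  rw [real_inner_self_eq_norm_sq, he, one_pow]

theorem proj_norm (x : F) : ‖x - ⟪e, x⟫ • e‖ ≤ ‖x‖ := by
  have h : ‖x - ⟪e, x⟫ • e‖ ^ 2 = ‖x‖ ^ 2 - ⟪e, x⟫ ^ 2 := by
    rw [norm_sub_sq_real, norm_smul, he, mul_one, inner_smul_right, real_inner_comm,
      Real.norm_eq_abs, sq_abs]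
    ring
  have h2 : ‖x - ⟪e, x⟫ • e‖ ^ 2 ≤ ‖x‖ ^ 2 := by rw [h]; nlinarith [sq_nonneg ⟪e, x⟫]
  exact (sq_le_sq₀ (norm_nonneg _) (norm_nonneg _)).1 h2

theorem inner_le (x : F) : |⟪e, x⟫| ≤ ‖x‖ := by
  have := abs_real_inner_le_norm e x
  rwa [he, one_mul] at this

omit he in
theorem inner_A0 (β : ℝ) (u x : F) : ⟪u, A0 e β x⟫ = ⟪A0 e β u, x⟫ := by
  rw [A0_apply, A0_apply, inner_add_right, inner_add_left, inner_smul_right, inner_smul_right,
    inner_smul_left, inner_smul_left, real_inner_comm e u]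
  simp
  ring

theorem A0_norm {β : ℝ} (hβ0 : 0 ≤ β) (hβ : β ≤ 2 / 5) (x : F) : ‖A0 e β x‖ ≤ 2 / 5 * ‖x‖ := by
  rw [A0_apply]
  refine (norm_add_le _ _).trans ?_
  rw [norm_smul, norm_smul, he, mul_one, Real.norm_eq_abs, Real.norm_eq_abs, abs_mul,
    abs_of_nonneg hβ0, abs_of_nonneg (by linarith : 0 ≤ 2 / 5 - β)]
  nlinarith [mul_le_mul_of_nonneg_left (inner_le he x) (by linarith : 0 ≤ 2 / 5 - β)]

omit he in
theorem A0_coer {β : ℝ} (hβ : β ≤ 2 / 5) (x : F) : β * ‖x‖ ^ 2 ≤ ⟪x, A0 e β x⟫ := by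
  rw [A0_apply, inner_add_right, inner_smul_right, inner_smul_right, real_inner_self_eq_norm_sq,
    real_inner_comm e x]
  have := mul_nonneg (by linarith : 0 ≤ 2 / 5 - β) (sq_nonneg ⟪e, x⟫)
  nlinarith

omit he in
theorem A0_perp {β : ℝ} {x : F} (hx : ⟪e, x⟫ = 0) : A0 e β x = β • x := by
  rw [A0_apply, hx, mul_zero, zero_smul, zero_add]

/-- The set of the vectors `u` with `⟨e, u⟩ = 1` and `‖u - e‖ ≤ 1`. -/
def K0 (e : F) : Set F := {u | ⟪e, u⟫ = 1 ∧ ‖u - e‖ ≤ 1}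

omit he in
theorem K0_norm (he : ‖e‖ = 1) {u : F} (hu : u ∈ K0 e) : ‖u‖ ≤ 2 := by
  have h : ‖u‖ ≤ ‖u - e‖ + ‖e‖ := by simpa using norm_add_le (u - e) e
  linarith [hu.2]

/-- The projective action of `B`. -/
noncomputable def gm (e : F) (B : F →L[ℝ] F) (u : F) : F := ⟪e, B u⟫⁻¹ • B u

section lem

variable {β : ℝ} {B : F →L[ℝ] F}

theorem N_le (hβ0 : 0 < β) (hB : ‖B - A0 e β‖ ≤ β / 2) {u : F} (hu : u ∈ K0 e) :
    |⟪e, B u⟫ - 2 / 5| ≤ β := by
  have h1 : ⟪e, B u⟫ - 2 / 5 = ⟪e, (B - A0 e β) u⟫ := by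
    rw [sub_apply, inner_sub_right, A0_apply, inner_add_right,
      inner_smul_right, inner_smul_right, inner_ee he, hu.1]
    ring
  rw [h1]
  refine (inner_le he _).trans (((B - A0 e β).le_opNorm u).trans ?_)
  have := K0_norm he hu
  nlinarith [norm_nonneg u, norm_nonneg (B - A0 e β)]

theorem N_pos (hβ0 : 0 < β) (hβ : β ≤ 1 / 300) (hB : ‖B - A0 e β‖ ≤ β / 2) {u : F}
    (hu : u ∈ K0 e) : 39 / 100 ≤ ⟪e, B u⟫ := by
  have := (abs_le.1 (N_le he hβ0 hB hu)).1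
  linarith

theorem gm_mem (hβ0 : 0 < β) (hβ : β ≤ 1 / 300) (hB : ‖B - A0 e β‖ ≤ β / 2) {u : F}
    (hu : u ∈ K0 e) : gm e B u ∈ K0 e := by
  have hN := N_pos he hβ0 hβ hB hu
  have hN0 : ⟪e, B u⟫ ≠ 0 := by linarith
  refine ⟨?_, ?_⟩
  · rw [gm, inner_smul_right, inv_mul_cancel₀ hN0]
  · have h1 : gm e B u - e = ⟪e, B u⟫⁻¹ • (B u - ⟪e, B u⟫ • e) := by
      rw [gm, smul_sub, smul_smul, inv_mul_cancel₀ hN0, one_smul]
    have h2 : B u - ⟪e, B u⟫ • e = β • (u - e) +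
        ((B - A0 e β) u - ⟪e, (B - A0 e β) u⟫ • e) := by
      rw [sub_apply, inner_sub_right, A0_apply, inner_add_right,
        inner_smul_right, inner_smul_right, inner_ee he, hu.1]
      module
    have h3 : ‖B u - ⟪e, B u⟫ • e‖ ≤ 2 * β := by
      rw [h2]
      refine (norm_add_le _ _).trans ?_
      rw [norm_smul, Real.norm_eq_abs, abs_of_pos hβ0]
      have h4 := proj_norm he ((B - A0 e β) u)
      have h5 := (B - A0 e β).le_opNorm u
      have h6 := K0_norm he hu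
      have h7 := hu.2
      nlinarith [norm_nonneg u, norm_nonneg (B - A0 e β), norm_nonneg (u - e)]
    rw [h1, norm_smul, norm_inv, Real.norm_eq_abs, abs_of_pos (by linarith), inv_mul_le_iff₀
      (by linarith)]
    linarith

theorem gm_lip (hβ0 : 0 < β) (hβ : β ≤ 1 / 300) (hB : ‖B - A0 e β‖ ≤ β / 2) {u v : F}
    (hu : u ∈ K0 e) (hv : v ∈ K0 e) : ‖gm e B u - gm e B v‖ ≤ 7 * β * ‖u - v‖ := by
  have hN := N_pos he hβ0 hβ hB hu
  have hM := N_pos he hβ0 hβ hB hv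
  have hw : ⟪e, u - v⟫ = 0 := by rw [inner_sub_right, hu.1, hv.1, sub_self]
  have h1 : gm e B u - gm e B v = ⟪e, B u⟫⁻¹ • B (u - v) +
      (⟪e, B u⟫⁻¹ - ⟪e, B v⟫⁻¹) • B v := by
    rw [gm, gm, map_sub]
    module
  have hΔ : ‖(B - A0 e β) (u - v)‖ ≤ β / 2 * ‖u - v‖ :=
    ((B - A0 e β).le_opNorm _).trans (mul_le_mul_of_nonneg_right hB (norm_nonneg _))
  have h2 : B (u - v) = β • (u - v) + (B - A0 e β) (u - v) := by
    rw [sub_apply, A0_perp hw]
    abel
  have h3 : ‖B (u - v)‖ ≤ 3 / 2 * β * ‖u - v‖ := by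
    rw [h2]
    refine (norm_add_le _ _).trans ?_
    rw [norm_smul, Real.norm_eq_abs, abs_of_pos hβ0]
    linarith
  have h4 : |⟪e, B u⟫ - ⟪e, B v⟫| ≤ β / 2 * ‖u - v‖ := by
    rw [← inner_sub_right, ← map_sub, h2, inner_add_right, inner_smul_right, hw, mul_zero,
      zero_add]
    exact (inner_le he _).trans hΔ
  have h5 : ‖B v‖ ≤ 41 / 50 := by
    have h6 : B v = A0 e β v + (B - A0 e β) v := by
      rw [sub_apply]
      abel
    have h7 := A0_norm he hβ0.le (by linarith) v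
    have h8 := (B - A0 e β).le_opNorm v
    have h9 := K0_norm he hv
    rw [h6]
    refine (norm_add_le _ _).trans ?_
    nlinarith [norm_nonneg v, norm_nonneg (B - A0 e β)]
  have h6 : |⟪e, B u⟫⁻¹ - ⟪e, B v⟫⁻¹| ≤ β / 2 * ‖u - v‖ / (39 / 100) ^ 2 := by
    rw [inv_sub_inv (by linarith) (by linarith), abs_div, abs_sub_comm, abs_of_pos
      (mul_pos (by linarith) (by linarith) : 0 < ⟪e, B u⟫ * ⟪e, B v⟫)]
    refine div_le_div₀ (by positivity) h4 (by norm_num) ?_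
    rw [sq]
    exact mul_le_mul hN hM (by norm_num) (by linarith)
  rw [h1]
  refine (norm_add_le _ _).trans ?_
  rw [norm_smul, norm_smul, Real.norm_eq_abs, Real.norm_eq_abs, abs_of_pos
    (inv_pos.2 (by linarith) : 0 < ⟪e, B u⟫⁻¹)]
  have h7 : ⟪e, B u⟫⁻¹ ≤ 100 / 39 := by
    rw [inv_le_comm₀ (by linarith) (by norm_num)]
    norm_num
    linarith
  have h8 : ⟪e, B u⟫⁻¹ * ‖B (u - v)‖ ≤ 100 / 39 * (3 / 2 * β * ‖u - v‖) :=
    mul_le_mul h7 h3 (norm_nonneg _) (by norm_num)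
  have h9 : |⟪e, B u⟫⁻¹ - ⟪e, B v⟫⁻¹| * ‖B v‖ ≤
      β / 2 * ‖u - v‖ / (39 / 100) ^ 2 * (41 / 50) :=
    mul_le_mul h6 h5 (norm_nonneg _) (by positivity)
  have h10 : 0 ≤ β * ‖u - v‖ := by positivity
  have e8 : 100 / 39 * (3 / 2 * β * ‖u - v‖) = 50 / 13 * (β * ‖u - v‖) := by ring
  have e9 : β / 2 * ‖u - v‖ / (39 / 100) ^ 2 * (41 / 50) = 4100 / 1521 * (β * ‖u - v‖) := by
    ring
  rw [e8] at h8
  rw [e9] at h9
  linarith

end lem

/-- The conclusion for `inner u (T x)` in terms of the adjoint. -/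
theorem ker_contr {β : ℝ} (hβ0 : 0 < β) (hβ : β ≤ 1 / 300) {T : F →L[ℝ] F}
    (hT : ‖T - A0 e β‖ ≤ β / 2) {u : F} (hu : u ∈ K0 e) {x : F} (hx : ⟪u, T x⟫ = 0) :
    ‖T x‖ ≤ 1 / 2 * (2 / 5 - β) * ‖x‖ := by
  have hΔ : ‖(T - A0 e β) x‖ ≤ β / 2 * ‖x‖ :=
    ((T - A0 e β).le_opNorm _).trans (mul_le_mul_of_nonneg_right hT (norm_nonneg _))
  have h1 : T x = (2 / 5 * ⟪e, x⟫) • e + β • (x - ⟪e, x⟫ • e) + (T - A0 e β) x := by
    rw [sub_apply, A0_apply]
    module
  have h2 : ⟪u, T x⟫ = 2 / 5 * ⟪e, x⟫ + β * ⟪u - e, x⟫ + ⟪u, (T - A0 e β) x⟫ := by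
    rw [h1, inner_add_right, inner_add_right, inner_smul_right, inner_smul_right,
      inner_sub_right, inner_smul_right, inner_sub_left, real_inner_comm e u, hu.1]
    ring
  have h3 : |⟪u - e, x⟫| ≤ ‖x‖ := by
    refine (abs_real_inner_le_norm _ _).trans ?_
    nlinarith [hu.2, norm_nonneg x]
  have h4 : |⟪u, (T - A0 e β) x⟫| ≤ β * ‖x‖ := by
    refine (abs_real_inner_le_norm _ _).trans ?_
    have := K0_norm he hu
    nlinarith [norm_nonneg x, norm_nonneg ((T - A0 e β) x), norm_nonneg u]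
  have h5 : 2 / 5 * |⟪e, x⟫| ≤ 2 * β * ‖x‖ := by
    have h6 : 2 / 5 * ⟪e, x⟫ = -(β * ⟪u - e, x⟫ + ⟪u, (T - A0 e β) x⟫) := by linarith
    have h7 : 2 / 5 * |⟪e, x⟫| = |2 / 5 * ⟪e, x⟫| := by
      rw [abs_mul, abs_of_pos (by norm_num : (0 : ℝ) < 2 / 5)]
    rw [h7, h6, abs_neg]
    refine (abs_add_le _ _).trans ?_
    rw [abs_mul, abs_of_pos hβ0]
    nlinarith
  rw [h1]
  refine (norm_add_le _ _).trans ?_
  refine le_trans (add_le_add_left (norm_add_le _ _) _) ?_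
  rw [norm_smul, norm_smul, he, mul_one, Real.norm_eq_abs, Real.norm_eq_abs, abs_mul,
    abs_of_pos hβ0, abs_of_pos (by norm_num : (0 : ℝ) < 2 / 5)]
  have h8 := proj_norm he x
  have h9 := norm_nonneg x
  nlinarith [mul_nonneg hβ0.le h9]

end core

section limit

variable {X : Type*} [MetricSpace X] {m : ℕ}

/-- The iterated images of `K`. -/
def XX (g : Fin m → X → X) (K : Set X) : ℕ → Set X
  | 0 => K
  | n + 1 => ⋃ i, g i '' XX g K n

variable {g : Fin m → X → X} {K : Set X} {κ : ℝ≥0}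

omit [MetricSpace X] in
theorem XX_sub (hg : ∀ i, ∀ u ∈ K, g i u ∈ K) : ∀ n, XX g K n ⊆ K ∧ XX g K (n + 1) ⊆ XX g K n
  | 0 => by
    refine ⟨subset_rfl, ?_⟩
    intro y hy
    obtain ⟨i, u, hu, rfl⟩ := mem_iUnion.1 hy
    exact hg i u hu
  | n + 1 => by
    obtain ⟨h1, h2⟩ := XX_sub hg n
    refine ⟨h2.trans h1, ?_⟩
    intro y hy
    obtain ⟨i, u, hu, rfl⟩ := mem_iUnion.1 hy
    exact mem_iUnion.2 ⟨i, u, h2 hu, rfl⟩

theorem XX_comp (hK : IsCompact K) (hg : ∀ i, ∀ u ∈ K, g i u ∈ K)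
    (hl : ∀ i, LipschitzOnWith κ (g i) K) : ∀ n, IsCompact (XX g K n)
  | 0 => hK
  | n + 1 => isCompact_iUnion fun i => (XX_comp hK hg hl n).image_of_continuousOn
      ((hl i).continuousOn.mono (XX_sub hg n).1)

omit [MetricSpace X] in
theorem XX_ne (hm : 0 < m) (hK : K.Nonempty) : ∀ n, (XX g K n).Nonempty
  | 0 => hK
  | n + 1 => by
    obtain ⟨u, hu⟩ := XX_ne hm hK n
    exact ⟨g ⟨0, hm⟩ u, mem_iUnion.2 ⟨⟨0, hm⟩, u, hu, rfl⟩⟩

theorem XX_cover (hK : Metric.ediam K ≤ 2) (hg : ∀ i, ∀ u ∈ K, g i u ∈ K)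
    (hl : ∀ i, LipschitzOnWith κ (g i) K) (n : ℕ) :
    ∃ c : (Fin n → Fin m) → Set X, XX g K n ⊆ ⋃ w, c w ∧ (∀ w, c w ⊆ K) ∧
      ∀ w, Metric.ediam (c w) ≤ (κ : ℝ≥0∞) ^ n * 2 := by
  induction n with
  | zero =>
    refine ⟨fun _ => K, ?_, fun _ => subset_rfl, fun _ => by simpa using hK⟩
    intro y hy
    exact mem_iUnion.2 ⟨Fin.elim0, hy⟩
  | succ n ih =>
    obtain ⟨c, hc1, hc2, hc3⟩ := ih
    refine ⟨fun w => g (w 0) '' c (Fin.tail w), ?_, ?_, ?_⟩
    · intro y hy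
      obtain ⟨i, u, hu, rfl⟩ := mem_iUnion.1 hy
      obtain ⟨w, hw⟩ := mem_iUnion.1 (hc1 hu)
      refine mem_iUnion.2 ⟨Fin.cons i w, u, ?_, ?_⟩
      · simpa using hw
      · simp
    · rintro w _ ⟨u, hu, rfl⟩
      exact hg _ u (hc2 _ hu)
    · intro w
      rw [pow_succ', mul_assoc]
      refine Metric.ediam_image_le_iff.2 fun x hx y hy => ?_
      refine ((hl (w 0)) (hc2 _ hx) (hc2 _ hy)).trans (mul_le_mul_right ?_ _)
      exact (Metric.edist_le_ediam_of_mem hx hy).trans (hc3 _)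

variable [MeasurableSpace X] [BorelSpace X]

theorem limit_set (hm : 0 < m) (hK : IsCompact K) (hKn : K.Nonempty)
    (hKd : Metric.ediam K ≤ 2) (hg : ∀ i, ∀ u ∈ K, g i u ∈ K)
    (hl : ∀ i, LipschitzOnWith κ (g i) K) (hκ : (m : ℝ≥0∞) * κ < 1) :
    ∃ U : Set X, IsCompact U ∧ U.Nonempty ∧ U ⊆ K ∧ (∀ i, ∀ u ∈ U, g i u ∈ U) ∧
      Measure.hausdorffMeasure 1 U = 0 := by
  refine ⟨⋂ n, XX g K n, ?_, ?_, ?_, ?_, ?_⟩
  · exact (XX_comp hK hg hl 0).of_isClosed_subset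
      (isClosed_iInter fun n => (XX_comp hK hg hl n).isClosed) (iInter_subset _ 0)
  · exact IsCompact.nonempty_iInter_of_sequence_nonempty_isCompact_isClosed _
      (fun n => (XX_sub hg n).2) (XX_ne hm hKn) (XX_comp hK hg hl 0)
      (fun n => (XX_comp hK hg hl n).isClosed)
  · exact iInter_subset _ 0
  · intro i u hu
    rw [mem_iInter] at hu ⊢
    intro n
    exact (XX_sub hg n).2 (mem_iUnion.2 ⟨i, u, hu n, rfl⟩)
  · choose c hc1 hc2 hc3 using fun n => XX_cover hKd hg hl n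
    have hm1 : (1 : ℝ≥0∞) ≤ m := by exact_mod_cast hm
    have hκ1 : (κ : ℝ≥0∞) < 1 := lt_of_le_of_lt
      (by simpa using mul_le_mul_left hm1 (κ : ℝ≥0∞)) hκ
    have ht : Filter.Tendsto (fun n : ℕ => (κ : ℝ≥0∞) ^ n * 2) Filter.atTop (nhds 0) := by
      have := ENNReal.Tendsto.mul_const (b := 2) (ENNReal.tendsto_pow_atTop_nhds_zero_of_lt_one hκ1)
        (Or.inr (by norm_num))
      simpa using this
    have h := Measure.hausdorffMeasure_le_liminf_sum (l := Filter.atTop) 1 (⋂ n, XX g K n)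
      (fun n : ℕ => (κ : ℝ≥0∞) ^ n * 2) ht c (Filter.Eventually.of_forall fun n w => hc3 n w)
      (Filter.Eventually.of_forall fun n => (iInter_subset _ n).trans (hc1 n))
    refine le_antisymm (h.trans ?_) bot_le
    have h2 : ∀ n : ℕ, ∑ w, Metric.ediam (c n w) ^ (1 : ℝ) ≤ ((m : ℝ≥0∞) * κ) ^ n * 2 := by
      intro n
      refine (Finset.sum_le_card_nsmul _ _ ((κ : ℝ≥0∞) ^ n * 2) fun w _ => ?_).trans ?_
      · rw [ENNReal.rpow_one]
        exact hc3 n w
      · rw [Finset.card_univ, Fintype.card_fun, Fintype.card_fin, Fintype.card_fin,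
          nsmul_eq_mul, mul_pow]
        push_cast
        rw [mul_assoc]
    have h3 : Filter.Tendsto (fun n : ℕ => ((m : ℝ≥0∞) * κ) ^ n * 2) Filter.atTop (nhds 0) := by
      have := ENNReal.Tendsto.mul_const (b := 2) (ENNReal.tendsto_pow_atTop_nhds_zero_of_lt_one hκ)
        (Or.inr (by norm_num))
      simpa using this
    rw [← h3.liminf_eq]
    exact Filter.liminf_le_liminf (Filter.Eventually.of_forall h2)

end limit

end Open

open Open in
theorem exists_open (d m : ℕ) (hd : 2 ≤ d) (hm : 3 ≤ m) :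
    ∃ O : Set (Fin m → E d →L[ℝ] E d), IsOpen O ∧ O.Nonempty ∧ ∀ A ∈ O,
      (∀ i, Function.Bijective (A i)) ∧ ∃ (U : Set (E d)) (a : Fin m → ℝ) (θ : ℝ),
        Sys A U a θ ∧ Measure.hausdorffMeasure 1 U = 0 ∧ 1 < ∑ i, a i := by
  obtain ⟨e, he⟩ : ∃ e : E d, ‖e‖ = 1 :=
    ⟨EuclideanSpace.single ⟨0, by omega⟩ 1, by simp⟩
  have hm3 : (3 : ℝ) ≤ m := by exact_mod_cast hm
  obtain ⟨β, hβd⟩ : ∃ β : ℝ, β = 1 / (100 * m) := ⟨_, rfl⟩
  have hβm : m * β = 1 / 100 := by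
    rw [hβd]
    field_simp
  have hβ0 : 0 < β := by
    rw [hβd]
    positivity
  have hβ : β ≤ 1 / 300 := by nlinarith
  refine ⟨{A | ∀ i, ‖A i - A0 e β‖ < β / 2}, ?_, ⟨fun _ => A0 e β, fun i => ?_⟩, ?_⟩
  · rw [ofPred_forall]
    exact isOpen_iInter_of_finite fun i =>
      isOpen_lt (((continuous_apply i).sub continuous_const).norm) continuous_const
  · simp only [sub_self, norm_zero]
    positivity
  intro A hA
  have hA' : ∀ i, ‖A i - A0 e β‖ ≤ β / 2 := fun i => (hA i).le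
  have hΔ : ∀ i (x : E d), ‖(A i - A0 e β) x‖ ≤ β / 2 * ‖x‖ := fun i x =>
    ((A i - A0 e β).le_opNorm _).trans (mul_le_mul_of_nonneg_right (hA' i) (norm_nonneg _))
  have hinj : ∀ i, Function.Injective (A i) := by
    intro i
    rw [injective_iff_map_eq_zero]
    intro x hx
    by_contra hx0
    have h1 := A0_coer (e := e) (β := β) (by linarith) x
    have h2 : inner ℝ x (A0 e β x) = - inner ℝ x ((A i - A0 e β) x) := by
      rw [sub_apply, hx, zero_sub, inner_neg_right, neg_neg]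
    have h3 := abs_real_inner_le_norm x ((A i - A0 e β) x)
    have h4 := (abs_le.1 h3).1
    have h5 := hΔ i x
    have h6 : 0 < ‖x‖ := norm_pos_iff.2 hx0
    have h7 := mul_le_mul_of_nonneg_left h5 h6.le
    have h8 : 0 < β * ‖x‖ ^ 2 := by positivity
    nlinarith
  refine ⟨fun i => ⟨hinj i, ?_⟩, ?_⟩
  · exact (LinearMap.injective_iff_surjective (f := (A i).toLinearMap)).1 (hinj i)
  -- the adjoint maps
  have hadj : ∀ i, ‖ContinuousLinearMap.adjoint (A i) - A0 e β‖ ≤ β / 2 := by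
    intro i
    have h1 : A0 e β = ContinuousLinearMap.adjoint (A0 e β) := by
      rw [ContinuousLinearMap.eq_adjoint_iff]
      intro x y
      exact (inner_A0 β x y).symm
    have h2 : ContinuousLinearMap.adjoint (A i) - A0 e β =
        ContinuousLinearMap.adjoint (A i - A0 e β) := by
      rw [map_sub, ← h1]
    rw [h2, LinearIsometryEquiv.norm_map]
    exact hA' i
  let κ : ℝ≥0 := ⟨7 * β, by positivity⟩
  have hK0c : IsCompact (K0 e) := by
    have h1 : K0 e = Metric.closedBall e 1 ∩ {u | inner ℝ e u = 1} := by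
      ext u
      simp only [K0, mem_ofPred_eq, mem_inter_iff, mem_closedBall_iff_norm]
      exact and_comm
    rw [h1]
    exact (isCompact_closedBall e 1).inter_right
      (isClosed_eq (continuous_const.inner continuous_id) continuous_const)
  have hK0n : (K0 e).Nonempty := ⟨e, inner_ee he, by simp⟩
  have hK0d : Metric.ediam (K0 e) ≤ 2 := by
    refine Metric.ediam_le fun u hu v hv => ?_
    rw [edist_dist, dist_eq_norm]
    refine ENNReal.ofReal_le_of_le_toReal ?_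
    have h1 : u - v = (u - e) - (v - e) := by abel
    rw [h1]
    refine (norm_sub_le _ _).trans ?_
    have := hu.2
    have := hv.2
    norm_num
    linarith
  obtain ⟨U, hU1, hU2, hU3, hU4, hU5⟩ := limit_set (κ := κ) (m := m)
    (g := fun i u => gm e (ContinuousLinearMap.adjoint (A i)) u) (K := K0 e) (by omega) hK0c
    hK0n hK0d (fun i u hu => gm_mem he hβ0 hβ (hadj i) hu)
    (fun i => LipschitzOnWith.of_dist_le_mul fun u hu v hv => by
      rw [dist_eq_norm, dist_eq_norm]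
      exact gm_lip he hβ0 hβ (hadj i) hu hv)
    (by
      have h1 : ((m : ℝ≥0∞) * κ) = ENNReal.ofReal (7 / 100) := by
        have h2 : (κ : ℝ≥0∞) = ENNReal.ofReal (7 * β) := by
          rw [ENNReal.ofReal, Real.toNNReal_of_nonneg (by positivity)]
          rfl
        rw [h2, ← ENNReal.ofReal_natCast, ← ENNReal.ofReal_mul (by positivity)]
        congr 1
        linarith
      rw [h1, ← ENNReal.ofReal_one]
      exact (ENNReal.ofReal_lt_ofReal_iff one_pos).2 (by norm_num))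
  refine ⟨U, fun _ => 2 / 5 - β, 1 / 2, ?_, hU5, ?_⟩
  · refine ⟨hinj, ?_, hU1, hU2, ?_, fun i => by linarith, by norm_num, by norm_num, ?_⟩
    · intro i
      refine lt_of_le_of_lt (ContinuousLinearMap.opNorm_le_bound _ (M := 2 / 5 + β / 2)
        (by positivity) fun x => ?_) (by linarith)
      have h1 : A i x = A0 e β x + (A i - A0 e β) x := by
        rw [sub_apply]
        abel
      rw [h1]
      refine (norm_add_le _ _).trans ?_
      have := A0_norm he hβ0.le (by linarith) x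
      have := hΔ i x
      linarith
    · intro h0
      have := (hU3 h0).1
      rw [inner_zero_right] at this
      norm_num at this
    · intro u hu i
      have huK := hU3 hu
      have hN := N_le he hβ0 (hadj i) huK
      have hNp := N_pos he hβ0 hβ (hadj i) huK
      refine ⟨inner ℝ e (ContinuousLinearMap.adjoint (A i) u), _, hU4 i u hu, ?_, ?_, ?_⟩
      · rw [abs_of_pos (by linarith)]
        linarith [(abs_le.1 hN).1]
      · intro x
        rw [gm, inner_smul_left, ContinuousLinearMap.adjoint_inner_left]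
        simp only [map_inv₀, conj_trivial]
        rw [← mul_assoc, mul_inv_cancel₀ (by linarith), one_mul]
      · intro x hx
        refine (ker_contr he hβ0 hβ (hA' i) huK hx).trans ?_
        refine mul_le_mul_of_nonneg_right (mul_le_mul_of_nonneg_left ?_ (by norm_num))
          (norm_nonneg _)
        rw [abs_of_pos (by linarith)]
        linarith [(abs_le.1 hN).1]
  · rw [Finset.sum_const, Finset.card_univ, Fintype.card_fin, nsmul_eq_mul, mul_sub, hβm]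
    linarith

end Pool.Agent.MP_b039ef_an.AS
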