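import Pool.Agent.Lib.MP_b039ef_an.AS.Supp

/-!
# MP_b039ef_an, project AS: orbits of maximizers
-/

set_option autoImplicit false

namespace Pool.Agent.MP_b039ef_an.AS

open scoped ENNReal NNReal
open MeasureTheory Set

variable {d m : ℕ} {A : Fin m → E d →L[ℝ] E d}

private theorem orbit_inv {U : Set (E d)} {a : Fin m → ℝ} {θ : ℝ} (hS : Sys A U a θ)
    {u : E d} (hu : u ∈ U ∨ -u ∈ U) (i : Fin m) :
    ∃ c : ℝ, ∃ u' : E d, (u' ∈ U ∨ -u' ∈ U) ∧ a i ≤ c ∧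
      (∀ x, inner ℝ u (A i x) = c * inner ℝ u' x) ∧
      ∀ x, inner ℝ u (A i x) = 0 → ‖A i x‖ ≤ θ * c * ‖x‖ := by
  have h1 : ∃ c : ℝ, ∃ u' ∈ U, a i ≤ |c| ∧ (∀ x, inner ℝ u (A i x) = c * inner ℝ u' x) ∧
      ∀ x, inner ℝ u (A i x) = 0 → ‖A i x‖ ≤ θ * |c| * ‖x‖ := by
    rcases hu with hu | hu
    · exact hS.inv u hu i
    · obtain ⟨c, u', hu', h2, h3, h4⟩ := hS.inv (-u) hu i
      refine ⟨-c, u', hu', by rw [abs_neg]; exact h2, ?_, ?_⟩
      · intro x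
        have h5 := h3 x
        rw [inner_neg_left] at h5
        linarith
      · intro x hx
        rw [abs_neg]
        refine h4 x ?_
        rw [inner_neg_left, hx, neg_zero]
  obtain ⟨c, u', hu', h2, h3, h4⟩ := h1
  have hpos := hS.pos i
  rcases le_or_gt 0 c with hc | hc
  · rw [abs_of_nonneg hc] at h2 h4
    exact ⟨c, u', Or.inl hu', h2, h3, h4⟩
  · rw [abs_of_neg hc] at h2 h4
    refine ⟨-c, -u', Or.inr (by rw [neg_neg]; exact hu'), h2, ?_, h4⟩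
    intro x
    rw [inner_neg_left, h3 x]
    ring

private theorem orbit_comp {U : Set (E d)} (hU : IsCompact U) :
    IsCompact {u : E d | u ∈ U ∨ -u ∈ U} := by
  have h1 : {u : E d | u ∈ U ∨ -u ∈ U} = U ∪ (fun u => -u) '' U := by
    ext u
    simp only [mem_ofPred_eq, mem_union, mem_image]
    constructor
    · rintro (h | h)
      · exact Or.inl h
      · exact Or.inr ⟨-u, h, neg_neg u⟩
    · rintro (h | ⟨v, hv, rfl⟩)
      · exact Or.inl h
      · right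
        rw [neg_neg]
        exact hv
  rw [h1]
  exact hU.union (hU.image continuous_neg)

private theorem orbit_gap {U : Set (E d)} {a : Fin m → ℝ} {θ : ℝ} (hS : Sys A U a θ)
    {t : Fin m → E d} {K : Set (E d)} (hK : IsSelfAffineSet A t K)
    (hno : ∀ u : E d, (u ∈ U ∨ -u ∈ U) → ∀ i j, i ≠ j → hI A t K i u ≠ hI A t K j u)
    (i j : Fin m) : ∃ γ : ℝ, 0 < γ ∧ (i ≠ j → ∀ u : E d, (u ∈ U ∨ -u ∈ U) →
      γ ≤ |hI A t K i u - hI A t K j u|) := by
  by_cases hij : i = j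
  · exact ⟨1, one_pos, fun h => absurd hij h⟩
  have hA : ∀ i, ‖A i‖ ≤ 1 / 2 := fun i => (hS.norm i).le
  have hcont : ∀ i, Continuous (hI A t K i) := by
    intro i
    refine (LipschitzWith.of_dist_le' (K := 2 * ‖t‖) ?_).continuous
    intro u v
    rw [Real.dist_eq, dist_eq_norm]
    exact hI_lip hA hK i u v
  have hc : Continuous fun u => |hI A t K i u - hI A t K j u| :=
    ((hcont i).sub (hcont j)).abs
  obtain ⟨u0, hu0⟩ := hS.ne
  have hne : {u : E d | u ∈ U ∨ -u ∈ U}.Nonempty := ⟨u0, Or.inl hu0⟩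
  obtain ⟨u1, hu1, hmin⟩ := (orbit_comp hS.comp).exists_isMinOn hne hc.continuousOn
  refine ⟨|hI A t K i u1 - hI A t K j u1|, ?_, fun _ u hu => hmin hu⟩
  rw [abs_pos]
  exact sub_ne_zero.mpr (hno u1 hu1 i j hij)

theorem exists_orbit {U : Set (E d)} {a : Fin m → ℝ} {θ : ℝ} (hS : Sys A U a θ)
    {t : Fin m → E d} {K : Set (E d)} (hK : IsSelfAffineSet A t K)
    (hno : ∀ u : E d, (u ∈ U ∨ -u ∈ U) → ∀ i j, i ≠ j → hI A t K i u ≠ hI A t K j u) :
    ∃ (α B γ : ℝ) (x u : ℕ → E d) (w : ℕ → Fin m) (c : ℕ → ℝ), Orb A t K θ α B γ x u w c := by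
  have hpre : ∀ x ∈ K, ∃ i, ∃ y ∈ K, A i y + t i = x := by
    intro x hx
    rw [hK.2.2] at hx
    obtain ⟨i, y, hy, rfl⟩ := mem_iUnion.1 hx
    exact ⟨i, y, hy, rfl⟩
  obtain ⟨k0, hk0⟩ := hK.1
  obtain ⟨i0, -⟩ := hpre k0 hk0
  have : Nonempty (Fin m) := ⟨i0⟩
  obtain ⟨u0, hu0⟩ := hS.ne
  have hne : {u : E d | u ∈ U ∨ -u ∈ U}.Nonempty := ⟨u0, Or.inl hu0⟩
  have hcomp := orbit_comp hS.comp
  obtain ⟨ur, hur, hmin⟩ := hcomp.exists_isMinOn hne (continuous_norm (E := E d)).continuousOn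
  obtain ⟨uB, huB, hmax⟩ := hcomp.exists_isMaxOn hne (continuous_norm (E := E d)).continuousOn
  have hur0 : 0 < ‖ur‖ := by
    rw [norm_pos_iff]
    rintro rfl
    rcases hur with h | h
    · exact hS.ne0 h
    · rw [neg_zero] at h
      exact hS.ne0 h
  obtain ⟨ia, hia⟩ := Finite.exists_min a
  choose γ' hγ' hγ using fun p : Fin m × Fin m => orbit_gap hS hK hno p.1 p.2
  obtain ⟨pγ, hpγ⟩ := Finite.exists_min γ'
  set α : ℝ := min ‖ur‖ (a ia) with hα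
  set γ : ℝ := γ' pγ with hγdef
  have hgapU : ∀ u : E d, (u ∈ U ∨ -u ∈ U) → ∀ i j, i ≠ j →
      γ ≤ |hI A t K i u - hI A t K j u| := fun u hu i j hij =>
    (hpγ (i, j)).trans (hγ (i, j) hij u hu)
  have hstep : ∀ s : {p : E d × E d // p.1 ∈ K ∧ (p.2 ∈ U ∨ -p.2 ∈ U) ∧
      ∀ y ∈ K, inner ℝ p.2 y ≤ inner ℝ p.2 p.1},
      ∃ (s' : {p : E d × E d // p.1 ∈ K ∧ (p.2 ∈ U ∨ -p.2 ∈ U) ∧
        ∀ y ∈ K, inner ℝ p.2 y ≤ inner ℝ p.2 p.1}) (w : Fin m) (c : ℝ), α ≤ c ∧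
        s.1.1 = A w s'.1.1 + t w ∧ (∀ y, inner ℝ s.1.2 (A w y) = c * inner ℝ s'.1.2 y) ∧
        (∀ y, inner ℝ s.1.2 (A w y) = 0 → ‖A w y‖ ≤ θ * c * ‖y‖) ∧
        ∀ j, j ≠ w → ∀ y ∈ K, inner ℝ s.1.2 (A j y + t j) ≤ inner ℝ s.1.2 s.1.1 - γ := by
    rintro ⟨⟨x, u⟩, hx, hu, hm⟩
    simp only at hx hu hm ⊢
    obtain ⟨w, hw⟩ := Finite.exists_max fun i => hI A t K i u
    have h1 : hI A t K w u ≤ inner ℝ u x := by
      obtain ⟨x1, hx1, h2⟩ := exists_hI hK w u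
      rw [← h2]
      exact hm _ (image_mem hK w hx1)
    have h2 : ∀ j, j ≠ w → hI A t K j u ≤ hI A t K w u - γ := by
      intro j hj
      have h3 := hgapU u hu j w hj
      have h4 := hw j
      rw [abs_of_nonpos (by linarith)] at h3
      linarith
    obtain ⟨i, y, hy, hxy⟩ := hpre x hx
    have h3 : i = w := by
      by_contra hne
      have h4 := h2 i hne
      have h5 := le_hI hK i u hy
      rw [hxy] at h5
      have h6 : 0 < γ := hγ' pγ
      linarith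
    subst h3
    obtain ⟨c, u', hu', hc, hadj, hcontr⟩ := orbit_inv hS hu i
    have hcpos : 0 < c := (hS.pos i).trans_le hc
    refine ⟨⟨(y, u'), hy, hu', ?_⟩, i, c, ?_, hxy.symm, hadj, hcontr, ?_⟩
    · intro y' hy'
      have h4 := hm _ (image_mem hK i hy')
      rw [← hxy, inner_add_right, inner_add_right, hadj, hadj] at h4
      have h5 : c * inner ℝ u' y' ≤ c * inner ℝ u' y := by linarith
      exact le_of_mul_le_mul_left h5 hcpos
    · exact (min_le_right _ _).trans ((hia i).trans hc)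
    · intro j hj y' hy'
      have h4 := le_hI hK j u hy'
      have h5 := h2 j hj
      linarith
  choose nx w c hc hx hadj hcontr hgap using hstep
  obtain ⟨x0, hx0, hmx0⟩ := hK.2.1.exists_isMaxOn ⟨k0, hk0⟩
    (continuous_const.inner continuous_id : Continuous fun x : E d => inner ℝ u0 x).continuousOn
  set s0 : {p : E d × E d // p.1 ∈ K ∧ (p.2 ∈ U ∨ -p.2 ∈ U) ∧
      ∀ y ∈ K, inner ℝ p.2 y ≤ inner ℝ p.2 p.1} :=
    ⟨(x0, u0), hx0, Or.inl hu0, fun y hy => hmx0 hy⟩ with hs0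
  have hsucc : ∀ n, nx^[n + 1] s0 = nx (nx^[n] s0) := fun n => Function.iterate_succ_apply' _ _ _
  refine ⟨α, ‖uB‖, γ, fun n => (nx^[n] s0).1.1, fun n => (nx^[n] s0).1.2,
    fun n => w (nx^[n] s0), fun n => c (nx^[n] s0), ?_⟩
  refine
    { mem := fun n => (nx^[n] s0).2.1
      αpos := lt_min hur0 (hS.pos ia)
      αc := fun n => hc _
      αu := fun n => (min_le_left _ _).trans (hmin (nx^[n] s0).2.2.1)
      uB := fun n => hmax (nx^[n] s0).2.2.1
      γpos := hγ' pγ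
      step := fun n => ?_
      adj := fun n y => ?_
      contr := fun n y => hcontr _ y
      max := fun n y hy => (nx^[n] s0).2.2.2 y hy
      gap := fun n j hj y hy => hgap _ j hj y hy }
  · simp only [hsucc]
    exact hx _
  · simp only [hsucc]
    exact hadj _ y

end Pool.Agent.MP_b039ef_an.AS
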