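import Pool.Agent.Lib.MP_b039ef_an.AS.Supp

/-!
# MP_b039ef_an, project AS: the maximizer of a direction of `U` is a thin point
-/

set_option autoImplicit false

namespace Pool.Agent.MP_b039ef_an.AS

open scoped ENNReal NNReal
open MeasureTheory Set Filter

variable {d m : ℕ} {A : Fin m → E d →L[ℝ] E d}

namespace Thin

/-- products of the constants -/
noncomputable def Cn (c : ℕ → ℝ) : ℕ → ℝ
  | 0 => 1
  | n + 1 => Cn c n * c n

/-- products of the maps along the orbit -/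
def Pn (A : Fin m → E d →L[ℝ] E d) (w : ℕ → Fin m) : ℕ → E d →L[ℝ] E d
  | 0 => ContinuousLinearMap.id ℝ (E d)
  | n + 1 => (Pn A w n).comp (A (w n))

section

variable {t : Fin m → E d} {K : Set (E d)} {θ α B γ : ℝ} {x u : ℕ → E d}
  {w : ℕ → Fin m} {c : ℕ → ℝ}

theorem c_pos (hO : Orb A t K θ α B γ x u w c) (n : ℕ) : 0 < c n :=
  lt_of_lt_of_le hO.αpos (hO.αc n)

theorem Cn_pos (hO : Orb A t K θ α B γ x u w c) (n : ℕ) : 0 < Cn c n := by
  induction n with
  | zero => exact one_pos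
  | succ n ih => exact mul_pos ih (c_pos hO n)

theorem u_pos (hO : Orb A t K θ α B γ x u w c) (n : ℕ) : 0 < ‖u n‖ :=
  lt_of_lt_of_le hO.αpos (hO.αu n)

theorem inner_Pn (hO : Orb A t K θ α B γ x u w c) (n : ℕ) (z : E d) :
    inner ℝ (u 0) (Pn A w n z) = Cn c n * inner ℝ (u n) z := by
  induction n generalizing z with
  | zero => simp [Pn, Cn]
  | succ n ih =>
    have h : Pn A w (n + 1) z = Pn A w n (A (w n) z) := rfl
    rw [h, ih, hO.adj]
    show Cn c n * (c n * _) = Cn c n * c n * _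
    ring

theorem norm_Pn (hO : Orb A t K θ α B γ x u w c) (hθ0 : 0 < θ) (n : ℕ) (z : E d)
    (hz : inner ℝ (u n) z = 0) : ‖Pn A w n z‖ ≤ θ ^ n * Cn c n * ‖z‖ := by
  induction n generalizing z with
  | zero => simp [Pn, Cn]
  | succ n ih =>
    have h : Pn A w (n + 1) z = Pn A w n (A (w n) z) := rfl
    have h1 : inner ℝ (u n) (A (w n) z) = 0 := by rw [hO.adj, hz, mul_zero]
    rw [h]
    calc ‖Pn A w n (A (w n) z)‖ ≤ θ ^ n * Cn c n * ‖A (w n) z‖ := ih _ h1
      _ ≤ θ ^ n * Cn c n * (θ * c n * ‖z‖) := by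
          apply mul_le_mul_of_nonneg_left (hO.contr n z h1)
          exact mul_nonneg (pow_nonneg hθ0.le _) (Cn_pos hO n).le
      _ = θ ^ (n + 1) * Cn c (n + 1) * ‖z‖ := by
          show _ = θ ^ (n + 1) * (Cn c n * c n) * ‖z‖
          ring

theorem c_le (hO : Orb A t K θ α B γ x u w c) (hA : ∀ i, ‖A i‖ ≤ 1 / 2) (n : ℕ) :
    c n * ‖u (n + 1)‖ ≤ 1 / 2 * ‖u n‖ := by
  have h1 := hO.adj n (u (n + 1))
  rw [real_inner_self_eq_norm_sq] at h1
  have h2 : inner ℝ (u n) (A (w n) (u (n + 1))) ≤ ‖u n‖ * (1 / 2 * ‖u (n + 1)‖) := by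
    refine (real_inner_le_norm _ _).trans ?_
    apply mul_le_mul_of_nonneg_left _ (norm_nonneg _)
    exact ((A (w n)).le_opNorm _).trans (mul_le_mul_of_nonneg_right (hA _) (norm_nonneg _))
  rw [h1] at h2
  have h3 := u_pos hO (n + 1)
  have h4 : (c n * ‖u (n + 1)‖) * ‖u (n + 1)‖ ≤ (1 / 2 * ‖u n‖) * ‖u (n + 1)‖ := by nlinarith
  exact le_of_mul_le_mul_right h4 h3

theorem Cn_u (hO : Orb A t K θ α B γ x u w c) (hA : ∀ i, ‖A i‖ ≤ 1 / 2) (k n : ℕ) :
    Cn c (k + n) * ‖u (k + n)‖ ≤ (1 / 2) ^ n * (Cn c k * ‖u k‖) := by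
  induction n with
  | zero => simp
  | succ n ih =>
    have h1 := c_le hO hA (k + n)
    have h2 := Cn_pos hO (k + n)
    show Cn c (k + n) * c (k + n) * ‖u (k + n + 1)‖ ≤ _
    calc Cn c (k + n) * c (k + n) * ‖u (k + n + 1)‖
        = Cn c (k + n) * (c (k + n) * ‖u (k + n + 1)‖) := by ring
      _ ≤ Cn c (k + n) * (1 / 2 * ‖u (k + n)‖) := mul_le_mul_of_nonneg_left h1 h2.le
      _ = 1 / 2 * (Cn c (k + n) * ‖u (k + n)‖) := by ring
      _ ≤ 1 / 2 * ((1 / 2) ^ n * (Cn c k * ‖u k‖)) := mul_le_mul_of_nonneg_left ih (by norm_num)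
      _ = _ := by ring

theorem B_pos (hO : Orb A t K θ α B γ x u w c) : 0 < B :=
  lt_of_lt_of_le (u_pos hO 0) (hO.uB 0)

theorem Cn_ge (hO : Orb A t K θ α B γ x u w c) (hA : ∀ i, ‖A i‖ ≤ 1 / 2) {k n : ℕ}
    (hkn : k ≤ n) : α / B * Cn c n ≤ Cn c k := by
  obtain ⟨l, rfl⟩ := Nat.exists_eq_add_of_le hkn
  have h1 := Cn_u hO hA k l
  have h2 : ((1 : ℝ) / 2) ^ l ≤ 1 := pow_le_one₀ (by norm_num) (by norm_num)
  have h3 : 0 ≤ Cn c k * ‖u k‖ := mul_nonneg (Cn_pos hO k).le (norm_nonneg _)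
  have h4 : Cn c (k + l) * α ≤ Cn c (k + l) * ‖u (k + l)‖ :=
    mul_le_mul_of_nonneg_left (hO.αu _) (Cn_pos hO _).le
  have h5 : Cn c k * ‖u k‖ ≤ Cn c k * B := mul_le_mul_of_nonneg_left (hO.uB _) (Cn_pos hO _).le
  have h6 : (1 / 2) ^ l * (Cn c k * ‖u k‖) ≤ Cn c k * ‖u k‖ := mul_le_of_le_one_left h3 h2
  have hB := B_pos hO
  rw [div_mul_eq_mul_div, div_le_iff₀ hB]
  linarith

theorem Cn_le (hO : Orb A t K θ α B γ x u w c) (hA : ∀ i, ‖A i‖ ≤ 1 / 2) (n : ℕ) :
    Cn c n ≤ (1 / 2) ^ n * (B / α) := by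
  have h1 := Cn_u hO hA 0 n
  rw [Nat.zero_add] at h1
  have h4 : Cn c n * α ≤ Cn c n * ‖u n‖ :=
    mul_le_mul_of_nonneg_left (hO.αu _) (Cn_pos hO _).le
  have h5 : ((1 : ℝ) / 2) ^ n * (Cn c 0 * ‖u 0‖) ≤ (1 / 2) ^ n * B := by
    apply mul_le_mul_of_nonneg_left _ (by positivity)
    show 1 * ‖u 0‖ ≤ B
    rw [one_mul]
    exact hO.uB 0
  have hα := hO.αpos
  rw [← mul_div_assoc, le_div_iff₀ hα]
  linarith

/-- isolation of the point `x 0` -/
theorem isolation (hO : Orb A t K θ α B γ x u w c) (hK : IsSelfAffineSet A t K)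
    (hA : ∀ i, ‖A i‖ ≤ 1 / 2) (n k : ℕ) (hkn : k ≤ n) {y : E d} (hy : y ∈ K)
    (hlt : inner ℝ (u 0) (x 0 - y) < γ * (α / B * Cn c n)) :
    ∃ z ∈ K, y = x 0 + Pn A w k (z - x k) := by
  induction k with
  | zero =>
    refine ⟨y, hy, ?_⟩
    show y = x 0 + (y - x 0)
    abel
  | succ k ih =>
    obtain ⟨z, hz, hyz⟩ := ih (by omega)
    have hz' := hz
    rw [hK.2.2] at hz'
    obtain ⟨j, z', hz'K, hzz'⟩ := Set.mem_iUnion.1 hz'
    have hj : j = w k := by
      by_contra hne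
      have h1 := hO.gap k j hne z' hz'K
      have h2 : A j z' + t j = z := hzz'
      rw [h2] at h1
      have h3 : inner ℝ (u 0) (x 0 - y) = Cn c k * inner ℝ (u k) (x k - z) := by
        rw [← inner_Pn hO, hyz]
        congr 1
        rw [map_sub, map_sub]
        abel
      have h4 : γ ≤ inner ℝ (u k) (x k - z) := by
        rw [inner_sub_right]
        linarith
      have h5 := Cn_ge hO hA (show k ≤ n by omega)
      have h6 := Cn_pos hO k
      have h7 : γ * (α / B * Cn c n) ≤ Cn c k * inner ℝ (u k) (x k - z) := by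
        calc γ * (α / B * Cn c n) ≤ γ * Cn c k := mul_le_mul_of_nonneg_left h5 hO.γpos.le
          _ = Cn c k * γ := mul_comm _ _
          _ ≤ _ := mul_le_mul_of_nonneg_left h4 h6.le
      linarith
    refine ⟨z', hz'K, ?_⟩
    rw [hyz]
    congr 1
    show Pn A w k (z - x k) = Pn A w k (A (w k) (z' - x (k + 1)))
    congr 1
    have h2 : A j z' + t j = z := hzz'
    rw [← h2, hO.step k, hj, map_sub]
    abel

/-- the vector dual to `u n` -/
noncomputable def en (u : ℕ → E d) (n : ℕ) : E d := (1 / ‖u n‖ ^ 2) • u n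

theorem inner_en (hO : Orb A t K θ α B γ x u w c) (n : ℕ) : inner ℝ (u n) (en u n) = 1 := by
  have h := u_pos hO n
  rw [en, real_inner_smul_right, real_inner_self_eq_norm_sq]
  field_simp

theorem norm_en (hO : Orb A t K θ α B γ x u w c) (n : ℕ) : ‖en u n‖ ≤ 1 / α := by
  have h := u_pos hO n
  have h1 : ‖en u n‖ = 1 / ‖u n‖ := by
    rw [en, norm_smul, Real.norm_of_nonneg (by positivity)]
    field_simp
  rw [h1]
  exact one_div_le_one_div_of_le hO.αpos (hO.αu n)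

/-- the constant of `norm_Pn_en` -/
noncomputable def D1 (α B : ℝ) : ℝ := 1 / α + B / α * (1 / α)

theorem norm_Pn_en (hO : Orb A t K θ α B γ x u w c) (hA : ∀ i, ‖A i‖ ≤ 1 / 2) (hθ0 : 0 < θ)
    (n : ℕ) : ‖Pn A w n (en u n)‖ ≤
      (1 / α + D1 α B / α * ∑ k ∈ Finset.range n, θ ^ k) * Cn c n := by
  have hα := hO.αpos
  have hB := B_pos hO
  induction n with
  | zero =>
    show ‖en u 0‖ ≤ _
    simp only [Finset.range_zero, Finset.sum_empty, mul_zero, add_zero, Cn, mul_one]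
    exact norm_en hO 0
  | succ n ih =>
    set v := A (w n) (en u (n + 1)) with hv
    set z := v - c n • en u n with hz
    have h1 : inner ℝ (u n) z = 0 := by
      rw [hz, inner_sub_right, hv, hO.adj, inner_en hO, real_inner_smul_right, inner_en hO]
      ring
    have hcB : c n ≤ B / α := by
      have h2 := c_le hO hA n
      have h3 := hO.αu (n + 1)
      have h4 := hO.uB n
      have h5 := c_pos hO n
      rw [le_div_iff₀ hα]
      nlinarith
    have h2 : ‖z‖ ≤ D1 α B := by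
      have h3 : ‖v‖ ≤ 1 / α := by
        calc ‖v‖ ≤ ‖A (w n)‖ * ‖en u (n + 1)‖ := (A (w n)).le_opNorm _
          _ ≤ 1 * (1 / α) := mul_le_mul ((hA _).trans (by norm_num)) (norm_en hO _)
              (norm_nonneg _) zero_le_one
          _ = _ := one_mul _
      have h4 : ‖c n • en u n‖ ≤ B / α * (1 / α) := by
        rw [norm_smul, Real.norm_of_nonneg (c_pos hO n).le]
        exact mul_le_mul hcB (norm_en hO n) (norm_nonneg _) (by positivity)
      calc ‖z‖ ≤ ‖v‖ + ‖c n • en u n‖ := norm_sub_le _ _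
        _ ≤ _ := add_le_add h3 h4
    have h3 : Pn A w (n + 1) (en u (n + 1)) = c n • Pn A w n (en u n) + Pn A w n z := by
      show Pn A w n (A (w n) (en u (n + 1))) = _
      rw [← hv, hz, map_sub, map_smul]
      abel
    have hC := Cn_pos hO n
    have hD1 : 0 ≤ D1 α B := by unfold D1; positivity
    have hcn := c_pos hO n
    have h4 : ‖Pn A w n z‖ ≤ θ ^ n * Cn c n * D1 α B :=
      (norm_Pn hO hθ0 n z h1).trans (mul_le_mul_of_nonneg_left h2 (by positivity))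
    have h5 : θ ^ n * Cn c n * D1 α B ≤ D1 α B / α * θ ^ n * (Cn c n * c n) := by
      have h6 : 1 ≤ c n / α := by
        rw [le_div_iff₀ hα, one_mul]
        exact hO.αc n
      calc θ ^ n * Cn c n * D1 α B = (θ ^ n * Cn c n * D1 α B) * 1 := by ring
        _ ≤ (θ ^ n * Cn c n * D1 α B) * (c n / α) :=
            mul_le_mul_of_nonneg_left h6 (by positivity)
        _ = _ := by ring
    calc ‖Pn A w (n + 1) (en u (n + 1))‖
        ≤ ‖c n • Pn A w n (en u n)‖ + ‖Pn A w n z‖ := by rw [h3]; exact norm_add_le _ _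
      _ ≤ c n * ((1 / α + D1 α B / α * ∑ k ∈ Finset.range n, θ ^ k) * Cn c n) +
          D1 α B / α * θ ^ n * (Cn c n * c n) := by
          apply add_le_add _ (h4.trans h5)
          rw [norm_smul, Real.norm_of_nonneg hcn.le]
          exact mul_le_mul_of_nonneg_left ih hcn.le
      _ = _ := by
          rw [Finset.sum_range_succ]
          show _ = _ * (Cn c n * c n)
          ring

/-- the constant `Q` -/
noncomputable def Q (α B θ : ℝ) : ℝ := 1 / α + D1 α B / α * (1 - θ)⁻¹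

theorem norm_Pn_en' (hO : Orb A t K θ α B γ x u w c) (hA : ∀ i, ‖A i‖ ≤ 1 / 2) (hθ0 : 0 < θ)
    (hθ1 : θ < 1) (n : ℕ) : ‖Pn A w n (en u n)‖ ≤ Q α B θ * Cn c n := by
  refine (norm_Pn_en hO hA hθ0 n).trans ?_
  apply mul_le_mul_of_nonneg_right _ (Cn_pos hO n).le
  unfold Q
  have hα := hO.αpos
  have hB := B_pos hO
  have hD1 : 0 ≤ D1 α B := by unfold D1; positivity
  have h1 : ∑ k ∈ Finset.range n, θ ^ k ≤ (1 - θ)⁻¹ := by
    have h2 := (summable_geometric_of_lt_one hθ0.le hθ1).sum_le_tsum (Finset.range n)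
      (fun i _ => pow_nonneg hθ0.le i)
    rwa [tsum_geometric_of_lt_one hθ0.le hθ1] at h2
  have h3 : D1 α B / α * ∑ k ∈ Finset.range n, θ ^ k ≤ D1 α B / α * (1 - θ)⁻¹ :=
    mul_le_mul_of_nonneg_left h1 (by positivity)
  linarith

/-- covering a neighbourhood of a segment -/
theorem cover_segment (S : Set (E d)) (x0 p : E d) (L ε r : ℝ) (hL : 0 < L) (N : ℕ) (hN : 0 < N)
    (hS : ∀ y ∈ S, ∃ s : ℝ, |s| ≤ L ∧ ‖y - x0 - s • p‖ ≤ ε)
    (hr : 2 * L / N * ‖p‖ + 2 * ε ≤ r) : coverNum r S ≤ ((N + 1 : ℕ) : ℕ∞) := by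
  have hN' : (0 : ℝ) < N := by exact_mod_cast hN
  let V : Fin (N + 1) → Set (E d) := fun k => {y | ∃ s : ℝ, -L + 2 * L / N * (k : ℕ) ≤ s ∧
    s ≤ -L + 2 * L / N * ((k : ℕ) + 1) ∧ ‖y - x0 - s • p‖ ≤ ε}
  apply coverNum_le r S (N + 1) V
  · intro k
    apply Metric.ediam_le
    rintro y ⟨s, hs1, hs2, hs3⟩ y' ⟨s', hs1', hs2', hs3'⟩
    rw [edist_dist, dist_eq_norm]
    apply ENNReal.ofReal_le_ofReal
    refine le_trans ?_ hr
    have h1 : y - y' = (y - x0 - s • p) - (y' - x0 - s' • p) + (s - s') • p := by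
      rw [sub_smul]
      abel
    have h2 : |s - s'| ≤ 2 * L / N := by
      rw [abs_le]
      constructor <;> linarith
    calc ‖y - y'‖ ≤ ‖(y - x0 - s • p) - (y' - x0 - s' • p)‖ + ‖(s - s') • p‖ := by
          rw [h1]; exact norm_add_le _ _
      _ ≤ (ε + ε) + 2 * L / N * ‖p‖ := by
          apply add_le_add
          · exact (norm_sub_le _ _).trans (add_le_add hs3 hs3')
          · rw [norm_smul, Real.norm_eq_abs]
            exact mul_le_mul_of_nonneg_right h2 (norm_nonneg _)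
      _ = _ := by ring
  · intro y hy
    obtain ⟨s, hs, hs'⟩ := hS y hy
    rw [abs_le] at hs
    rw [Set.mem_iUnion]
    have h0 : 0 ≤ (s + L) / (2 * L / N) := div_nonneg (by linarith) (by positivity)
    have h2L : 0 < 2 * L / N := by positivity
    have h1 : (s + L) / (2 * L / N) ≤ N := by
      rw [div_le_iff₀ h2L]
      have : (N : ℝ) * (2 * L / N) = 2 * L := by field_simp
      linarith
    have h2 : ⌊(s + L) / (2 * L / N)⌋₊ < N + 1 := by
      have h3 := Nat.floor_le h0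
      have h4 : (⌊(s + L) / (2 * L / N)⌋₊ : ℝ) ≤ (N : ℝ) := h3.trans h1
      have h5 : ⌊(s + L) / (2 * L / N)⌋₊ ≤ N := by exact_mod_cast h4
      omega
    refine ⟨⟨⌊(s + L) / (2 * L / N)⌋₊, h2⟩, s, ?_, ?_, hs'⟩
    · have h3 := Nat.floor_le h0
      rw [le_div_iff₀ h2L] at h3
      show -L + 2 * L / N * (⌊(s + L) / (2 * L / N)⌋₊ : ℝ) ≤ s
      linarith
    · have h3 := Nat.lt_floor_add_one ((s + L) / (2 * L / N))
      rw [div_lt_iff₀ h2L] at h3
      show s ≤ -L + 2 * L / N * ((⌊(s + L) / (2 * L / N)⌋₊ : ℝ) + 1)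
      linarith

/-- the constant `H` -/
noncomputable def H (α B θ D : ℝ) : ℝ := 2 * (B * D) * Q α B θ + 2 * (D + B * D * (1 / α))

theorem cover_thin (hO : Orb A t K θ α B γ x u w c) (hK : IsSelfAffineSet A t K)
    (hA : ∀ i, ‖A i‖ ≤ 1 / 2) (hθ0 : 0 < θ) (hθ1 : θ < 1) {D : ℝ} (hD : 0 < D)
    (hKD : ∀ y ∈ K, ∀ z ∈ K, ‖y - z‖ ≤ D) (n : ℕ) :
    coverNum (Cn c n * θ ^ n * H α B θ D)
      (Metric.closedBall (x 0) (γ * (α / B * Cn c n) / (2 * B)) ∩ K) ≤
        ((⌈(θ ^ n)⁻¹⌉₊ + 1 : ℕ) : ℕ∞) := by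
  have hα := hO.αpos
  have hB := B_pos hO
  have hC := Cn_pos hO n
  have hθn : 0 < θ ^ n := pow_pos hθ0 n
  have hγ := hO.γpos
  apply cover_segment _ (x 0) (Pn A w n (en u n)) (B * D)
    (θ ^ n * Cn c n * (D + B * D * (1 / α))) _ (by positivity) _
    (Nat.ceil_pos.2 (by positivity))
  · rintro y ⟨hy1, hy2⟩
    rw [Metric.mem_closedBall, dist_eq_norm] at hy1
    have h1 : inner ℝ (u 0) (x 0 - y) < γ * (α / B * Cn c n) := by
      have h2 : inner ℝ (u 0) (x 0 - y) ≤ B * (γ * (α / B * Cn c n) / (2 * B)) := by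
        refine (real_inner_le_norm _ _).trans ?_
        rw [norm_sub_rev] at hy1
        exact mul_le_mul (hO.uB 0) hy1 (norm_nonneg _) hB.le
      have h3 : B * (γ * (α / B * Cn c n) / (2 * B)) = γ * (α / B * Cn c n) / 2 := by
        field_simp
      have h4 : 0 < γ * (α / B * Cn c n) := by positivity
      linarith
    obtain ⟨z, hz, hyz⟩ := isolation hO hK hA n n le_rfl hy2 h1
    have hzx : ‖z - x n‖ ≤ D := hKD z hz _ (hO.mem n)
    have hs : |inner ℝ (u n) (z - x n)| ≤ B * D :=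
      (abs_real_inner_le_norm _ _).trans (mul_le_mul (hO.uB n) hzx (norm_nonneg _) hB.le)
    refine ⟨inner ℝ (u n) (z - x n), hs, ?_⟩
    set s := inner ℝ (u n) (z - x n) with hsdef
    have h5 : y - x 0 - s • Pn A w n (en u n) = Pn A w n (z - x n - s • en u n) := by
      rw [hyz, map_sub (Pn A w n) (z - x n), map_smul]
      abel
    rw [h5]
    have h6 : inner ℝ (u n) (z - x n - s • en u n) = 0 := by
      rw [inner_sub_right, real_inner_smul_right, inner_en hO, ← hsdef]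
      ring
    refine (norm_Pn hO hθ0 n _ h6).trans ?_
    apply mul_le_mul_of_nonneg_left _ (by positivity)
    calc ‖z - x n - s • en u n‖ ≤ ‖z - x n‖ + ‖s • en u n‖ := norm_sub_le _ _
      _ ≤ D + B * D * (1 / α) := by
          apply add_le_add hzx
          rw [norm_smul, Real.norm_eq_abs]
          exact mul_le_mul hs (norm_en hO n) (norm_nonneg _) (by positivity)
  · have h1 := norm_Pn_en' hO hA hθ0 hθ1 n
    have h2 : (θ ^ n)⁻¹ ≤ (⌈(θ ^ n)⁻¹⌉₊ : ℝ) := Nat.le_ceil _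
    have h3 : 2 * (B * D) / (⌈(θ ^ n)⁻¹⌉₊ : ℝ) ≤ 2 * (B * D) * θ ^ n := by
      rw [div_le_iff₀ (lt_of_lt_of_le (by positivity) h2)]
      calc 2 * (B * D) = 2 * (B * D) * θ ^ n * (θ ^ n)⁻¹ := by field_simp
        _ ≤ _ := mul_le_mul_of_nonneg_left h2 (by positivity)
    calc 2 * (B * D) / (⌈(θ ^ n)⁻¹⌉₊ : ℝ) * ‖Pn A w n (en u n)‖ +
          2 * (θ ^ n * Cn c n * (D + B * D * (1 / α)))
        ≤ 2 * (B * D) * θ ^ n * (Q α B θ * Cn c n) +
          2 * (θ ^ n * Cn c n * (D + B * D * (1 / α))) := by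
          apply add_le_add _ le_rfl
          exact mul_le_mul h3 h1 (norm_nonneg _) (by positivity)
      _ = Cn c n * θ ^ n * H α B θ D := by
          unfold H
          ring

end

end Thin

open Thin in
theorem lowerDim_le_one (hm : 2 ≤ m) (hA : ∀ i, ‖A i‖ ≤ 1 / 2) {t : Fin m → E d} {K : Set (E d)}
    (hK : IsSelfAffineSet A t K) {θ α B γ : ℝ} (hθ0 : 0 < θ) (hθ1 : θ < 1) {x u : ℕ → E d}
    {w : ℕ → Fin m} {c : ℕ → ℝ} (hO : Orb A t K θ α B γ x u w c) : lowerDim K ≤ 1 := by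
  have hα := hO.αpos
  have hB := B_pos hO
  have hγ := hO.γpos
  set D : ℝ := 4 * ‖t‖ + 1 with hDdef
  have hD : 0 < D := by positivity
  have hKD : ∀ y ∈ K, ∀ z ∈ K, ‖y - z‖ ≤ D := by
    intro y hy z hz
    have h1 := norm_le_of_mem hA hK hy
    have h2 := norm_le_of_mem hA hK hz
    have h3 := norm_sub_le y z
    linarith
  have hbdd : Bornology.IsBounded K := hK.2.1.isBounded
  -- the diameter is positive
  have hdiam : 0 < Metric.diam K := by
    have hcard : 1 < Fintype.card (Fin m) := by rw [Fintype.card_fin]; omega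
    obtain ⟨j, hj⟩ := Fintype.exists_ne_of_one_lt_card hcard (w 0)
    have h1 := hO.gap 0 j hj (x 0) (hO.mem 0)
    have h2 := image_mem hK j (hO.mem 0)
    have h3 : x 0 ≠ A j (x 0) + t j := by
      intro h
      rw [← h] at h1
      linarith
    have h4 := Metric.dist_le_diam_of_mem hbdd (hO.mem 0) h2
    exact lt_of_lt_of_le (dist_pos.2 h3) h4
  have hD1 : 0 ≤ D1 α B := by unfold D1; positivity
  have hQ : 0 < Q α B θ := by
    unfold Q
    have : 0 < (1 - θ)⁻¹ := inv_pos.2 (by linarith)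
    positivity
  have hH : 0 < H α B θ D := by unfold H; positivity
  apply iSup₂_le
  intro s hs
  obtain ⟨C, hC0, hC⟩ := hs
  by_contra hlt
  push Not at hlt
  have hs1 : (1 : ℝ) < (s : ℝ) := by
    have : ((1 : ℝ≥0) : ℝ≥0∞) < (s : ℝ≥0∞) := by simpa using hlt
    exact_mod_cast this
  -- the ratio
  set g : ℝ := γ * (α / B) / (2 * B) / H α B θ D with hg
  have hgpos : 0 < g := by positivity
  have hX : Tendsto (fun n : ℕ => (θ ^ n)⁻¹) atTop atTop := by
    have h1 := tendsto_pow_atTop_atTop_of_one_lt ((one_lt_inv₀ hθ0).2 hθ1)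
    refine h1.congr fun n => ?_
    rw [inv_pow]
  have hCn0 : Tendsto (fun n : ℕ => (1 / 2 : ℝ) ^ n * (B / α)) atTop (nhds 0) := by
    have h1 := (tendsto_pow_atTop_nhds_zero_of_lt_one (r := (1 / 2 : ℝ)) (by norm_num)
      (by norm_num)).mul_const (B / α)
    simpa using h1
  have hpow : Tendsto (fun n : ℕ => C * g ^ (s : ℝ) * ((θ ^ n)⁻¹) ^ ((s : ℝ) - 1)) atTop atTop := by
    apply Tendsto.const_mul_atTop (by positivity)
    exact (tendsto_rpow_atTop (by linarith)).comp hX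
  have hev : ∀ᶠ n : ℕ in atTop, False := by
    have e1 := hpow.eventually_gt_atTop 3
    have e2 := hX.eventually_gt_atTop (max 2 (1 / g))
    have e3 : ∀ᶠ n : ℕ in atTop, (1 / 2 : ℝ) ^ n * (B / α) <
        Metric.diam K / (γ * (α / B) / (2 * B)) :=
      hCn0.eventually (gt_mem_nhds (by positivity))
    filter_upwards [e1, e2, e3] with n h1 h2 h3
    have hCn := Cn_pos hO n
    have hθn : 0 < θ ^ n := pow_pos hθ0 n
    set X : ℝ := (θ ^ n)⁻¹ with hXdef
    have hXpos : 0 < X := inv_pos.2 hθn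
    have hX2 : 2 < X := lt_of_le_of_lt (le_max_left _ _) h2
    have hXg : 1 / g < X := lt_of_le_of_lt (le_max_right _ _) h2
    set R : ℝ := γ * (α / B * Cn c n) / (2 * B) with hR
    set r : ℝ := Cn c n * θ ^ n * H α B θ D with hr
    have hr0 : 0 < r := by positivity
    have hratio : R / r = g * X := by
      rw [hR, hr, hg, hXdef]
      field_simp
    have hrR : r < R := by
      have h4 : 1 < R / r := by
        rw [hratio]
        rw [div_lt_iff₀ hgpos] at hXg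
        linarith
      rwa [one_lt_div hr0] at h4
    have hRd : R ≤ Metric.diam K := by
      have h4 : Cn c n ≤ (1 / 2) ^ n * (B / α) := Cn_le hO hA n
      have h5 : Cn c n < Metric.diam K / (γ * (α / B) / (2 * B)) := lt_of_le_of_lt h4 h3
      rw [lt_div_iff₀ (by positivity)] at h5
      have h6 : R = Cn c n * (γ * (α / B) / (2 * B)) := by rw [hR]; ring
      rw [h6]
      exact h5.le
    have h4 := hC (x 0) (hO.mem 0) r R hr0 hrR hRd
    have h5 := cover_thin hO hK hA hθ0 hθ1 hD hKD n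
    have h6 : ENNReal.ofReal (C * (R / r) ^ (s : ℝ)) ≤ ENNReal.ofReal (3 * X) := by
      refine h4.trans ?_
      have h7 : ((coverNum r (Metric.closedBall (x 0) R ∩ K) : ℕ∞) : ℝ≥0∞) ≤
          (((⌈X⌉₊ + 1 : ℕ) : ℕ∞) : ℝ≥0∞) := by exact_mod_cast h5
      refine h7.trans ?_
      have h8 : ((⌈X⌉₊ + 1 : ℕ) : ℝ) ≤ 3 * X := by
        push_cast
        have := Nat.ceil_lt_add_one hXpos.le
        linarith
      have h9 : (((⌈X⌉₊ + 1 : ℕ) : ℕ∞) : ℝ≥0∞) = ENNReal.ofReal ((⌈X⌉₊ + 1 : ℕ) : ℝ) := by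
        rw [ENNReal.ofReal_natCast]
        simp
      rw [h9]
      exact ENNReal.ofReal_le_ofReal h8
    rw [ENNReal.ofReal_le_ofReal_iff (by positivity), hratio,
      Real.mul_rpow hgpos.le hXpos.le] at h6
    have h7 : X ^ (s : ℝ) = X ^ ((s : ℝ) - 1) * X := by
      rw [Real.rpow_sub_one hXpos.ne']
      field_simp
    rw [h7] at h6
    have h8 : 3 * X < C * g ^ (s : ℝ) * X ^ ((s : ℝ) - 1) * X :=
      mul_lt_mul_of_pos_right h1 hXpos
    have h9 : C * (g ^ (s : ℝ) * (X ^ ((s : ℝ) - 1) * X)) =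
        C * g ^ (s : ℝ) * X ^ ((s : ℝ) - 1) * X := by ring
    rw [h9] at h6
    linarith
  obtain ⟨n, hn⟩ := hev.exists
  exact hn

end Pool.Agent.MP_b039ef_an.AS
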