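import Pool.Agent.Lib.MP_b039ef_an.AS.NoTie
import Pool.Agent.Lib.MP_b039ef_an.AS.Orbit
import Pool.Agent.Lib.MP_b039ef_an.AS.Thin
import Pool.Agent.Lib.MP_b039ef_an.AS.Lower
import Pool.Agent.Lib.MP_b039ef_an.AS.Open

/-!
# MP_b039ef_an, project AS: the theorem
-/

set_option autoImplicit false

namespace Pool.Agent.MP_b039ef_an.AS

open scoped ENNReal NNReal
open MeasureTheory Set

variable {d m : ℕ} {A : Fin m → E d →L[ℝ] E d}

theorem exists_bound {A : Fin m → E d →L[ℝ] E d} (h : ∀ i, ‖A i‖ < 1 / 2) :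
    ∃ a0 : ℝ, 0 ≤ a0 ∧ a0 < 1 / 2 ∧ ∀ i, ‖A i‖ ≤ a0 := by
  classical
  by_cases hm : Nonempty (Fin m)
  · obtain ⟨i, hi⟩ := Finite.exists_max fun i => ‖A i‖
    exact ⟨‖A i‖, norm_nonneg _, h i, hi⟩
  · exact ⟨0, le_rfl, by norm_num, fun i => absurd ⟨i⟩ hm⟩

theorem sys_neg {U : Set (E d)} (hU : IsCompact U) (hU0 : (0 : E d) ∉ U)
    (hμ : Measure.hausdorffMeasure 1 U = 0) :
    IsCompact (U ∪ Neg.neg '' U) ∧ (0 : E d) ∉ U ∪ Neg.neg '' U ∧
      Measure.hausdorffMeasure 1 (U ∪ Neg.neg '' U) = 0 := by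
  refine ⟨hU.union (hU.image continuous_neg), ?_, ?_⟩
  · rintro (h | ⟨x, hx, h⟩)
    · exact hU0 h
    · rw [neg_eq_zero] at h
      exact hU0 (h ▸ hx)
  · have h1 : Measure.hausdorffMeasure 1 (Neg.neg '' U) ≤ Measure.hausdorffMeasure 1 U := by
      have h2 : LipschitzOnWith 1 (fun x : E d => -x) U := by
        intro x _ y _
        simp [edist_neg_neg]
      have h3 := h2.hausdorffMeasure_image_le (d := 1) zero_le_one
      simpa using h3
    rw [hμ] at h1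
    exact measure_union_null hμ (le_antisymm h1 zero_le)

theorem main (hd : 2 ≤ d) (hm : 2 ≤ m) {U : Set (E d)} {a : Fin m → ℝ} {θ : ℝ}
    (hS : Sys A U a θ) (hμ : Measure.hausdorffMeasure 1 U = 0) (hsum : 1 < ∑ i, a i) :
    ∀ᵐ t : Fin m → E d, ∀ K, IsSelfAffineSet A t K → lowerDim K ≤ 1 ∧ 1 < assouadDim K := by
  obtain ⟨a0, h0, h1, hA⟩ := exists_bound hS.norm
  have hA' : ∀ i, ‖A i‖ ≤ 1 / 2 := fun i => (hS.norm i).le
  have : Nonempty (Fin m) := ⟨⟨0, by omega⟩⟩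
  have hex : ∀ t, ∃ K, IsSelfAffineSet A t K := fun t => (hutchinson A hA' t).exists
  choose F hF using hex
  have huniq : ∀ t K, IsSelfAffineSet A t K → K = F t := fun t K hK =>
    (hutchinson A hA' t).unique hK (hF t)
  obtain ⟨hU1, hU2, hU3⟩ := sys_neg hS.comp hS.ne0 hμ
  filter_upwards [ae_no_tie h0 h1 hA F hF hU1 hU2 hU3, ae_assouad hd hm hS hsum F hF] with t ht1 ht2
  intro K hK
  rw [huniq t K hK]
  refine ⟨?_, ht2⟩
  obtain ⟨α, B, γ, x, u, w, c, hO⟩ := exists_orbit hS (hF t) (by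
    intro u hu i j hij
    refine ht1 u ?_ i j hij
    rcases hu with hu | hu
    · exact Or.inl hu
    · exact Or.inr ⟨-u, hu, neg_neg u⟩)
  exact lowerDim_le_one hm hA' (hF t) hS.θ0 hS.θ1 hO

end Pool.Agent.MP_b039ef_an.AS
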