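import Pool.Agent.Lib.MP_b039ef_an.AS.Words
import Pool.Agent.Lib.MP_b039ef_an.AS.Slice

/-!
# MP_b039ef_an, project AS: the probability that the points of two words are close
-/

set_option autoImplicit false

namespace Pool.Agent.MP_b039ef_an.AS

open scoped ENNReal NNReal
open MeasureTheory Set

variable {d m : ℕ} {A : Fin m → E d →L[ℝ] E d}

namespace Key

theorem icc_aux {p q s R M : ℝ} (hq : q ≠ 0) (h : |p + s * q| ≤ R) (hM : R / |q| ≤ M) :
    s ∈ Icc (-(p / q) - M) (-(p / q) - M + 2 * M) := by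
  have h1 : |s + p / q| ≤ M := by
    refine le_trans ?_ hM
    have h2 : s + p / q = (p + s * q) / q := by field_simp; ring
    rw [h2, abs_div]
    exact div_le_div_of_nonneg_right h (abs_nonneg q)
  rw [abs_le] at h1
  constructor <;> linarith [h1.1, h1.2]

theorem exists_orth (hd : 2 ≤ d) (u : E d) : ∃ y : E d, ‖y‖ = 1 ∧ inner ℝ u y = 0 := by
  have h1 : LinearMap.ker (innerₛₗ ℝ u : E d →ₗ[ℝ] ℝ) ≠ ⊥ := by
    intro h0
    have h2 := LinearMap.finrank_range_add_finrank_ker (innerₛₗ ℝ u : E d →ₗ[ℝ] ℝ)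
    rw [h0, finrank_bot, finrank_euclideanSpace_fin] at h2
    have h3 := Submodule.finrank_le (LinearMap.range (innerₛₗ ℝ u : E d →ₗ[ℝ] ℝ))
    rw [Module.finrank_self] at h3
    omega
  obtain ⟨x, hx, hx0⟩ := Submodule.exists_mem_ne_zero_of_ne_bot h1
  refine ⟨‖x‖⁻¹ • x, ?_, ?_⟩
  · rw [norm_smul, norm_inv, norm_norm, inv_mul_cancel₀ (norm_ne_zero_iff.2 hx0)]
  · have : inner ℝ u x = 0 := by simpa using hx
    rw [inner_smul_right, this, mul_zero]

end Key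

theorem key (hd : 2 ≤ d) {U : Set (E d)} {a : Fin m → ℝ} {θ : ℝ} (hS : Sys A U a θ) (T : ℝ) :
    ∃ C : ℝ≥0∞, C ≠ ⊤ ∧ ∃ b : ℝ, 0 < b ∧ b < 1 ∧ ∀ (v w w' : List (Fin m)) (i j : Fin m), i ≠ j →
      ∀ ρ : ℝ, 0 < ρ →
      volume {t : Fin m → E d | ‖t‖ ≤ T ∧ ‖Aw A v (zw A (i :: w) t - zw A (j :: w') t)‖ ≤ ρ} ≤
        C * (ENNReal.ofReal (ρ / aw a v) * ENNReal.ofReal (min 1 (ρ / b ^ v.length))) := by
  classical
  obtain ⟨a0, h0, h1, hA⟩ : ∃ a0 : ℝ, 0 ≤ a0 ∧ a0 < 1 / 2 ∧ ∀ i, ‖A i‖ ≤ a0 := by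
    refine ⟨((Finset.univ.sup fun i => ‖A i‖₊ : ℝ≥0) : ℝ), NNReal.coe_nonneg _, ?_, ?_⟩
    · have h2 : (Finset.univ.sup fun i => ‖A i‖₊ : ℝ≥0) < (1 / 2 : ℝ≥0) := by
        rw [Finset.sup_lt_iff (by simp)]
        intro i _
        have := hS.norm i
        rw [← NNReal.coe_lt_coe]
        simpa using this
      have h3 := NNReal.coe_lt_coe.2 h2
      simpa using h3
    · intro i
      have h2 : ‖A i‖₊ ≤ (Finset.univ.sup fun i => ‖A i‖₊ : ℝ≥0) :=
        Finset.le_sup (f := fun i => ‖A i‖₊) (Finset.mem_univ i)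
      exact_mod_cast h2
  obtain ⟨b, hb0, hb1, hb⟩ := exists_lower hS.inj
  obtain ⟨u0, hu0⟩ := hS.ne
  obtain ⟨u1, hu1, hmin⟩ := hS.comp.exists_isMinOn hS.ne (continuous_norm.continuousOn)
  have hr0 : 0 < ‖u1‖ := norm_pos_iff.2 fun h => hS.ne0 (h ▸ hu1)
  have hU0 : 0 < ‖u0‖ := norm_pos_iff.2 fun h => hS.ne0 (h ▸ hu0)
  set k0 : ℝ := (1 - a0) / (1 - 2 * a0) with hk0
  refine ⟨volume (Metric.closedBall (0 : Fin m → E d) (T + 2 * k0)) *
    ENNReal.ofReal (2 * (‖u0‖ / ‖u1‖)) * 2, ?_, b, hb0, lt_of_le_of_lt hb1 (by norm_num), ?_⟩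
  · exact ENNReal.mul_ne_top (ENNReal.mul_ne_top measure_closedBall_lt_top.ne
      ENNReal.ofReal_ne_top) (by norm_num)
  intro v w w' i j hij ρ hρ
  obtain ⟨c, u', hu', hc, hcx⟩ := inv_word hS v u0 hu0
  have haw : 0 < aw a v := aw_pos hS.pos v
  have hcpos : 0 < |c| := lt_of_lt_of_le haw hc
  have hc0 : c ≠ 0 := abs_pos.1 hcpos
  have hu'1 : ‖u1‖ ≤ ‖u'‖ := hmin hu'
  have hu'0 : 0 < ‖u'‖ := lt_of_lt_of_le hr0 hu'1
  obtain ⟨yf, hyf, hyf0⟩ := Key.exists_orth hd u'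
  obtain ⟨l, hl⟩ := trans h0 h1 hA hij w w'
  obtain ⟨e, he, hee⟩ := hl (‖u'‖⁻¹ • u')
  obtain ⟨f, hf, hff⟩ := hl yf
  have hye : ‖(‖u'‖⁻¹ • u')‖ = 1 := by
    rw [norm_smul, norm_inv, norm_norm, inv_mul_cancel₀ hu'0.ne']
  rw [hye, mul_one] at he
  rw [hyf, mul_one] at hf
  set X : (Fin m → E d) →L[ℝ] E d := (Aw A v).comp (zw A (i :: w) - zw A (j :: w')) with hX
  have hXt : ∀ t, X t = Aw A v (zw A (i :: w) t - zw A (j :: w') t) := fun t => by
    simp [hX]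
  have hXe : X (Pi.single l e) = Aw A v (‖u'‖⁻¹ • u') := by rw [hXt, hee]
  have hXf : X (Pi.single l f) = Aw A v yf := by rw [hXt, hff]
  have hSet : {t : Fin m → E d | ‖t‖ ≤ T ∧
      ‖Aw A v (zw A (i :: w) t - zw A (j :: w') t)‖ ≤ ρ} = {t | ‖t‖ ≤ T ∧ ‖X t‖ ≤ ρ} := by
    ext t
    simp only [Set.mem_ofPred_eq, hXt]
  rw [hSet]
  have hmeas : MeasurableSet {t : Fin m → E d | ‖t‖ ≤ T ∧ ‖X t‖ ≤ ρ} := by
    apply IsClosed.measurableSet
    exact (isClosed_le continuous_norm continuous_const).inter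
      (isClosed_le X.continuous.norm continuous_const)
  have hbv : 0 < b ^ v.length := pow_pos hb0 _
  have hg : b ^ v.length ≤ ‖Aw A v yf‖ := by
    have := le_Aw hb0.le hb v yf
    rwa [hyf, mul_one] at this
  have hgpos : 0 < ‖Aw A v yf‖ := lt_of_lt_of_le hbv hg
  have key1 := slice2 (volume : Measure (Fin m → E d)) hmeas (Pi.single l e) (Pi.single l f) T k0
    (by rw [Pi.norm_single]; exact he) (by rw [Pi.norm_single]; exact hf)
    (fun t ht => by
      rw [Metric.mem_closedBall, dist_zero_right]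
      exact ht.1)
    (2 * ((‖u0‖ / ‖u1‖) * (ρ / aw a v))) (2 * (ρ / b ^ v.length)) (by positivity)
    (by
      intro x
      refine ⟨-(inner ℝ u0 (X x) / (c * ‖u'‖)) - (‖u0‖ / ‖u1‖) * (ρ / aw a v), ?_⟩
      intro s r hsr
      have h2 := hsr.2
      rw [map_add, map_add, map_smul, map_smul, hXe, hXf] at h2
      have h3 : inner ℝ u0 (X x + s • Aw A v (‖u'‖⁻¹ • u') + r • Aw A v yf) =
          inner ℝ u0 (X x) + s * (c * ‖u'‖) := by
        rw [inner_add_right, inner_add_right, inner_smul_right, inner_smul_right, hcx, hcx,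
          hyf0, inner_smul_right, real_inner_self_eq_norm_sq]
        field_simp
        ring
      have h4 := abs_real_inner_le_norm u0
        (X x + s • Aw A v (‖u'‖⁻¹ • u') + r • Aw A v yf)
      rw [h3] at h4
      have h5 : |inner ℝ u0 (X x) + s * (c * ‖u'‖)| ≤ ‖u0‖ * ρ :=
        h4.trans (mul_le_mul_of_nonneg_left h2 (norm_nonneg _))
      refine Key.icc_aux (mul_ne_zero hc0 hu'0.ne') h5 ?_
      rw [abs_mul, abs_of_pos hu'0, div_mul_div_comm]
      refine div_le_div_of_nonneg_left (by positivity) (by positivity) ?_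
      rw [mul_comm]
      exact mul_le_mul hc hu'1 hr0.le hcpos.le)
    (by
      intro x
      refine ⟨-(inner ℝ (Aw A v yf) (X x) / (‖Aw A v yf‖ ^ 2)) - ρ / b ^ v.length, ?_⟩
      intro r hr
      have h2 := hr.2
      rw [map_add, map_smul, hXf] at h2
      have h3 : inner ℝ (Aw A v yf) (X x + r • Aw A v yf) =
          inner ℝ (Aw A v yf) (X x) + r * ‖Aw A v yf‖ ^ 2 := by
        rw [inner_add_right, inner_smul_right, real_inner_self_eq_norm_sq]
      have h4 := abs_real_inner_le_norm (Aw A v yf) (X x + r • Aw A v yf)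
      rw [h3] at h4
      have h5 : |inner ℝ (Aw A v yf) (X x) + r * ‖Aw A v yf‖ ^ 2| ≤ ‖Aw A v yf‖ * ρ :=
        h4.trans (mul_le_mul_of_nonneg_left h2 (norm_nonneg _))
      refine Key.icc_aux (pow_ne_zero 2 hgpos.ne') h5 ?_
      rw [abs_of_pos (pow_pos hgpos 2), sq, mul_div_mul_left _ _ hgpos.ne']
      exact div_le_div_of_nonneg_left hρ.le hbv hg)
  refine key1.trans ?_
  have h6 : ENNReal.ofReal (2 * ((‖u0‖ / ‖u1‖) * (ρ / aw a v))) =
      ENNReal.ofReal (2 * (‖u0‖ / ‖u1‖)) * ENNReal.ofReal (ρ / aw a v) := by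
    rw [← ENNReal.ofReal_mul (by positivity), mul_assoc]
  have h7 : ENNReal.ofReal (min 1 (2 * (ρ / b ^ v.length))) ≤
      2 * ENNReal.ofReal (min 1 (ρ / b ^ v.length)) := by
    have h8 : min 1 (2 * (ρ / b ^ v.length)) ≤ 2 * min 1 (ρ / b ^ v.length) := by
      have h9 : 0 ≤ ρ / b ^ v.length := by positivity
      rcases le_total 1 (ρ / b ^ v.length) with h | h
      · rw [min_eq_left h]
        exact (min_le_left _ _).trans (by norm_num)
      · rw [min_eq_right h]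
        exact min_le_right _ _
    refine (ENNReal.ofReal_le_ofReal h8).trans ?_
    rw [ENNReal.ofReal_mul (by norm_num)]
    simp
  rw [h6]
  calc volume (Metric.closedBall (0 : Fin m → E d) (T + 2 * k0)) *
        (ENNReal.ofReal (2 * (‖u0‖ / ‖u1‖)) * ENNReal.ofReal (ρ / aw a v) *
          ENNReal.ofReal (min 1 (2 * (ρ / b ^ v.length))))
      ≤ volume (Metric.closedBall (0 : Fin m → E d) (T + 2 * k0)) *
        (ENNReal.ofReal (2 * (‖u0‖ / ‖u1‖)) * ENNReal.ofReal (ρ / aw a v) *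
          (2 * ENNReal.ofReal (min 1 (ρ / b ^ v.length)))) := by gcongr
    _ = _ := by ring

end Pool.Agent.MP_b039ef_an.AS
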