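import Pool.Agent.Lib.MP_b039ef_an.AS.Key
import Pool.Agent.Lib.MP_b039ef_an.AS.Avg

/-!
# MP_b039ef_an, project AS: if `U` is finite, the lower dimension is almost surely at least 1
-/

set_option autoImplicit false

namespace Pool.Agent.MP_b039ef_an.AS

open scoped ENNReal NNReal
open MeasureTheory Set

variable {d m : ℕ} {A : Fin m → E d →L[ℝ] E d}

namespace One

/-- the weight of the pairs of words whose points have close projections -/
noncomputable def S1 (A : Fin m → E d →L[ℝ] E d) (p : Fin m → ℝ≥0∞) (u : E d) (n : ℕ) (ρ : ℝ)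
    (t : Fin m → E d) : ℝ≥0∞ :=
  avg p n fun w => avg p n fun w' =>
    {t : Fin m → E d | |inner ℝ u (zw A w t - zw A w' t)| ≤ ρ}.indicator 1 t

theorem exists_a0 {U : Set (E d)} {a : Fin m → ℝ} {θ : ℝ} (hS : Sys A U a θ) :
    ∃ a0 : ℝ, 0 ≤ a0 ∧ a0 < 1 / 2 ∧ ∀ i, ‖A i‖ ≤ a0 := by
  refine ⟨((Finset.univ.sup fun i => ‖A i‖₊ : ℝ≥0) : ℝ), NNReal.coe_nonneg _, ?_, ?_⟩
  · have h2 : (Finset.univ.sup fun i => ‖A i‖₊ : ℝ≥0) < (1 / 2 : ℝ≥0) := by
      rw [Finset.sup_lt_iff (by simp)]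
      intro i _
      have := hS.norm i
      rw [← NNReal.coe_lt_coe]
      simpa using this
    have h3 := NNReal.coe_lt_coe.2 h2
    simpa using h3
  · intro i
    have h2 : ‖A i‖₊ ≤ (Finset.univ.sup fun i => ‖A i‖₊ : ℝ≥0) :=
      Finset.le_sup (f := fun i => ‖A i‖₊) (Finset.mem_univ i)
    exact_mod_cast h2

theorem key1 {U : Set (E d)} {a : Fin m → ℝ} {θ : ℝ} (hS : Sys A U a θ) (T : ℝ) :
    ∃ C : ℝ≥0∞, C ≠ ⊤ ∧ ∀ u ∈ U, ∀ (v w w' : List (Fin m)) (i j : Fin m), i ≠ j →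
      ∀ ρ : ℝ, 0 < ρ →
      volume {t : Fin m → E d | ‖t‖ ≤ T ∧
        |inner ℝ u (Aw A v (zw A (i :: w) t - zw A (j :: w') t))| ≤ ρ} ≤
        C * ENNReal.ofReal (ρ / aw a v) := by
  classical
  obtain ⟨a0, h0, h1, hA⟩ := exists_a0 hS
  obtain ⟨u1, hu1, hmin⟩ := hS.comp.exists_isMinOn hS.ne (continuous_norm.continuousOn)
  have hr0 : 0 < ‖u1‖ := norm_pos_iff.2 fun h => hS.ne0 (h ▸ hu1)
  set k0 : ℝ := (1 - a0) / (1 - 2 * a0) with hk0
  refine ⟨volume (Metric.closedBall (0 : Fin m → E d) (T + k0)) *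
    ENNReal.ofReal (2 / ‖u1‖), ?_, ?_⟩
  · exact ENNReal.mul_ne_top measure_closedBall_lt_top.ne ENNReal.ofReal_ne_top
  intro u hu v w w' i j hij ρ hρ
  obtain ⟨c, u', hu', hc, hcx⟩ := inv_word hS v u hu
  have haw : 0 < aw a v := aw_pos hS.pos v
  have hcpos : 0 < |c| := lt_of_lt_of_le haw hc
  have hc0 : c ≠ 0 := abs_pos.1 hcpos
  have hu'1 : ‖u1‖ ≤ ‖u'‖ := hmin hu'
  have hu'0 : 0 < ‖u'‖ := lt_of_lt_of_le hr0 hu'1
  obtain ⟨l, hl⟩ := trans h0 h1 hA hij w w'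
  obtain ⟨e, he, hee⟩ := hl (‖u'‖⁻¹ • u')
  have hye : ‖(‖u'‖⁻¹ • u')‖ = 1 := by
    rw [norm_smul, norm_inv, norm_norm, inv_mul_cancel₀ hu'0.ne']
  rw [hye, mul_one] at he
  set X : (Fin m → E d) →L[ℝ] E d := (Aw A v).comp (zw A (i :: w) - zw A (j :: w')) with hX
  have hXt : ∀ t, X t = Aw A v (zw A (i :: w) t - zw A (j :: w') t) := fun t => by
    simp [hX]
  have hXe : X (Pi.single l e) = Aw A v (‖u'‖⁻¹ • u') := by rw [hXt, hee]
  have hSet : {t : Fin m → E d | ‖t‖ ≤ T ∧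
      |inner ℝ u (Aw A v (zw A (i :: w) t - zw A (j :: w') t))| ≤ ρ} =
      {t | ‖t‖ ≤ T ∧ |inner ℝ u (X t)| ≤ ρ} := by
    ext t
    simp only [Set.mem_ofPred_eq, hXt]
  rw [hSet]
  have hmeas : MeasurableSet {t : Fin m → E d | ‖t‖ ≤ T ∧ |inner ℝ u (X t)| ≤ ρ} := by
    apply IsClosed.measurableSet
    exact (isClosed_le continuous_norm continuous_const).inter
      (isClosed_le (continuous_abs.comp ((continuous_const (y := u)).inner (𝕜 := ℝ)
        X.continuous)) continuous_const)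
  have key1 := slice1 (volume : Measure (Fin m → E d)) hmeas (Pi.single l e) T k0
    (by rw [Pi.norm_single]; exact he)
    (fun t ht => by
      rw [Metric.mem_closedBall, dist_zero_right]
      exact ht.1)
    (2 * (ρ / (aw a v * ‖u1‖)))
    (by
      intro x
      refine ⟨-(inner ℝ u (X x) / (c * ‖u'‖)) - ρ / (aw a v * ‖u1‖), ?_⟩
      intro s hs
      have h2 := hs.2
      rw [map_add, map_smul, hXe] at h2
      have h3 : inner ℝ u (X x + s • Aw A v (‖u'‖⁻¹ • u')) =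
          inner ℝ u (X x) + s * (c * ‖u'‖) := by
        rw [inner_add_right, inner_smul_right, hcx, inner_smul_right, real_inner_self_eq_norm_sq]
        field_simp
      rw [h3] at h2
      refine Key.icc_aux (mul_ne_zero hc0 hu'0.ne') h2 ?_
      rw [abs_mul, abs_of_pos hu'0]
      refine div_le_div_of_nonneg_left hρ.le (by positivity) ?_
      exact mul_le_mul hc hu'1 hr0.le hcpos.le)
  refine key1.trans (le_of_eq ?_)
  have h6 : 2 * (ρ / (aw a v * ‖u1‖)) = 2 / ‖u1‖ * (ρ / aw a v) := by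
    field_simp
  rw [h6, ENNReal.ofReal_mul (by positivity), mul_assoc]

theorem geom_le {q : ℝ≥0∞} (n : ℕ) : ∑ k ∈ Finset.range n, q ^ k ≤ (1 - q)⁻¹ := by
  rw [← ENNReal.tsum_geometric]
  exact ENNReal.sum_le_tsum _

theorem energy1 (hm : 2 ≤ m) {U : Set (E d)} {a : Fin m → ℝ} {θ : ℝ} (hS : Sys A U a θ)
    (hsum : 1 < ∑ i, a i) (T : ℝ) :
    ∃ (p : Fin m → ℝ≥0∞) (C π : ℝ≥0∞), ∑ i, p i = 1 ∧ C ≠ ⊤ ∧ π < 1 ∧
      ∀ u ∈ U, ∀ (n : ℕ) (ρ : ℝ), 0 < ρ →
        ∫⁻ t in Metric.closedBall (0 : Fin m → E d) T, S1 A p u n ρ t ≤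
          C * (ENNReal.ofReal ρ + π ^ n) := by
  classical
  obtain ⟨C0, hC0, hkey⟩ := key1 hS T
  set L : ℝ := ∑ i, a i with hL
  have hL0 : 0 < L := by linarith
  set p : Fin m → ℝ≥0∞ := fun i => ENNReal.ofReal (a i / L) with hp
  have hai : ∀ i, 0 < a i / L := fun i => div_pos (hS.pos i) hL0
  have hsumR : ∑ i, a i / L = 1 := by
    rw [← Finset.sum_div]
    exact div_self hL0.ne'
  have hp1 : ∑ i, p i = 1 := by
    rw [hp, ← ENNReal.ofReal_sum_of_nonneg fun i _ => (hai i).le, hsumR, ENNReal.ofReal_one]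
  have hpt : ∀ i, p i ≠ ⊤ := fun i => ENNReal.ofReal_ne_top
  -- the sum of the squares
  have hlt1 : ∀ i, a i / L < 1 := by
    intro i
    obtain ⟨j, hj⟩ : ∃ j : Fin m, j ≠ i := by
      have : Nontrivial (Fin m) := Fin.nontrivial_iff_two_le.2 hm
      exact exists_ne i
    have h1 : a i / L + a j / L ≤ ∑ k, a k / L := by
      have h2 := Finset.sum_le_sum_of_subset_of_nonneg (Finset.subset_univ {i, j})
        (f := fun k => a k / L) fun k _ _ => (hai k).le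
      rwa [Finset.sum_pair hj.symm] at h2
    rw [hsumR] at h1
    have := hai j
    linarith
  have hsqR : ∑ i, (a i / L) ^ 2 < 1 := by
    rw [← hsumR]
    have hne : (Finset.univ : Finset (Fin m)).Nonempty := ⟨⟨0, by omega⟩, Finset.mem_univ _⟩
    refine Finset.sum_lt_sum_of_nonempty hne fun i _ => ?_
    have h1 := hai i
    have h2 := hlt1 i
    nlinarith
  have hsqE : ∑ i, p i ^ 2 = ENNReal.ofReal (∑ i, (a i / L) ^ 2) := by
    rw [ENNReal.ofReal_sum_of_nonneg fun i _ => sq_nonneg _]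
    refine Finset.sum_congr rfl fun i _ => ?_
    rw [hp, ENNReal.ofReal_pow (hai i).le]
  have hπ : ∑ i, p i ^ 2 < 1 := by
    rw [hsqE, ← ENNReal.ofReal_one]
    exact (ENNReal.ofReal_lt_ofReal_iff one_pos).2 hsqR
  set q : ℝ≥0∞ := ENNReal.ofReal (1 / L) with hq
  have hq1 : q < 1 := by
    rw [hq, ← ENNReal.ofReal_one]
    refine (ENNReal.ofReal_lt_ofReal_iff one_pos).2 ?_
    rw [div_lt_one hL0]
    exact hsum
  set M : ℝ≥0∞ := volume (Metric.closedBall (0 : Fin m → E d) T) with hM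
  have hMt : M ≠ ⊤ := measure_closedBall_lt_top.ne
  have hinv : (1 - q)⁻¹ ≠ ⊤ := by
    rw [ENNReal.inv_ne_top]
    exact (tsub_pos_of_lt hq1).ne'
  refine ⟨p, C0 * (1 - q)⁻¹ + M, ∑ i, p i ^ 2, hp1,
    ENNReal.add_ne_top.2 ⟨ENNReal.mul_ne_top hC0 hinv, hMt⟩, hπ, ?_⟩
  intro u hu n ρ hρ
  -- the general bound
  let ψ : List (Fin m) → List (Fin m) → List (Fin m) → ℝ≥0∞ := fun v w w' =>
    volume {t : Fin m → E d | ‖t‖ ≤ T ∧ |inner ℝ u (Aw A v (zw A w t - zw A w' t))| ≤ ρ}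
  let Y : List (Fin m) → ℝ≥0∞ := fun v => C0 * ENNReal.ofReal (ρ / aw a v)
  have h0 : ∀ v, ψ v [] [] ≤ M := by
    intro v
    refine measure_mono fun t ht => ?_
    rw [mem_closedBall_zero_iff]
    exact ht.1
  have h1 : ∀ v w w' i j, i ≠ j → ψ v (i :: w) (j :: w') ≤ Y v := by
    intro v w w' i j hij
    exact hkey u hu v w w' i j hij ρ hρ
  have h2 : ∀ v w w' i, ψ v (i :: w) (i :: w') ≤ ψ (v ++ [i]) w w' := by
    intro v w w' i
    refine measure_mono fun t ht => ⟨ht.1, ?_⟩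
    have h3 : zw A (i :: w) t - zw A (i :: w') t = A i (zw A w t - zw A w' t) := by
      have e1 : ∀ w, zw A (i :: w) t = t i + A i (zw A w t) := fun w => rfl
      rw [e1, e1, map_sub]
      abel
    have h4 := ht.2
    rw [h3] at h4
    rw [Aw_append]
    exact h4
  have h3 : ∀ v, ∑ i, p i ^ 2 * Y (v ++ [i]) ≤ q * Y v := by
    intro v
    have hav := aw_pos hS.pos v
    have e1 : ∀ i, p i ^ 2 * Y (v ++ [i]) =
        C0 * ENNReal.ofReal (a i / L * (1 / L) * (ρ / aw a v)) := by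
      intro i
      have hi := hS.pos i
      have hi' := hai i
      have e2 : p i ^ 2 = ENNReal.ofReal ((a i / L) ^ 2) := by
        rw [hp, ENNReal.ofReal_pow (hai i).le]
      have e3 : Y (v ++ [i]) = C0 * ENNReal.ofReal (ρ / (aw a v * a i)) := by
        change C0 * ENNReal.ofReal (ρ / aw a (v ++ [i])) = _
        congr 3
        simp [aw]
      rw [e2, e3, mul_left_comm, ← ENNReal.ofReal_mul (by positivity)]
      congr 2
      field_simp
    simp only [e1]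
    rw [← Finset.mul_sum, ← ENNReal.ofReal_sum_of_nonneg]
    · rw [← Finset.sum_mul, ← Finset.sum_mul, hsumR, one_mul,
        ENNReal.ofReal_mul (by positivity)]
      change C0 * (q * ENNReal.ofReal (ρ / aw a v)) ≤ q * (C0 * ENNReal.ofReal (ρ / aw a v))
      rw [mul_left_comm]
    · intro i _
      have hi' := hai i
      positivity
  have hb := avg_bound p hp1 ψ Y q M h0 h1 h2 h3 n []
  have hY : Y [] = C0 * ENNReal.ofReal ρ := by
    change C0 * ENNReal.ofReal (ρ / aw a []) = _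
    simp [aw]
  -- the integral
  have hcl : ∀ w w' : List (Fin m),
      MeasurableSet {t : Fin m → E d | |inner ℝ u (zw A w t - zw A w' t)| ≤ ρ} := by
    intro w w'
    refine (isClosed_le ?_ continuous_const).measurableSet
    exact continuous_abs.comp ((continuous_const (y := u)).inner (𝕜 := ℝ)
      ((zw A w).continuous.sub (zw A w').continuous))
  have hind : ∀ w w' : List (Fin m), Measurable fun t : Fin m → E d =>
      {t : Fin m → E d | |inner ℝ u (zw A w t - zw A w' t)| ≤ ρ}.indicator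
        (1 : (Fin m → E d) → ℝ≥0∞) t :=
    fun w w' => measurable_one.indicator (hcl w w')
  have hin := fun w : List (Fin m) => lintegral_avg p
    (volume.restrict (Metric.closedBall (0 : Fin m → E d) T)) n
    (fun t w' => {t : Fin m → E d | |inner ℝ u (zw A w t - zw A w' t)| ≤ ρ}.indicator
      (1 : (Fin m → E d) → ℝ≥0∞) t) (fun w' => hind w w') hpt
  have hout := lintegral_avg p
    (volume.restrict (Metric.closedBall (0 : Fin m → E d) T)) n
    (fun t w => avg p n fun w' =>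
      {t : Fin m → E d | |inner ℝ u (zw A w t - zw A w' t)| ≤ ρ}.indicator
      (1 : (Fin m → E d) → ℝ≥0∞) t) (fun w => (hin w).1) hpt
  have hval : ∀ w w' : List (Fin m),
      ∫⁻ t in Metric.closedBall (0 : Fin m → E d) T,
        {t : Fin m → E d | |inner ℝ u (zw A w t - zw A w' t)| ≤ ρ}.indicator
          (1 : (Fin m → E d) → ℝ≥0∞) t = ψ [] w w' := by
    intro w w'
    have e1 : (fun t : Fin m → E d =>
        {t : Fin m → E d | |inner ℝ u (zw A w t - zw A w' t)| ≤ ρ}.indicator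
          (1 : (Fin m → E d) → ℝ≥0∞) t) =
        {t : Fin m → E d | |inner ℝ u (zw A w t - zw A w' t)| ≤ ρ}.indicator fun _ => 1 := rfl
    rw [e1, lintegral_indicator_const (hcl w w'), one_mul,
      Measure.restrict_apply (hcl w w')]
    change volume _ =
      volume {t : Fin m → E d | ‖t‖ ≤ T ∧ |inner ℝ u (zw A w t - zw A w' t)| ≤ ρ}
    congr 1
    ext t
    rw [Set.mem_inter_iff, mem_closedBall_zero_iff, Set.mem_ofPred_eq, Set.mem_ofPred_eq]
    exact and_comm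
  have hint : ∫⁻ t in Metric.closedBall (0 : Fin m → E d) T, S1 A p u n ρ t =
      avg p n fun w => avg p n (ψ [] w) := by
    have e1 : (fun t : Fin m → E d => S1 A p u n ρ t) = fun t => avg p n fun w =>
        avg p n fun w' => {t : Fin m → E d | |inner ℝ u (zw A w t - zw A w' t)| ≤ ρ}.indicator
          (1 : (Fin m → E d) → ℝ≥0∞) t := rfl
    rw [e1, hout.2]
    congr 1
    funext w
    rw [(hin w).2]
    congr 1
    funext w'
    exact hval w w'
  rw [hint]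
  refine hb.trans ?_
  rw [hY]
  calc C0 * ENNReal.ofReal ρ * ∑ k ∈ Finset.range n, q ^ k + M * (∑ i, p i ^ 2) ^ n
      ≤ C0 * ENNReal.ofReal ρ * (1 - q)⁻¹ + M * (∑ i, p i ^ 2) ^ n := by
        gcongr
        exact geom_le n
    _ = (C0 * (1 - q)⁻¹) * ENNReal.ofReal ρ + M * (∑ i, p i ^ 2) ^ n := by ring
    _ ≤ (C0 * (1 - q)⁻¹ + M) * ENNReal.ofReal ρ +
        (C0 * (1 - q)⁻¹ + M) * (∑ i, p i ^ 2) ^ n := by
        gcongr
        · exact le_self_add
        · exact le_add_self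
    _ = _ := by ring

/-! ### the deterministic part -/

/-- the data of a word `w` and a vector `u` -/
structure W (A : Fin m → E d →L[ℝ] E d) (B : ℝ) (w : List (Fin m)) (u : E d) (c : ℝ) (u' : E d) :
    Prop where
  adj : ∀ x, inner ℝ u (Aw A w x) = c * inner ℝ u' x
  norm : ∀ x, ‖Aw A w x‖ ≤ |c| * B * ‖x‖

theorem W_nil {B : ℝ} (hB : 1 ≤ B) (u : E d) : W A B [] u 1 u := by
  refine ⟨fun x => ?_, fun x => ?_⟩
  · change inner ℝ u x = 1 * inner ℝ u x
    rw [one_mul]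
  · change ‖x‖ ≤ |1| * B * ‖x‖
    rw [abs_one, one_mul]
    exact le_mul_of_one_le_left (norm_nonneg _) hB

/-- the constants of a system -/
theorem exists_const (hm : 2 ≤ m) {U : Set (E d)} {a : Fin m → ℝ} {θ : ℝ} (hS : Sys A U a θ) :
    ∃ r0 R0 κ B : ℝ, 0 < r0 ∧ r0 ≤ R0 ∧ 0 < κ ∧ κ ≤ 1 ∧ 1 ≤ B ∧ (∀ u ∈ U, r0 ≤ ‖u‖) ∧
      (∀ u ∈ U, ‖u‖ ≤ R0) ∧ ∀ u ∈ U, ∀ i, ∃ c : ℝ, ∃ u' ∈ U, κ ≤ |c| * ‖u'‖ / ‖u‖ ∧
        |c| * ‖u'‖ / ‖u‖ ≤ 1 / 2 ∧ c ≠ 0 ∧
        ∀ w c' u'', u'' ∈ U → W A B w u' c' u'' → W A B (i :: w) u (c * c') u'' := by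
  classical
  obtain ⟨u1, hu1, hmin⟩ := hS.comp.exists_isMinOn hS.ne (continuous_norm.continuousOn)
  obtain ⟨u2, hu2, hmax⟩ := hS.comp.exists_isMaxOn hS.ne (continuous_norm.continuousOn)
  have hr0 : 0 < ‖u1‖ := norm_pos_iff.2 fun h => hS.ne0 (h ▸ hu1)
  have hmin' : ∀ u ∈ U, ‖u1‖ ≤ ‖u‖ := fun u hu => hmin hu
  have hmax' : ∀ u ∈ U, ‖u‖ ≤ ‖u2‖ := fun u hu => hmax hu
  have hR0 : 0 < ‖u2‖ := hr0.trans_le (hmin' u2 hu2)
  have : Nonempty (Fin m) := ⟨⟨0, by omega⟩⟩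
  obtain ⟨k, hk⟩ := Finite.exists_min a
  have hak := hS.pos k
  have hθ0 := hS.θ0
  have hθ1 := hS.θ1
  have h1θ : 0 < 1 - θ := by linarith
  obtain ⟨r0, hr⟩ : ∃ r0, r0 = ‖u1‖ := ⟨_, rfl⟩
  obtain ⟨R0, hR⟩ : ∃ R0, R0 = ‖u2‖ := ⟨_, rfl⟩
  rw [← hr] at hr0 hmin'
  rw [← hR] at hR0 hmax'
  obtain ⟨D, hD⟩ : ∃ D, D = R0 / (2 * r0 * a k) + R0 / r0 := ⟨_, rfl⟩
  obtain ⟨B, hB⟩ : ∃ B, B = max 1 (D / (1 - θ)) := ⟨_, rfl⟩
  have hB1 : 1 ≤ B := by rw [hB]; exact le_max_left _ _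
  have hB2 : D ≤ (1 - θ) * B := by
    have h1 : D / (1 - θ) ≤ B := by rw [hB]; exact le_max_right _ _
    rw [div_le_iff₀ h1θ] at h1
    linarith
  have hgk : ∀ u ∈ U, ∀ i, ∃ c : ℝ, ∃ u' ∈ U, a k * r0 / R0 ≤ |c| * ‖u'‖ / ‖u‖ ∧
        |c| * ‖u'‖ / ‖u‖ ≤ 1 / 2 ∧ c ≠ 0 ∧
        ∀ w c' u'', u'' ∈ U → W A B w u' c' u'' → W A B (i :: w) u (c * c') u'' := by
    intro u hu i
    obtain ⟨c, u', hu', hc, hadj, hcon⟩ := hS.inv u hu i
    have hun : 0 < ‖u‖ := hr0.trans_le (hmin' u hu)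
    have hun' : 0 < ‖u'‖ := hr0.trans_le (hmin' u' hu')
    have hck : a k ≤ |c| := (hk i).trans hc
    have hc0 : 0 < |c| := hak.trans_le hck
    refine ⟨c, u', hu', ?_, ?_, abs_pos.1 hc0, ?_⟩
    · have h1 := hmax' u hu
      have h2 := hmin' u' hu'
      gcongr
    · rw [div_le_iff₀ hun]
      have h1 := hadj u'
      rw [real_inner_self_eq_norm_sq] at h1
      have h2 : |inner ℝ u (A i u')| ≤ ‖u‖ * (1 / 2 * ‖u'‖) := by
        refine (abs_real_inner_le_norm _ _).trans ?_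
        gcongr
        exact ((A i).le_opNorm _).trans
          (mul_le_mul_of_nonneg_right (hS.norm i).le (norm_nonneg _))
      rw [h1, abs_mul, abs_of_nonneg (sq_nonneg ‖u'‖)] at h2
      have h3 : (|c| * ‖u'‖) * ‖u'‖ ≤ (1 / 2 * ‖u‖) * ‖u'‖ := by
        calc (|c| * ‖u'‖) * ‖u'‖ = |c| * ‖u'‖ ^ 2 := by ring
          _ ≤ ‖u‖ * (1 / 2 * ‖u'‖) := h2
          _ = _ := by ring
      exact le_of_mul_le_mul_right h3 hun'
    · intro w c' u'' hu'' hW
      refine ⟨fun x => ?_, fun x => ?_⟩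
      · change inner ℝ u (A i (Aw A w x)) = _
        rw [hadj, hW.adj]
        ring
      · change ‖A i (Aw A w x)‖ ≤ _
        set y := Aw A w x with hy
        set s := inner ℝ u' y with hs
        have hs1 : |s| ≤ |c'| * (R0 * ‖x‖) := by
          rw [hs, hy, hW.adj, abs_mul]
          apply mul_le_mul_of_nonneg_left _ (abs_nonneg _)
          refine (abs_real_inner_le_norm _ _).trans ?_
          have := hmax' u'' hu''
          gcongr
        set e := (‖u'‖ ^ 2)⁻¹ • u' with he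
        have he1 : inner ℝ u' e = 1 := by
          rw [he, inner_smul_right, real_inner_self_eq_norm_sq]
          exact inv_mul_cancel₀ (by positivity)
        have he2 : ‖e‖ ≤ 1 / r0 := by
          have h1 := hmin' u' hu'
          rw [he, norm_smul, norm_inv, norm_pow, norm_norm]
          have h2 : (‖u'‖ ^ 2)⁻¹ * ‖u'‖ = 1 / ‖u'‖ := by field_simp
          rw [h2]
          gcongr
        have hz : inner ℝ u (A i (y - s • e)) = 0 := by
          rw [hadj, inner_sub_right, inner_smul_right, he1, ← hs]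
          ring
        have hz2 := hcon _ hz
        have hz3 : ‖y - s • e‖ ≤ |c'| * B * ‖x‖ + |s| * (1 / r0) := by
          refine (norm_sub_le _ _).trans (add_le_add (hW.norm x) ?_)
          rw [norm_smul, Real.norm_eq_abs]
          gcongr
        have hAe : ‖A i e‖ ≤ |c| * (1 / (2 * r0 * a k)) := by
          have h1 : ‖A i e‖ ≤ 1 / 2 * (1 / r0) :=
            ((A i).le_opNorm e).trans (mul_le_mul (hS.norm i).le he2 (norm_nonneg _)
              (by norm_num))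
          have h2 : 1 / 2 * (1 / r0) = a k * (1 / (2 * r0 * a k)) := by
            field_simp
          rw [h2] at h1
          refine h1.trans ?_
          gcongr
        have hdec : A i y = s • A i e + A i (y - s • e) := by
          rw [map_sub (A i), map_smul (A i) s e]
          abel
        rw [hdec]
        have h5 : ‖s • A i e + A i (y - s • e)‖ ≤
            |s| * (|c| * (1 / (2 * r0 * a k))) + θ * |c| * (|c'| * B * ‖x‖ + |s| * (1 / r0)) := by
          refine (norm_add_le _ _).trans (add_le_add ?_ (hz2.trans ?_))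
          · rw [norm_smul, Real.norm_eq_abs]
            gcongr
          · gcongr
        refine h5.trans ?_
        have h6 : |s| * (|c| * (1 / (2 * r0 * a k))) + θ * |c| * (|s| * (1 / r0)) ≤
            |c| * |c'| * ‖x‖ * D := by
          have h7 : θ * |c| * (|s| * (1 / r0)) ≤ |c| * (|s| * (1 / r0)) := by
            have h8 : 0 ≤ |c| * (|s| * (1 / r0)) := by positivity
            nlinarith
          calc |s| * (|c| * (1 / (2 * r0 * a k))) + θ * |c| * (|s| * (1 / r0))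
              ≤ |s| * (|c| * (1 / (2 * r0 * a k))) + |c| * (|s| * (1 / r0)) := by linarith
            _ = |s| * (|c| * (1 / (2 * r0 * a k) + 1 / r0)) := by ring
            _ ≤ |c'| * (R0 * ‖x‖) * (|c| * (1 / (2 * r0 * a k) + 1 / r0)) := by gcongr
            _ = |c| * |c'| * ‖x‖ * D := by rw [hD]; ring
        have h7 : |c| * |c'| * ‖x‖ * D ≤ |c| * |c'| * ‖x‖ * ((1 - θ) * B) := by gcongr
        rw [abs_mul]
        nlinarith
  refine ⟨r0, R0, min 1 (a k * r0 / R0), B, hr0, (hmin' u1 hu1).trans (hmax' u1 hu1),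
    lt_min one_pos (by positivity), min_le_left _ _, hB1, hmin', hmax', ?_⟩
  intro u hu i
  obtain ⟨c, u', hu', h1, h2⟩ := hgk u hu i
  exact ⟨c, u', hu', (min_le_right _ _).trans h1, h2⟩

/-- choice of a word -/
theorem select {U : Set (E d)} {t : Fin m → E d} {K : Set (E d)} (hK : IsSelfAffineSet A t K)
    {κ B : ℝ} (hκ0 : 0 < κ) (hκ : κ ≤ 1) (hB : 1 ≤ B) (hU0 : ∀ u ∈ U, 0 < ‖u‖)
    (hst : ∀ u ∈ U, ∀ i, ∃ c : ℝ, ∃ u' ∈ U, κ ≤ |c| * ‖u'‖ / ‖u‖ ∧
        |c| * ‖u'‖ / ‖u‖ ≤ 1 / 2 ∧ c ≠ 0 ∧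
        ∀ w c' u'', u'' ∈ U → W A B w u' c' u'' → W A B (i :: w) u (c * c') u'') (n : ℕ) :
    ∀ u ∈ U, ∀ x ∈ K, ∀ ρ : ℝ, (1 / 2) ^ n ≤ ρ → ρ ≤ 1 →
      ∃ w c, ∃ u' ∈ U, ∃ x' ∈ K, W A B w u c u' ∧ x = zw A w t + Aw A w x' ∧
        κ * ρ ≤ |c| * ‖u'‖ / ‖u‖ ∧ |c| * ‖u'‖ / ‖u‖ ≤ ρ := by
  induction n with
  | zero =>
    intro u hu x hx ρ h1 h2
    rw [pow_zero] at h1
    have hρ : ρ = 1 := le_antisymm h2 h1
    have hun := hU0 u hu
    refine ⟨[], 1, u, hu, x, hx, W_nil hB u, ?_, ?_, ?_⟩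
    · change x = 0 + x
      rw [zero_add]
    · rw [hρ, abs_one, one_mul, div_self hun.ne']
      linarith
    · rw [hρ, abs_one, one_mul, div_self hun.ne']
  | succ n ih =>
    intro u hu x hx ρ h1 h2
    have hx' := hx
    rw [hK.2.2] at hx'
    obtain ⟨i, y, hy, hiy⟩ := mem_iUnion.1 hx'
    obtain ⟨c, u', hu', h3, h4, hc0, h5⟩ := hst u hu i
    have hun := hU0 u hu
    have hun' := hU0 u' hu'
    set g := |c| * ‖u'‖ / ‖u‖ with hg
    have hg0 : 0 < g := by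
      have := abs_pos.2 hc0
      rw [hg]
      positivity
    have hρ0 : 0 < ρ := lt_of_lt_of_le (by positivity) h1
    rcases le_or_gt ρ g with h | h
    · obtain ⟨w, c', u'', hu'', x', hx', hW, hxx, h6, h7⟩ := ih u' hu' y hy (ρ / g) (by
        rw [le_div_iff₀ hg0]
        calc (1 / 2 : ℝ) ^ n * g ≤ (1 / 2) ^ n * (1 / 2) := by gcongr
          _ = (1 / 2) ^ (n + 1) := (pow_succ _ _).symm
          _ ≤ ρ := h1) ((div_le_one hg0).2 h)
      have hun'' := hU0 u'' hu''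
      refine ⟨i :: w, c * c', u'', hu'', x', hx', h5 w c' u'' hu'' hW, ?_, ?_, ?_⟩
      · change x = (t i + A i (zw A w t)) + A i (Aw A w x')
        rw [← hiy, hxx]
        change A i (zw A w t + Aw A w x') + t i = _
        rw [map_add]
        abel
      · have e1 : |c * c'| * ‖u''‖ / ‖u‖ = g * (|c'| * ‖u''‖ / ‖u'‖) := by
          rw [hg, abs_mul]
          field_simp
        rw [e1]
        calc κ * ρ = g * (κ * (ρ / g)) := by field_simp
          _ ≤ g * (|c'| * ‖u''‖ / ‖u'‖) := by gcongr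
      · have e1 : |c * c'| * ‖u''‖ / ‖u‖ = g * (|c'| * ‖u''‖ / ‖u'‖) := by
          rw [hg, abs_mul]
          field_simp
        rw [e1]
        calc g * (|c'| * ‖u''‖ / ‖u'‖) ≤ g * (ρ / g) := by gcongr
          _ = ρ := by field_simp
    · refine ⟨[i], c, u', hu', y, hy, ?_, ?_, ?_, h.le⟩
      · have h8 := h5 [] 1 u' hu' (W_nil hB u')
        rwa [mul_one] at h8
      · change x = (t i + A i 0) + A i y
        rw [← hiy, map_zero, add_zero, add_comm]
      · refine le_trans ?_ h3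
        exact mul_le_of_le_one_right hκ0.le h2

theorem det1 (hm : 2 ≤ m) {U : Set (E d)} {a : Fin m → ℝ} {θ : ℝ} (hS : Sys A U a θ)
    {p : Fin m → ℝ≥0∞} (hp : ∑ i, p i = 1) {t : Fin m → E d} {K : Set (E d)}
    (hK : IsSelfAffineSet A t K) {T Q : ℝ} (hT : ‖t‖ ≤ T) (hQ : ∀ u ∈ U, ‖u‖ ≤ Q) {σ : ℝ≥0}
    (hσ : 0 < σ) (nn : ℕ → ℕ) (hn : ∀ j, (1 / 2 : ℝ) ^ nn j * (4 * Q * T) ≤ (1 / 2) ^ j)
    {M : ℝ≥0∞} (hM : M ≠ ⊤)
    (hMj : ∀ u ∈ U, ∀ j : ℕ, 1 ≤ j →
      ENNReal.ofReal ((2 : ℝ) ^ (j * (σ : ℝ))) * S1 A p u (nn j) (2 * (1 / 2) ^ j) t ≤ M) :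
    (σ : ℝ≥0∞) ≤ lowerDim K := by
  classical
  have hA : ∀ i, ‖A i‖ ≤ 1 / 2 := fun i => (hS.norm i).le
  obtain ⟨r0, R0, κ, B, hr0, hrR, hκ0, hκ1, hB, hU1, hU2, hst⟩ := exists_const hm hS
  have hR0 : 0 < R0 := hr0.trans_le hrR
  have hU0 : ∀ u ∈ U, 0 < ‖u‖ := fun u hu => hr0.trans_le (hU1 u hu)
  obtain ⟨u0, hu0⟩ := hS.ne
  obtain ⟨x0, hx0⟩ := hK.1
  rcases le_or_gt (Metric.diam K) 0 with hΔ0 | hΔ
  · -- degenerate case: the condition is empty
    refine le_iSup₂_of_le σ ⟨1, one_pos, ?_⟩ le_rfl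
    intro x _ r R h1 h2 h3
    linarith
  obtain ⟨Δ, hΔd⟩ : ∃ Δ, Δ = Metric.diam K := ⟨_, rfl⟩
  rw [← hΔd] at hΔ
  obtain ⟨C3, hC3⟩ : ∃ C3, C3 = R0 * (R0 * R0 * B * Δ) / (κ * r0 * r0) := ⟨_, rfl⟩
  have hB0 : 0 < B := by linarith
  have hC3p : 0 < C3 := by rw [hC3]; positivity
  -- the main estimate
  have main : ∀ x ∈ K, ∀ r R : ℝ, 0 < r → 0 < R → R ≤ Δ → ∀ j : ℕ, 1 ≤ j →
      C3 * (r / R) ≤ (1 / 2) ^ j → ∀ (k : ℕ) (V : Fin k → Set (E d)),
      (∀ i, Metric.ediam (V i) ≤ ENNReal.ofReal r) → Metric.closedBall x R ∩ K ⊆ ⋃ i, V i →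
      ENNReal.ofReal ((2 : ℝ) ^ (j * (σ : ℝ))) ≤ k * M := by
    intro x hx r R hr hR hRΔ j hj hjr k V hV hKV
    obtain ⟨n, hn1⟩ := exists_pow_lt_of_lt_one (show 0 < R * r0 / (R0 * B * Δ) by positivity)
      (show (1 / 2 : ℝ) < 1 by norm_num)
    obtain ⟨w, c, u', hu', x', hx', hW, hxx, h1, h2⟩ := select hK hκ0 hκ1 hB hU0 hst n u0 hu0 x hx
      (R * r0 / (R0 * B * Δ)) hn1.le (by
        rw [div_le_one (by positivity)]
        calc R * r0 ≤ Δ * R0 := mul_le_mul hRΔ hrR hr0.le hΔ.le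
          _ = R0 * 1 * Δ := by ring
          _ ≤ R0 * B * Δ := by gcongr)
    have hun := hU0 u0 hu0
    have hun' := hU0 u' hu'
    have hc1 : |c| * B * Δ ≤ R := by
      rw [div_le_iff₀ hun] at h2
      have h3 : |c| * r0 ≤ R * r0 / (R0 * B * Δ) * R0 := by
        calc |c| * r0 ≤ |c| * ‖u'‖ := mul_le_mul_of_nonneg_left (hU1 u' hu') (abs_nonneg _)
          _ ≤ R * r0 / (R0 * B * Δ) * ‖u0‖ := h2
          _ ≤ R * r0 / (R0 * B * Δ) * R0 :=
            mul_le_mul_of_nonneg_left (hU2 u0 hu0) (by positivity)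
      have h4 : R * r0 / (R0 * B * Δ) * R0 = R / (B * Δ) * r0 := by
        field_simp
      rw [h4] at h3
      have h5 : |c| ≤ R / (B * Δ) := le_of_mul_le_mul_right h3 hr0
      rw [le_div_iff₀ (by positivity)] at h5
      linarith
    have hc2 : κ * r0 * r0 * R / (R0 * R0 * B * Δ) ≤ |c| := by
      rw [le_div_iff₀ hun] at h1
      have h3 : κ * (R * r0 / (R0 * B * Δ)) * r0 ≤ |c| * R0 := by
        calc κ * (R * r0 / (R0 * B * Δ)) * r0 ≤ κ * (R * r0 / (R0 * B * Δ)) * ‖u0‖ :=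
              mul_le_mul_of_nonneg_left (hU1 u0 hu0) (by positivity)
          _ ≤ |c| * ‖u'‖ := h1
          _ ≤ |c| * R0 := mul_le_mul_of_nonneg_left (hU2 u' hu') (abs_nonneg _)
      rw [← div_le_iff₀ hR0] at h3
      refine le_trans (le_of_eq ?_) h3
      field_simp
    have hcp : 0 < |c| := lt_of_lt_of_le (by positivity) hc2
    -- the points of the words
    have hy : ∀ v : List (Fin m), ∃ k, zw A w t + Aw A w (zw A v t + Aw A v x0) ∈ V k := by
      intro v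
      have h3 := mem_word hK v hx0
      have h4 := mem_word hK w h3
      apply mem_iUnion.1 (hKV ⟨?_, h4⟩)
      rw [Metric.mem_closedBall, dist_eq_norm, hxx]
      have h5 : zw A w t + Aw A w (zw A v t + Aw A v x0) - (zw A w t + Aw A w x') =
          Aw A w (zw A v t + Aw A v x0 - x') := by
        rw [map_sub]
        abel
      rw [h5]
      refine (hW.norm _).trans (le_trans ?_ hc1)
      apply mul_le_mul_of_nonneg_left _ (by positivity)
      rw [← dist_eq_norm, hΔd]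
      exact Metric.dist_le_diam_of_mem hK.2.1.isBounded h3 hx'
    choose κ' hκ' using hy
    have hx0n : ‖x0‖ ≤ 2 * T := (norm_le_of_mem hA hK hx0).trans (by linarith)
    have hT0 : 0 ≤ T := (norm_nonneg t).trans hT
    have hcard : 1 ≤ (k : ℝ≥0∞) * S1 A p u' (nn j) (2 * (1 / 2) ^ j) t := by
      refine (one_le_card_mul p hp (nn j) k κ').trans (mul_le_mul_right ?_ _)
      unfold S1
      refine avg_mono p (nn j) (fun v hv => avg_mono p (nn j) (fun v' hv' => ?_))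
      split_ifs with h
      · have hmem : t ∈ {t : Fin m → E d |
            |inner ℝ u' (zw A v t - zw A v' t)| ≤ 2 * (1 / 2) ^ j} := by
          rw [Set.mem_ofPred_eq]
          have h3 : dist (zw A w t + Aw A w (zw A v t + Aw A v x0))
              (zw A w t + Aw A w (zw A v' t + Aw A v' x0)) ≤ r := by
            have h4 := (Metric.edist_le_ediam_of_mem (hκ' v) (h ▸ hκ' v')).trans (hV (κ' v))
            rw [edist_dist] at h4
            exact (ENNReal.ofReal_le_ofReal_iff hr.le).1 h4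
          set z := zw A v t + Aw A v x0 - (zw A v' t + Aw A v' x0) with hz
          have h4 : ‖Aw A w z‖ ≤ r := by
            rw [dist_eq_norm] at h3
            have h5 : zw A w t + Aw A w (zw A v t + Aw A v x0) -
                (zw A w t + Aw A w (zw A v' t + Aw A v' x0)) = Aw A w z := by
              rw [hz, map_sub]
              abel
            rwa [h5] at h3
          have h5 : |c| * |inner ℝ u' z| ≤ R0 * r := by
            rw [← abs_mul, ← hW.adj]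
            refine (abs_real_inner_le_norm _ _).trans ?_
            exact mul_le_mul (hU2 u0 hu0) h4 (norm_nonneg _) hR0.le
          have h6 : |inner ℝ u' z| ≤ C3 * (r / R) := by
            have h7 : |inner ℝ u' z| ≤ R0 * r / |c| := by
              rw [le_div_iff₀ hcp]
              linarith
            refine h7.trans ?_
            calc R0 * r / |c| ≤ R0 * r / (κ * r0 * r0 * R / (R0 * R0 * B * Δ)) := by gcongr
              _ = C3 * (r / R) := by
                rw [hC3]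
                field_simp
          have h7 : ∀ v : List (Fin m), v.length = nn j →
              |inner ℝ u' (Aw A v x0)| ≤ Q * ((1 / 2) ^ nn j * (2 * T)) := by
            intro v hv
            refine (abs_real_inner_le_norm _ _).trans ?_
            have h8 := Aw_norm_le hA v x0
            rw [hv] at h8
            apply mul_le_mul (hQ u' hu') _ (norm_nonneg _) ((norm_nonneg _).trans (hQ u' hu'))
            exact h8.trans (mul_le_mul_of_nonneg_left hx0n (by positivity))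
          have h8 : inner ℝ u' (zw A v t - zw A v' t) =
              inner ℝ u' z - inner ℝ u' (Aw A v x0) + inner ℝ u' (Aw A v' x0) := by
            rw [hz]
            simp only [inner_sub_right, inner_add_right]
            ring
          rw [h8]
          have h9 := h7 v hv
          have h10 := h7 v' hv'
          have h11 := hn j
          have h12 : Q * ((1 / 2) ^ nn j * (2 * T)) + Q * ((1 / 2) ^ nn j * (2 * T)) ≤
              (1 / 2) ^ j := by
            refine le_trans (le_of_eq ?_) h11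
            ring
          calc |inner ℝ u' z - inner ℝ u' (Aw A v x0) + inner ℝ u' (Aw A v' x0)|
              ≤ |inner ℝ u' z - inner ℝ u' (Aw A v x0)| + |inner ℝ u' (Aw A v' x0)| :=
                abs_add_le _ _
            _ ≤ |inner ℝ u' z| + |inner ℝ u' (Aw A v x0)| + |inner ℝ u' (Aw A v' x0)| := by
                gcongr
                exact abs_sub _ _
            _ ≤ 2 * (1 / 2) ^ j := by linarith
        rw [indicator_of_mem hmem]
        rfl
      · exact zero_le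
    calc ENNReal.ofReal ((2 : ℝ) ^ (j * (σ : ℝ)))
        = ENNReal.ofReal ((2 : ℝ) ^ (j * (σ : ℝ))) * 1 := (mul_one _).symm
      _ ≤ ENNReal.ofReal ((2 : ℝ) ^ (j * (σ : ℝ))) *
          ((k : ℝ≥0∞) * S1 A p u' (nn j) (2 * (1 / 2) ^ j) t) := mul_le_mul_right hcard _
      _ = (k : ℝ≥0∞) * (ENNReal.ofReal ((2 : ℝ) ^ (j * (σ : ℝ))) *
          S1 A p u' (nn j) (2 * (1 / 2) ^ j) t) := by ring
      _ ≤ k * M := mul_le_mul_right (hMj u' hu' j hj) _
  have hM1 : M + 1 ≠ ⊤ := ENNReal.add_ne_top.2 ⟨hM, ENNReal.one_ne_top⟩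
  have hM0 : M + 1 ≠ 0 := by simp
  have hMr : 0 < (M + 1).toReal := ENNReal.toReal_pos hM0 hM1
  refine le_iSup₂_of_le σ ⟨(1 / (2 * C3)) ^ (σ : ℝ) / (M + 1).toReal, by positivity, ?_⟩ le_rfl
  intro x hx r R hr hrR' hRd
  rw [← hΔd] at hRd
  have hR : 0 < R := hr.trans hrR'
  apply le_coverNum
  intro k V hV hKV
  have e1 : (1 / (2 * C3)) ^ (σ : ℝ) / (M + 1).toReal * (R / r) ^ (σ : ℝ) =
      (R / r / (2 * C3)) ^ (σ : ℝ) / (M + 1).toReal := by
    have h1 : R / r / (2 * C3) = 1 / (2 * C3) * (R / r) := by ring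
    rw [h1, Real.mul_rpow (by positivity) (by positivity)]
    ring
  rw [e1, ENNReal.ofReal_div_of_pos hMr, ENNReal.ofReal_toReal hM1]
  apply ENNReal.div_le_of_le_mul
  have hk : (1 : ℝ≥0∞) ≤ k := by
    have h1 : x ∈ Metric.closedBall x R ∩ K := ⟨Metric.mem_closedBall_self hR.le, hx⟩
    obtain ⟨i, -⟩ := mem_iUnion.1 (hKV h1)
    have h2 : 1 ≤ k := by
      have := i.2
      omega
    exact_mod_cast h2
  rcases lt_or_ge (R / r / C3) 2 with h | h
  · have h1 : (R / r / (2 * C3)) ^ (σ : ℝ) ≤ 1 := by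
      apply Real.rpow_le_one (by positivity) _ (by positivity)
      have h2 : R / r / (2 * C3) = R / r / C3 / 2 := by ring
      rw [h2]
      linarith
    calc ENNReal.ofReal ((R / r / (2 * C3)) ^ (σ : ℝ)) ≤ 1 := by
          rw [← ENNReal.ofReal_one]
          exact ENNReal.ofReal_le_ofReal h1
      _ = 1 * 1 := (one_mul 1).symm
      _ ≤ k * (M + 1) := mul_le_mul' hk le_add_self
  · obtain ⟨j, hj1, hj2⟩ := exists_nat_pow_near (show 1 ≤ R / r / C3 by linarith)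
      (show (1 : ℝ) < 2 by norm_num)
    have hj : 1 ≤ j := by
      by_contra hcon
      have hj0 : j = 0 := by omega
      rw [hj0, zero_add, pow_one] at hj2
      linarith
    have h1 := main x hx r R hr hR hRd j hj (by
      rw [div_div, le_div_iff₀ (by positivity)] at hj1
      rw [one_div, inv_pow]
      rw [le_inv_comm₀ (by positivity) (by positivity)]
      rw [← one_div, le_div_iff₀ (by positivity)]
      calc (2 : ℝ) ^ j * (C3 * (r / R)) = 2 ^ j * (r * C3) / R := by ring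
        _ ≤ R / R := by gcongr
        _ = 1 := div_self hR.ne') k V hV hKV
    have h2 : (R / r / (2 * C3)) ^ (σ : ℝ) ≤ (2 : ℝ) ^ (j * (σ : ℝ)) := by
      rw [Real.rpow_mul (by norm_num), Real.rpow_natCast]
      apply Real.rpow_le_rpow (by positivity) _ (by positivity)
      rw [pow_succ] at hj2
      have h3 : R / r / (2 * C3) = R / r / C3 / 2 := by ring
      rw [h3]
      linarith
    calc ENNReal.ofReal ((R / r / (2 * C3)) ^ (σ : ℝ))
        ≤ ENNReal.ofReal ((2 : ℝ) ^ (j * (σ : ℝ))) := ENNReal.ofReal_le_ofReal h2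
      _ ≤ k * M := h1
      _ ≤ k * (M + 1) := mul_le_mul_right le_self_add _

/-! ### the almost sure part -/

theorem measurable_S1 {p : Fin m → ℝ≥0∞} (hp : ∑ i, p i = 1) (u : E d) (n : ℕ) (ρ : ℝ) :
    Measurable (fun t : Fin m → E d => S1 A p u n ρ t) := by
  have hpt : ∀ i, p i ≠ ⊤ := fun i h => by
    have h1 : p i ≤ ∑ i, p i := Finset.single_le_sum (fun _ _ => zero_le) (Finset.mem_univ i)
    rw [hp, h] at h1
    exact absurd h1 (by simp)
  unfold S1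
  refine (lintegral_avg p (volume : Measure (Fin m → E d)) n _ (fun w => ?_) hpt).1
  refine (lintegral_avg p (volume : Measure (Fin m → E d)) n _ (fun w' => ?_) hpt).1
  refine Measurable.indicator measurable_const ?_
  exact measurableSet_le ((continuous_abs.comp ((continuous_const (y := u)).inner (𝕜 := ℝ)
    ((zw A w).continuous.sub (zw A w').continuous))).measurable) measurable_const

/-- choice of the word lengths -/
theorem exists_L {π : ℝ≥0∞} (hπ : π < 1) (T : ℝ) :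
    ∃ L : ℕ, π ^ L ≤ 1 / 4 ∧ (1 / 2 : ℝ) ^ L * T ≤ 1 ∧ 1 ≤ L := by
  have h1 := ENNReal.tendsto_pow_atTop_nhds_zero_of_lt_one hπ
  have h2 : ∀ᶠ n in Filter.atTop, π ^ n ≤ 1 / 4 := h1.eventually_le_const (by simp)
  have h3 : Filter.Tendsto (fun n : ℕ => (1 / 2 : ℝ) ^ n * T) Filter.atTop (nhds (0 * T)) :=
    (tendsto_pow_atTop_nhds_zero_of_lt_one (by norm_num) (by norm_num)).mul_const _
  rw [zero_mul] at h3
  have h4 : ∀ᶠ n in Filter.atTop, (1 / 2 : ℝ) ^ n * T ≤ 1 :=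
    h3.eventually_le_const (by norm_num)
  obtain ⟨L, hL⟩ := (h2.and (h4.and (Filter.eventually_ge_atTop 1))).exists
  exact ⟨L, hL.1, hL.2.1, hL.2.2⟩

theorem exp_id (σ : ℝ) (j : ℕ) :
    (2 : ℝ) ^ (((j + 1 : ℕ) : ℝ) * σ) * (1 / 2 : ℝ) ^ j = (2 : ℝ) ^ σ * ((2 : ℝ) ^ (σ - 1)) ^ j := by
  have h1 : (1 / 2 : ℝ) ^ j = (2 : ℝ) ^ (-(j : ℝ)) := by
    rw [Real.rpow_neg (by norm_num), Real.rpow_natCast, one_div, inv_pow]
  rw [h1, ← Real.rpow_natCast, ← Real.rpow_mul (by norm_num), ← Real.rpow_add (by norm_num),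
    ← Real.rpow_add (by norm_num)]
  congr 1
  push_cast
  ring

theorem ae_ball (hm : 2 ≤ m) {U : Set (E d)} {a : Fin m → ℝ} {θ : ℝ} (hS : Sys A U a θ)
    (hUf : U.Finite) (hsum : 1 < ∑ i, a i) (F : (Fin m → E d) → Set (E d))
    (hF : ∀ t, IsSelfAffineSet A t (F t)) (T : ℕ) {σ : ℝ≥0} (hσ0 : 0 < σ) (hσ1 : σ < 1) :
    ∀ᵐ t ∂(volume.restrict (Metric.closedBall (0 : Fin m → E d) T)),
      t ∈ Metric.closedBall (0 : Fin m → E d) T → (σ : ℝ≥0∞) ≤ lowerDim (F t) := by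
  obtain ⟨p, C, π, hp, hC, hπ, hE⟩ := energy1 hm hS hsum (T : ℝ)
  obtain ⟨u2, hu2, hmax⟩ := hS.comp.exists_isMaxOn hS.ne (continuous_norm.continuousOn)
  obtain ⟨L, hL1, hL2, hL3⟩ := exists_L hπ (4 * ‖u2‖ * (T : ℝ))
  have hσ1' : (σ : ℝ) < 1 := by exact_mod_cast hσ1
  have hn : ∀ j, (1 / 2 : ℝ) ^ (L * (j + 1)) * (4 * ‖u2‖ * (T : ℝ)) ≤ (1 / 2) ^ j := by
    intro j
    have h1 : (1 / 2 : ℝ) ^ (L * (j + 1)) = (1 / 2) ^ (L * j) * (1 / 2) ^ L := by
      rw [← pow_add]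
      congr 1
    rw [h1, mul_assoc]
    have h2 : (1 / 2 : ℝ) ^ (L * j) ≤ (1 / 2) ^ j :=
      pow_le_pow_of_le_one (by norm_num) (by norm_num) (Nat.le_mul_of_pos_left j (by omega))
    calc (1 / 2 : ℝ) ^ (L * j) * ((1 / 2) ^ L * (4 * ‖u2‖ * T)) ≤ (1 / 2 : ℝ) ^ (L * j) * 1 :=
          mul_le_mul_of_nonneg_left hL2 (by positivity)
      _ ≤ (1 / 2) ^ j := by rw [mul_one]; exact h2
  have hint : ∀ u ∈ U, ∀ j : ℕ, ∫⁻ t in Metric.closedBall (0 : Fin m → E d) T,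
      S1 A p u (L * (j + 1 + 1)) (2 * (1 / 2) ^ (j + 1)) t ≤
        C * (2 * ENNReal.ofReal ((1 / 2 : ℝ) ^ j)) := by
    intro u hu j
    have hρ : (2 : ℝ) * (1 / 2) ^ (j + 1) = (1 / 2) ^ j := by rw [pow_succ]; ring
    have hρ0 : (0 : ℝ) < (1 / 2) ^ j := by positivity
    rw [hρ]
    refine (hE u hu _ _ hρ0).trans (mul_le_mul_right ?_ _)
    rw [two_mul]
    refine add_le_add le_rfl ?_
    have h1 : π ^ (L * (j + 1 + 1)) ≤ (1 / 4 : ℝ≥0∞) ^ j := by
      rw [pow_mul]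
      calc (π ^ L) ^ (j + 1 + 1) ≤ (1 / 4 : ℝ≥0∞) ^ (j + 1 + 1) :=
            pow_le_pow_left₀ zero_le hL1 _
        _ ≤ (1 / 4 : ℝ≥0∞) ^ j :=
          pow_le_pow_of_le_one zero_le (by
            rw [ENNReal.div_le_iff (by norm_num) (by norm_num)]; norm_num) (by omega)
    refine h1.trans ?_
    have h3 : (1 / 4 : ℝ≥0∞) ^ j = ENNReal.ofReal ((1 / 4 : ℝ) ^ j) := by
      rw [ENNReal.ofReal_pow (by norm_num), ENNReal.ofReal_div_of_pos (by norm_num)]
      norm_num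
    rw [h3]
    refine ENNReal.ofReal_le_ofReal ?_
    gcongr
    norm_num
  have hmeas : ∀ u : E d, ∀ j : ℕ, Measurable fun t : Fin m → E d =>
      ENNReal.ofReal ((2 : ℝ) ^ (((j + 1 : ℕ) : ℝ) * (σ : ℝ))) *
        S1 A p u (L * (j + 1 + 1)) (2 * (1 / 2) ^ (j + 1)) t := fun u j =>
    (measurable_S1 hp _ _ _).const_mul _
  have hsumI : ∀ u ∈ U, ∫⁻ t in Metric.closedBall (0 : Fin m → E d) T,
      ∑' j : ℕ, ENNReal.ofReal ((2 : ℝ) ^ (((j + 1 : ℕ) : ℝ) * (σ : ℝ))) *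
        S1 A p u (L * (j + 1 + 1)) (2 * (1 / 2) ^ (j + 1)) t ≠ ⊤ := by
    intro u hu
    rw [lintegral_tsum (fun j => (hmeas u j).aemeasurable)]
    have h1 : ∀ j : ℕ, ∫⁻ t in Metric.closedBall (0 : Fin m → E d) T,
        ENNReal.ofReal ((2 : ℝ) ^ (((j + 1 : ℕ) : ℝ) * (σ : ℝ))) *
          S1 A p u (L * (j + 1 + 1)) (2 * (1 / 2) ^ (j + 1)) t ≤
        (2 * C * ENNReal.ofReal ((2 : ℝ) ^ (σ : ℝ))) *
          (ENNReal.ofReal ((2 : ℝ) ^ ((σ : ℝ) - 1))) ^ j := by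
      intro j
      rw [lintegral_const_mul _ (measurable_S1 hp _ _ _)]
      refine (mul_le_mul_right (hint u hu j) _).trans (le_of_eq ?_)
      have h2 := exp_id (σ : ℝ) j
      have h3 : ENNReal.ofReal ((2 : ℝ) ^ (((j + 1 : ℕ) : ℝ) * (σ : ℝ))) *
          ENNReal.ofReal ((1 / 2 : ℝ) ^ j) =
          ENNReal.ofReal ((2 : ℝ) ^ (σ : ℝ)) * (ENNReal.ofReal ((2 : ℝ) ^ ((σ : ℝ) - 1))) ^ j := by
        rw [← ENNReal.ofReal_pow (by positivity), ← ENNReal.ofReal_mul (by positivity),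
          ← ENNReal.ofReal_mul (by positivity), h2]
      calc ENNReal.ofReal ((2 : ℝ) ^ (((j + 1 : ℕ) : ℝ) * (σ : ℝ))) *
            (C * (2 * ENNReal.ofReal ((1 / 2 : ℝ) ^ j)))
          = (2 * C) * (ENNReal.ofReal ((2 : ℝ) ^ (((j + 1 : ℕ) : ℝ) * (σ : ℝ))) *
            ENNReal.ofReal ((1 / 2 : ℝ) ^ j)) := by ring
        _ = (2 * C * ENNReal.ofReal ((2 : ℝ) ^ (σ : ℝ))) *
          (ENNReal.ofReal ((2 : ℝ) ^ ((σ : ℝ) - 1))) ^ j := by rw [h3]; ring
    have h4 : ∑' j : ℕ, (2 * C * ENNReal.ofReal ((2 : ℝ) ^ (σ : ℝ))) *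
          (ENNReal.ofReal ((2 : ℝ) ^ ((σ : ℝ) - 1))) ^ j ≠ ⊤ := by
      rw [ENNReal.tsum_mul_left, ENNReal.tsum_geometric]
      refine ENNReal.mul_ne_top (ENNReal.mul_ne_top (ENNReal.mul_ne_top (by norm_num) hC)
        ENNReal.ofReal_ne_top) ?_
      rw [ENNReal.inv_ne_top]
      have h5 : (2 : ℝ) ^ ((σ : ℝ) - 1) < 1 :=
        Real.rpow_lt_one_of_one_lt_of_neg (by norm_num) (by linarith)
      have h6 : ENNReal.ofReal ((2 : ℝ) ^ ((σ : ℝ) - 1)) < 1 := by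
        rw [← ENNReal.ofReal_one]
        exact (ENNReal.ofReal_lt_ofReal_iff one_pos).2 h5
      exact (tsub_pos_of_lt h6).ne'
    exact ne_top_of_le_ne_top h4 (ENNReal.tsum_le_tsum h1)
  have hae : ∀ᵐ t ∂(volume.restrict (Metric.closedBall (0 : Fin m → E d) T)), ∀ u ∈ U,
      ∑' j : ℕ, ENNReal.ofReal ((2 : ℝ) ^ (((j + 1 : ℕ) : ℝ) * (σ : ℝ))) *
        S1 A p u (L * (j + 1 + 1)) (2 * (1 / 2) ^ (j + 1)) t < ⊤ := by
    rw [ae_ball_iff hUf.countable]
    intro u hu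
    exact ae_lt_top (Measurable.tsum (hmeas u)) (hsumI u hu)
  filter_upwards [hae] with t ht hmem
  have hT : ‖t‖ ≤ (T : ℝ) := by rwa [Metric.mem_closedBall, dist_zero_right] at hmem
  refine det1 hm hS hp (hF t) hT (Q := ‖u2‖) (fun u hu => hmax hu) hσ0
    (fun j => L * (j + 1)) hn (M := ∑ u ∈ hUf.toFinset, ∑' j : ℕ,
      ENNReal.ofReal ((2 : ℝ) ^ (((j + 1 : ℕ) : ℝ) * (σ : ℝ))) *
        S1 A p u (L * (j + 1 + 1)) (2 * (1 / 2) ^ (j + 1)) t) ?_ ?_
  · rw [ENNReal.sum_ne_top]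
    intro u hu
    exact (ht u (hUf.mem_toFinset.1 hu)).ne
  · intro u hu j hj
    obtain ⟨k, rfl⟩ : ∃ k, j = k + 1 := ⟨j - 1, by omega⟩
    refine le_trans ?_ (Finset.single_le_sum (f := fun u => ∑' j : ℕ,
      ENNReal.ofReal ((2 : ℝ) ^ (((j + 1 : ℕ) : ℝ) * (σ : ℝ))) *
        S1 A p u (L * (j + 1 + 1)) (2 * (1 / 2) ^ (j + 1)) t) (fun _ _ => zero_le)
      (hUf.mem_toFinset.2 hu))
    exact ENNReal.le_tsum (f := fun j : ℕ =>
      ENNReal.ofReal ((2 : ℝ) ^ (((j + 1 : ℕ) : ℝ) * (σ : ℝ))) *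
        S1 A p u (L * (j + 1 + 1)) (2 * (1 / 2) ^ (j + 1)) t) k

end One

open One

/-- If `U` is finite, the lower dimension is almost surely at least 1. -/
theorem one_le_lowerDim (hm : 2 ≤ m) {U : Set (E d)} {a : Fin m → ℝ} {θ : ℝ} (hS : Sys A U a θ)
    (hUf : U.Finite) (hsum : 1 < ∑ i, a i) :
    ∀ᵐ t : Fin m → E d, ∀ K, IsSelfAffineSet A t K → 1 ≤ lowerDim K := by
  have hA' : ∀ i, ‖A i‖ ≤ 1 / 2 := fun i => (hS.norm i).le
  have : Nonempty (Fin m) := ⟨⟨0, by omega⟩⟩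
  have hex : ∀ t, ∃ K, IsSelfAffineSet A t K := fun t => (hutchinson A hA' t).exists
  choose F hF using hex
  have huniq : ∀ t K, IsSelfAffineSet A t K → K = F t := fun t K hK =>
    (hutchinson A hA' t).unique hK (hF t)
  have main : ∀ T : ℕ, ∀ k : ℕ, ∀ᵐ t : Fin m → E d, t ∈ Metric.closedBall (0 : Fin m → E d) T →
      (((k + 1 : ℝ≥0) / (k + 2 : ℝ≥0) : ℝ≥0) : ℝ≥0∞) ≤ lowerDim (F t) := by
    intro T k
    have h1 := ae_ball hm hS hUf hsum F hF T (σ := (k + 1 : ℝ≥0) / (k + 2 : ℝ≥0))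
      (by positivity) (by
        rw [div_lt_one (by positivity)]
        gcongr
        norm_num)
    have h3 := (ae_restrict_iff' Metric.isClosed_closedBall.measurableSet).1 h1
    filter_upwards [h3] with t ht hmem
    exact ht hmem hmem
  have h2 : ∀ᵐ t : Fin m → E d, ∀ T k : ℕ, t ∈ Metric.closedBall (0 : Fin m → E d) T →
      (((k + 1 : ℝ≥0) / (k + 2 : ℝ≥0) : ℝ≥0) : ℝ≥0∞) ≤ lowerDim (F t) := by
    rw [ae_all_iff]
    intro T
    rw [ae_all_iff]
    exact main T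
  filter_upwards [h2] with t ht K hK
  rw [huniq t K hK]
  have h3 : ∀ k : ℕ, (((k + 1 : ℝ≥0) / (k + 2 : ℝ≥0) : ℝ≥0) : ℝ≥0∞) ≤ lowerDim (F t) := by
    intro k
    refine ht ⌈‖t‖⌉₊ k ?_
    rw [Metric.mem_closedBall, dist_zero_right]
    exact Nat.le_ceil _
  refine le_of_forall_lt fun c hc => ?_
  have hc' : c ≠ ⊤ := (hc.trans ENNReal.one_lt_top).ne
  obtain ⟨c0, rfl⟩ : ∃ c0 : ℝ≥0, c = c0 := ⟨c.toNNReal, (ENNReal.coe_toNNReal hc').symm⟩
  have hc0 : (c0 : ℝ) < 1 := by exact_mod_cast hc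
  obtain ⟨k, hk⟩ := exists_nat_gt (1 / (1 - (c0 : ℝ)))
  refine lt_of_lt_of_le ?_ (h3 k)
  rw [ENNReal.coe_lt_coe, ← NNReal.coe_lt_coe]
  push_cast
  have h5 : 0 < 1 - (c0 : ℝ) := by linarith
  rw [div_lt_iff₀ h5] at hk
  rw [lt_div_iff₀ (by positivity)]
  nlinarith [c0.coe_nonneg]

end Pool.Agent.MP_b039ef_an.AS
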