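import Pool.Agent.Lib.MP_b039ef_an.AS.Basic

/-!
# MP_b039ef_an, project AS: the support functions of the pieces of a self-affine set
-/

set_option autoImplicit false

namespace Pool.Agent.MP_b039ef_an.AS

open scoped ENNReal NNReal
open MeasureTheory Set

variable {d m : ℕ} {A : Fin m → E d →L[ℝ] E d}

private theorem supp_exists_pre {t : Fin m → E d} {K : Set (E d)} (hK : IsSelfAffineSet A t K)
    {x : E d} (hx : x ∈ K) : ∃ i, ∃ y ∈ K, A i y + t i = x := by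
  rw [hK.2.2] at hx
  obtain ⟨i, y, hy, rfl⟩ := mem_iUnion.1 hx
  exact ⟨i, y, hy, rfl⟩

theorem norm_le_of_mem (hA : ∀ i, ‖A i‖ ≤ 1 / 2) {t : Fin m → E d} {K : Set (E d)}
    (hK : IsSelfAffineSet A t K) {x : E d} (hx : x ∈ K) : ‖x‖ ≤ 2 * ‖t‖ := by
  obtain ⟨x1, hx1, hmax⟩ := hK.2.1.exists_isMaxOn hK.1 (continuous_norm (E := E d)).continuousOn
  obtain ⟨i, y, hy, h1⟩ := supp_exists_pre hK hx1
  have h2 : ‖y‖ ≤ ‖x1‖ := hmax hy
  have h3 : ‖x‖ ≤ ‖x1‖ := hmax hx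
  have h4 : ‖A i y‖ ≤ 1 / 2 * ‖y‖ :=
    ((A i).le_opNorm y).trans (mul_le_mul_of_nonneg_right (hA i) (norm_nonneg _))
  have h5 : ‖x1‖ ≤ ‖A i y‖ + ‖t i‖ := by
    rw [← h1]
    exact norm_add_le _ _
  have h6 : ‖t i‖ ≤ ‖t‖ := norm_le_pi_norm t i
  linarith

theorem image_mem {t : Fin m → E d} {K : Set (E d)} (hK : IsSelfAffineSet A t K) (i : Fin m)
    {x : E d} (hx : x ∈ K) : A i x + t i ∈ K := by
  have h : A i x + t i ∈ ⋃ i, (fun x => A i x + t i) '' K := mem_iUnion.2 ⟨i, x, hx, rfl⟩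
  rwa [← hK.2.2] at h

/-- the set depends on the translations in a Lipschitz way -/
theorem exists_close {a0 : ℝ} (h0 : 0 ≤ a0) (h1 : a0 < 1) (hA : ∀ i, ‖A i‖ ≤ a0)
    {t t' : Fin m → E d} {K K' : Set (E d)} (hK : IsSelfAffineSet A t K)
    (hK' : IsSelfAffineSet A t' K') {x : E d} (hx : x ∈ K) :
    ∃ x' ∈ K', ‖x - x'‖ ≤ ‖t - t'‖ / (1 - a0) := by
  obtain ⟨x1, hx1, hmax⟩ := hK.2.1.exists_isMaxOn hK.1
    (Metric.continuous_infDist_pt K').continuousOn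
  obtain ⟨i, y, hy, hxy⟩ := supp_exists_pre hK hx1
  obtain ⟨y', hy', hyy⟩ := hK'.2.1.exists_infDist_eq_dist hK'.1 y
  have h2 : Metric.infDist y K' ≤ Metric.infDist x1 K' := hmax hy
  have h3 : Metric.infDist x K' ≤ Metric.infDist x1 K' := hmax hx
  have h4 : Metric.infDist x1 K' ≤ dist x1 (A i y' + t' i) :=
    Metric.infDist_le_dist_of_mem (image_mem hK' i hy')
  have h5 : dist x1 (A i y' + t' i) ≤ a0 * dist y y' + ‖t - t'‖ := by
    rw [← hxy, dist_eq_norm, dist_eq_norm]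
    have h6 : A i y + t i - (A i y' + t' i) = A i (y - y') + (t - t') i := by
      rw [map_sub, Pi.sub_apply]
      abel
    rw [h6]
    refine (norm_add_le _ _).trans (add_le_add ?_ (norm_le_pi_norm (t - t') i))
    exact ((A i).le_opNorm _).trans (mul_le_mul_of_nonneg_right (hA i) (norm_nonneg _))
  have h6 : a0 * dist y y' ≤ a0 * Metric.infDist x1 K' :=
    mul_le_mul_of_nonneg_left (by rw [← hyy]; exact h2) h0
  have h7 : Metric.infDist x1 K' * (1 - a0) ≤ ‖t - t'‖ := by linarith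
  obtain ⟨x', hx', hxx⟩ := hK'.2.1.exists_infDist_eq_dist hK'.1 x
  refine ⟨x', hx', ?_⟩
  rw [le_div_iff₀ (by linarith), ← dist_eq_norm, ← hxx]
  exact (mul_le_mul_of_nonneg_right h3 (by linarith)).trans h7

private theorem supp_cont (t : Fin m → E d) (i : Fin m) (u : E d) :
    Continuous fun x : E d => inner ℝ u (A i x + t i) :=
  continuous_const.inner ((A i).continuous.add continuous_const)

theorem le_hI {t : Fin m → E d} {K : Set (E d)} (hK : IsSelfAffineSet A t K) (i : Fin m)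
    (u : E d) {x : E d} (hx : x ∈ K) : inner ℝ u (A i x + t i) ≤ hI A t K i u :=
  le_csSup (hK.2.1.image (supp_cont t i u)).bddAbove (mem_image_of_mem _ hx)

theorem exists_hI {t : Fin m → E d} {K : Set (E d)} (hK : IsSelfAffineSet A t K) (i : Fin m)
    (u : E d) : ∃ x ∈ K, inner ℝ u (A i x + t i) = hI A t K i u := by
  obtain ⟨x, hx, h⟩ := hK.2.1.exists_sSup_image_eq hK.1 (supp_cont (A := A) t i u).continuousOn
  exact ⟨x, hx, h.symm⟩

private theorem supp_lip_aux (hA : ∀ i, ‖A i‖ ≤ 1 / 2) {t : Fin m → E d} {K : Set (E d)}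
    (hK : IsSelfAffineSet A t K) (i : Fin m) (u u' : E d) :
    hI A t K i u - hI A t K i u' ≤ 2 * ‖t‖ * ‖u - u'‖ := by
  obtain ⟨x, hx, h⟩ := exists_hI hK i u
  have h1 := le_hI hK i u' hx
  have h2 : inner ℝ u (A i x + t i) - inner ℝ u' (A i x + t i) ≤ 2 * ‖t‖ * ‖u - u'‖ := by
    rw [← inner_sub_left]
    refine (real_inner_le_norm _ _).trans ?_
    rw [mul_comm]
    exact mul_le_mul_of_nonneg_right (norm_le_of_mem hA hK (image_mem hK i hx)) (norm_nonneg _)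
  rw [← h]
  linarith

theorem hI_lip (hA : ∀ i, ‖A i‖ ≤ 1 / 2) {t : Fin m → E d} {K : Set (E d)}
    (hK : IsSelfAffineSet A t K) (i : Fin m) (u u' : E d) :
    |hI A t K i u - hI A t K i u'| ≤ 2 * ‖t‖ * ‖u - u'‖ := by
  rw [abs_le]
  constructor
  · have h := supp_lip_aux hA hK i u' u
    rw [norm_sub_rev] at h
    linarith
  · exact supp_lip_aux hA hK i u u'

theorem hI_mono {a0 : ℝ} (h0 : 0 ≤ a0) (h1 : a0 < 1) (hA : ∀ i, ‖A i‖ ≤ a0)
    {t t' : Fin m → E d} {K K' : Set (E d)} (hK : IsSelfAffineSet A t K)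
    (hK' : IsSelfAffineSet A t' K') (i : Fin m) (u : E d) :
    hI A t K i u + inner ℝ u (t' i - t i) - ‖u‖ * (a0 / (1 - a0)) * ‖t - t'‖ ≤
      hI A t' K' i u := by
  obtain ⟨x, hx, h⟩ := exists_hI hK i u
  obtain ⟨x', hx', hc⟩ := exists_close h0 h1 hA hK hK' hx
  have h2 := le_hI hK' i u hx'
  have h3 : inner ℝ u (A i x' + t' i) =
      inner ℝ u (A i x + t i) + inner ℝ u (t' i - t i) - inner ℝ u (A i (x - x')) := by
    rw [← inner_add_right, ← inner_sub_right, map_sub]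
    congr 1
    abel
  have h4 : inner ℝ u (A i (x - x')) ≤ ‖u‖ * (a0 / (1 - a0)) * ‖t - t'‖ := by
    have h5 : ‖A i (x - x')‖ ≤ a0 * (‖t - t'‖ / (1 - a0)) :=
      ((A i).le_opNorm _).trans (mul_le_mul (hA i) hc (norm_nonneg _) h0)
    calc inner ℝ u (A i (x - x')) ≤ ‖u‖ * ‖A i (x - x')‖ := real_inner_le_norm _ _
      _ ≤ ‖u‖ * (a0 * (‖t - t'‖ / (1 - a0))) := mul_le_mul_of_nonneg_left h5 (norm_nonneg _)
      _ = ‖u‖ * (a0 / (1 - a0)) * ‖t - t'‖ := by ring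
  rw [h3, h] at h2
  linarith

end Pool.Agent.MP_b039ef_an.AS
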