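import Pool.Agent.Lib.MP_b039ef_an.AS.Supp
import Pool.Agent.Lib.MP_b039ef_an.AS.Slice

/-!
# MP_b039ef_an, project AS: transversality of the support functions
-/

set_option autoImplicit false

namespace Pool.Agent.MP_b039ef_an.AS

open scoped ENNReal NNReal
open MeasureTheory Set

variable {d m : ℕ} {A : Fin m → E d →L[ℝ] E d}

private theorem tie_lip {a0 : ℝ} (h0 : 0 ≤ a0) (h1 : a0 < 1) (hA : ∀ i, ‖A i‖ ≤ a0)
    (F : (Fin m → E d) → Set (E d)) (hF : ∀ t, IsSelfAffineSet A t (F t)) (i : Fin m) (u : E d)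
    (t t' : Fin m → E d) :
    hI A t (F t) i u - hI A t' (F t') i u ≤ (‖u‖ + ‖u‖ * (a0 / (1 - a0))) * ‖t - t'‖ := by
  have h := hI_mono h0 h1 hA (hF t) (hF t') i u
  have h2 : -(‖u‖ * ‖t - t'‖) ≤ inner ℝ u (t' i - t i) := by
    have h3 : |inner ℝ u (t' i - t i)| ≤ ‖u‖ * ‖t' i - t i‖ := abs_real_inner_le_norm _ _
    have h4 : ‖t' i - t i‖ ≤ ‖t - t'‖ := by
      rw [norm_sub_rev]
      exact norm_le_pi_norm (t - t') i
    have h5 : ‖u‖ * ‖t' i - t i‖ ≤ ‖u‖ * ‖t - t'‖ :=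
      mul_le_mul_of_nonneg_left h4 (norm_nonneg _)
    have h6 := (abs_le.mp h3).1
    linarith
  linarith [h, h2]

private theorem tie_cont {a0 : ℝ} (h0 : 0 ≤ a0) (h1 : a0 < 1) (hA : ∀ i, ‖A i‖ ≤ a0)
    (F : (Fin m → E d) → Set (E d)) (hF : ∀ t, IsSelfAffineSet A t (F t)) (i : Fin m) (u : E d) :
    Continuous fun t : Fin m → E d => hI A t (F t) i u := by
  refine (LipschitzWith.of_dist_le' (K := ‖u‖ + ‖u‖ * (a0 / (1 - a0))) ?_).continuous
  intro t t'
  rw [Real.dist_eq, dist_eq_norm, abs_le]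
  constructor
  · have h := tie_lip h0 h1 hA F hF i u t' t
    rw [norm_sub_rev] at h
    linarith
  · exact tie_lip h0 h1 hA F hF i u t t'

private theorem tie_norm (i j : Fin m) (hij : i ≠ j) (v : E d) (hv : ‖v‖ ≤ 1) :
    ‖(Pi.single i v - Pi.single j v : Fin m → E d)‖ ≤ 1 := by
  rw [pi_norm_le_iff_of_nonneg zero_le_one]
  intro l
  rw [Pi.sub_apply]
  by_cases hl : l = i
  · subst hl
    rw [Pi.single_eq_same, Pi.single_eq_of_ne hij, sub_zero]
    exact hv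
  · by_cases hj : l = j
    · subst hj
      rw [Pi.single_eq_same, Pi.single_eq_of_ne hl, zero_sub, norm_neg]
      exact hv
    · rw [Pi.single_eq_of_ne hl, Pi.single_eq_of_ne hj, sub_zero, norm_zero]
      exact zero_le_one

/-- a set of reals with bounded distances lies in a short interval -/
private theorem tie_Icc (S : Set ℝ) (l : ℝ) (h : ∀ s ∈ S, ∀ s' ∈ S, s ≤ s' → s' - s ≤ l)
    (hl : 0 ≤ l) : ∃ y, S ⊆ Icc y (y + l) := by
  rcases S.eq_empty_or_nonempty with h0 | ⟨s0, hs0⟩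
  · exact ⟨0, by rw [h0]; exact empty_subset _⟩
  have hb : BddBelow S := by
    refine ⟨s0 - l, fun s hs => ?_⟩
    rcases le_total s s0 with h1 | h1
    · have := h s hs s0 hs0 h1
      linarith
    · linarith
  refine ⟨sInf S, fun s hs => ⟨csInf_le hb hs, ?_⟩⟩
  have h2 : s - l ≤ sInf S := by
    refine le_csInf ⟨s0, hs0⟩ fun s' hs' => ?_
    rcases le_total s' s with h1 | h1
    · have := h s' hs' s hs h1
      linarith
    · linarith
  linarith

/-- transversality: the pieces `i` and `j` rarely have nearly the same maximum -/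
theorem measure_tie_le {a0 : ℝ} (h0 : 0 ≤ a0) (h1 : a0 < 1 / 2) (hA : ∀ i, ‖A i‖ ≤ a0)
    (F : (Fin m → E d) → Set (E d)) (hF : ∀ t, IsSelfAffineSet A t (F t)) (T : ℝ) :
    ∃ C : ℝ≥0∞, C ≠ ⊤ ∧ ∀ u : E d, u ≠ 0 → ∀ i j, i ≠ j → ∀ δ : ℝ, 0 ≤ δ →
      volume {t : Fin m → E d | ‖t‖ ≤ T ∧ |hI A t (F t) i u - hI A t (F t) j u| ≤ δ} ≤
        C * ENNReal.ofReal (δ / ‖u‖) := by
  have h1' : a0 < 1 := by linarith
  have h1a : 0 < 1 - a0 := by linarith
  obtain ⟨q, hq⟩ : ∃ q : ℝ, q = a0 / (1 - a0) := ⟨_, rfl⟩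
  have hq1 : q < 1 := by
    rw [hq, div_lt_one h1a]
    linarith
  obtain ⟨k, hk⟩ : ∃ k : ℝ, k = 1 - q := ⟨_, rfl⟩
  have hk0 : 0 < k := by linarith
  refine ⟨volume (Metric.closedBall (0 : Fin m → E d) (T + 1)) * ENNReal.ofReal (1 / k), ?_, ?_⟩
  · exact ENNReal.mul_ne_top measure_closedBall_lt_top.ne ENNReal.ofReal_ne_top
  intro u hu i j hij δ hδ
  have hu0 : 0 < ‖u‖ := norm_pos_iff.mpr hu
  obtain ⟨v, hv⟩ : ∃ v : E d, v = ‖u‖⁻¹ • u := ⟨_, rfl⟩
  have hv1 : ‖v‖ ≤ 1 := by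
    rw [hv, norm_smul, norm_inv, norm_norm, inv_mul_cancel₀ hu0.ne']
  have huv : inner ℝ u v = ‖u‖ := by
    rw [hv, inner_smul_right, real_inner_self_eq_norm_sq]
    field_simp
  obtain ⟨e, he⟩ : ∃ e : Fin m → E d, e = Pi.single i v - Pi.single j v := ⟨_, rfl⟩
  have hen : ‖e‖ ≤ 1 := by
    rw [he]
    exact tie_norm i j hij v hv1
  have hei : e i = v := by
    rw [he, Pi.sub_apply, Pi.single_eq_same, Pi.single_eq_of_ne hij, sub_zero]
  have hej : e j = -v := by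
    rw [he, Pi.sub_apply, Pi.single_eq_same, Pi.single_eq_of_ne hij.symm, zero_sub]
  obtain ⟨ℓ, hℓ⟩ : ∃ ℓ : ℝ, ℓ = 1 / k * (δ / ‖u‖) := ⟨_, rfl⟩
  have hℓ0 : 0 ≤ ℓ := by
    rw [hℓ]
    positivity
  have hcl : IsClosed {t : Fin m → E d | ‖t‖ ≤ T ∧
      |hI A t (F t) i u - hI A t (F t) j u| ≤ δ} := by
    refine IsClosed.inter (isClosed_le continuous_norm continuous_const) ?_
    exact isClosed_le (((tie_cont h0 h1' hA F hF i u).sub
      (tie_cont h0 h1' hA F hF j u)).abs) continuous_const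
  have hmain : ∀ x : Fin m → E d, ∀ s s' : ℝ, s ≤ s' →
      (hI A (x + s • e) (F (x + s • e)) i u - hI A (x + s • e) (F (x + s • e)) j u) +
        2 * (k * ‖u‖ * (s' - s)) ≤
      hI A (x + s' • e) (F (x + s' • e)) i u - hI A (x + s' • e) (F (x + s' • e)) j u := by
    intro x s s' hss
    have e1 : (x + s • e) - (x + s' • e) = (s - s') • e := by
      rw [sub_smul]
      abel
    have hn : ‖(x + s • e) - (x + s' • e)‖ ≤ s' - s := by
      rw [e1, norm_smul, Real.norm_eq_abs, abs_of_nonpos (by linarith)]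
      calc -(s - s') * ‖e‖ ≤ -(s - s') * 1 := mul_le_mul_of_nonneg_left hen (by linarith)
        _ = s' - s := by ring
    have hn' : ‖(x + s' • e) - (x + s • e)‖ ≤ s' - s := by
      rw [norm_sub_rev]
      exact hn
    have hi := hI_mono h0 h1' hA (hF (x + s • e)) (hF (x + s' • e)) i u
    have hj := hI_mono h0 h1' hA (hF (x + s' • e)) (hF (x + s • e)) j u
    have ei : (x + s' • e) i - (x + s • e) i = (s' - s) • v := by
      rw [Pi.add_apply, Pi.add_apply, Pi.smul_apply, Pi.smul_apply, hei, sub_smul]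
      abel
    have ej : (x + s • e) j - (x + s' • e) j = (s' - s) • v := by
      rw [Pi.add_apply, Pi.add_apply, Pi.smul_apply, Pi.smul_apply, hej, sub_smul, smul_neg,
        smul_neg]
      abel
    rw [ei, inner_smul_right, huv, ← hq] at hi
    rw [ej, inner_smul_right, huv, ← hq] at hj
    have hq0 : 0 ≤ ‖u‖ * q := by
      rw [hq]
      positivity
    have b1 : ‖u‖ * q * ‖(x + s • e) - (x + s' • e)‖ ≤ ‖u‖ * q * (s' - s) :=
      mul_le_mul_of_nonneg_left hn hq0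
    have b2 : ‖u‖ * q * ‖(x + s' • e) - (x + s • e)‖ ≤ ‖u‖ * q * (s' - s) :=
      mul_le_mul_of_nonneg_left hn' hq0
    have e2 : k * ‖u‖ * (s' - s) = (s' - s) * ‖u‖ - ‖u‖ * q * (s' - s) := by
      rw [hk]
      ring
    rw [e2]
    linarith
  have hsl := slice1 (volume : Measure (Fin m → E d)) hcl.measurableSet e T 1 hen (by
    intro t ht
    rw [mem_closedBall_zero_iff]
    exact ht.1) ℓ (by
    intro x
    refine tie_Icc _ ℓ ?_ hℓ0
    intro s hs s' hs' hss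
    have h3 := hmain x s s' hss
    have h4 := (abs_le.mp hs.2).1
    have h5 := (abs_le.mp hs'.2).2
    have h6 : k * ‖u‖ * (s' - s) ≤ δ := by linarith
    have h7 : 0 < k * ‖u‖ := mul_pos hk0 hu0
    have h8 : s' - s ≤ δ / (k * ‖u‖) := by
      rw [le_div_iff₀ h7]
      linarith
    have h9 : ℓ = δ / (k * ‖u‖) := by
      rw [hℓ]
      field_simp
    rw [h9]
    exact h8)
  refine hsl.trans (le_of_eq ?_)
  rw [hℓ, ENNReal.ofReal_mul (by positivity), mul_assoc]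

end Pool.Agent.MP_b039ef_an.AS
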